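import Pool.Agent.Lib.MP_9a7843_ag_X.Rel

/-!
# MP_9a7843_ag, block X, module Cells: the coordinates of the cells for the generic point
-/

noncomputable section

open MvPolynomial

namespace MP9a7843

section Gen

variable (R : Type*) [CommRing R] (i j : Fin 10) (m : Fin 4)

/-- First basis vector of the plane in the cell `(i, j, m)`, in the polynomial ring of the cell. -/
def uC (l : Fin 10) : MvPolynomial (CellVar i j m) R :=
  if h : l ≠ i ∧ l ≠ j then X (Sum.inl ⟨l, h⟩) else if l = i then 1 else 0

/-- Second basis vector. -/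
def vC (l : Fin 10) : MvPolynomial (CellVar i j m) R :=
  if h : l ≠ i ∧ l ≠ j then X (Sum.inr (Sum.inl ⟨l, h⟩)) else if l = j then 1 else 0

/-- The coefficients of the cubic. -/
def cC (m' : Fin 4) : MvPolynomial (CellVar i j m) R :=
  if h : m' ≠ m then X (Sum.inr (Sum.inr ⟨m', h⟩)) else 1

/-- The Segre coordinates, as polynomials in the coordinates of the cell. -/
def zC (I : Idx) : MvPolynomial (CellVar i j m) R := zfun (uC R i j m) (vC R i j m) (cC R i j m) I

variable {i j m}

/-- The Segre index of a coordinate of the cell. -/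
def coordIdx (i j : Fin 10) (m : Fin 4) : CellVar i j m → Idx :=
  Sum.elim (fun l => (cubIdx i j m, (l.1, j)))
    (Sum.elim (fun l => (cubIdx i j m, (i, l.1))) (fun m' => (cubIdx i j m'.1, (i, j))))

theorem rel_zC : Rel (zC R i j m) := rel_zfun _ _ _

/-- `u_i = 1, u_j = 0, v_i = 0, v_j = 1`, so the coefficient with index `i^(3-m') j^m'` is `c_m'`. -/
theorem cub_cubIdx {R : Type*} [CommRing R] {u v : Fin 10 → R} {c : Fin 4 → R} {i j : Fin 10}
    (h1 : u i = 1) (h2 : u j = 0) (h3 : v i = 0) (h4 : v j = 1) (m' : Fin 4) :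
    cub u v c (cubIdx i j m').1 (cubIdx i j m').2.1 (cubIdx i j m').2.2 = c m' := by
  fin_cases m' <;> simp [cubIdx, cub, h1, h2, h3, h4]

theorem zC_cellIdx (hij : i ≠ j) : zC R i j m (cellIdx i j m) = 1 := by
  have h1 : uC R i j m i = 1 := by simp [uC]
  have h2 : uC R i j m j = 0 := by simp [uC, hij.symm]
  have h3 : vC R i j m i = 0 := by simp [vC, hij]
  have h4 : vC R i j m j = 1 := by simp [vC]
  have h5 : cC R i j m m = 1 := by simp [cC]
  simp only [zC, zfun, cellIdx]
  rw [cub_cubIdx h1 h2 h3 h4, h5]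
  simp [plu, h1, h2, h3, h4]

theorem zC_coordIdx (hij : i ≠ j) (x : CellVar i j m) : zC R i j m (coordIdx i j m x) = X x := by
  have h1 : uC R i j m i = 1 := by simp [uC]
  have h2 : uC R i j m j = 0 := by simp [uC, hij.symm]
  have h3 : vC R i j m i = 0 := by simp [vC, hij]
  have h4 : vC R i j m j = 1 := by simp [vC]
  have h5 : cC R i j m m = 1 := by simp [cC]
  rcases x with x | x | x
  · simp only [zC, zfun, coordIdx, Sum.elim_inl]
    rw [cub_cubIdx h1 h2 h3 h4, h5]
    have : uC R i j m x.1 = X (Sum.inl x) := by simp [uC, x.2.1, x.2.2]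
    simp [plu, h2, h4, this]
  · simp only [zC, zfun, coordIdx, Sum.elim_inl, Sum.elim_inr]
    rw [cub_cubIdx h1 h2 h3 h4, h5]
    have : vC R i j m x.1 = X (Sum.inr (Sum.inl x)) := by simp [vC, x.2.1, x.2.2]
    simp [plu, h1, h3, this]
  · simp only [zC, zfun, coordIdx, Sum.elim_inr]
    rw [cub_cubIdx h1 h2 h3 h4]
    have : cC R i j m x.1 = X (Sum.inr (Sum.inr x)) := by simp [cC, x.2]
    simp [plu, h1, h2, h3, h4, this]

end Gen

section Coord

variable {K : Type*} [Field K] {z : Idx → K} {i j : Fin 10} {m : Fin 4}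

theorem cellCoord_eq (x : CellVar i j m) :
    cellCoord z i j m x = z (coordIdx i j m x) / z (cellIdx i j m) := by
  rcases x with x | x | x <;> rfl

variable (k : Type*) [Field k] [Algebra k K]

theorem aeval_uC (h : Rel z) (hc : z (cellIdx i j m) ≠ 0) (l : Fin 10) :
    aeval (cellCoord z i j m) (uC k i j m l) = cellE z i j m l := by
  unfold uC
  split_ifs with h1 h2
  · simp [cellCoord]
  · rw [h2, cellE_left hc, map_one]
  · have : l = j := by
      by_contra h3
      exact h1 ⟨h2, h3⟩
    rw [this, cellE_right h, map_zero]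

theorem aeval_vC (h : Rel z) (hc : z (cellIdx i j m) ≠ 0) (l : Fin 10) :
    aeval (cellCoord z i j m) (vC k i j m l) = cellE' z i j m l := by
  unfold vC
  split_ifs with h1 h2
  · simp [cellCoord]
  · rw [h2, cellE'_right hc, map_one]
  · have : l = i := by
      by_contra h3
      exact h1 ⟨h3, h2⟩
    rw [this, cellE'_left h, map_zero]

theorem aeval_cC (hc : z (cellIdx i j m) ≠ 0) (m' : Fin 4) :
    aeval (cellCoord z i j m) (cC k i j m m') = cellG z i j m m' := by
  unfold cC
  split_ifs with h1
  · simp [cellCoord]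
  · push Not at h1
    rw [h1, cellG_self hc, map_one]

/-- The cell formula: `z_I / z_c` is a polynomial in the coordinates of the cell `c`. -/
theorem aeval_zC (h : Rel z) (hc : z (cellIdx i j m) ≠ 0) (I : Idx) :
    aeval (cellCoord z i j m) (zC k i j m I) = z I / z (cellIdx i j m) := by
  rw [cell_formula h hc I, mul_div_cancel_left₀ _ hc]
  change (aeval (cellCoord z i j m)).toRingHom (zfun _ _ _ I) = _
  rw [map_zfun]
  congr 1
  · funext l; exact aeval_uC k h hc l
  · funext l; exact aeval_vC k h hc l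
  · funext l; exact aeval_cC k hc l

/-- Change of cells. -/
theorem cellCoord_trans (h : Rel z) (hc : z (cellIdx i j m) ≠ 0) {i' j' : Fin 10} {m' : Fin 4}
    (x : CellVar i' j' m') : cellCoord z i' j' m' x =
      aeval (cellCoord z i j m) (zC k i j m (coordIdx i' j' m' x)) /
        aeval (cellCoord z i j m) (zC k i j m (cellIdx i' j' m')) := by
  rw [cellCoord_eq, aeval_zC k h hc, aeval_zC k h hc, div_div_div_cancel_right₀ hc]

end Coord

section Generic

variable {k : Type*} [Field k] {K : Type*} [Field K] [Algebra k K] {z : Idx → K}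

theorem IsGenX.rel (h : IsGenX k z) : Rel z := by
  have : z = z (cellIdx 0 1 0) • zfun (cellE z 0 1 0) (cellE' z 0 1 0) (cellG z 0 1 0) := by
    funext I
    exact h.eq I
  rw [this]
  exact (rel_zfun _ _ _).smul _

/-- A point of `X` over `k` which lies in all cells: `u = (1, 0, 1, …, 1)`, `v = (0, 1, 2, …, 9)`,
`F = (u + v)^3`. -/
def basePt (k : Type*) [Field k] : Idx → k :=
  zfun (fun l => if l = 1 then 0 else 1) (fun l => ((l : ℕ) : k)) (fun _ => 1)

private theorem cells_w [CharZero k] (l : Fin 10) :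
    (if l = 1 then (0 : k) else 1) + ((l : ℕ) : k) ≠ 0 := by
  by_cases h : l = 1
  · simp [h]
  · rw [if_neg h, add_comm]
    exact Nat.cast_add_one_ne_zero _

private theorem cells_cub (a b d : Fin 10) :
    cub (fun l : Fin 10 => if l = 1 then (0 : k) else 1) (fun l => ((l : ℕ) : k)) (fun _ => 1)
      a b d = ((if a = 1 then (0 : k) else 1) + ((a : ℕ) : k)) *
        ((if b = 1 then (0 : k) else 1) + ((b : ℕ) : k)) *
        ((if d = 1 then (0 : k) else 1) + ((d : ℕ) : k)) := by
  simp only [cub]
  ring

private theorem cells_plu [CharZero k] {i j : Fin 10} (hij : i ≠ j) :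
    plu (fun l : Fin 10 => if l = 1 then (0 : k) else 1) (fun l => ((l : ℕ) : k)) i j ≠ 0 := by
  simp only [plu]
  by_cases h1 : i = 1
  · have h2 : j ≠ 1 := fun h => hij (h1.trans h.symm)
    rw [if_pos h1, if_neg h2, h1]
    simp
  · rw [if_neg h1]
    by_cases h2 : j = 1
    · rw [if_pos h2, h2]
      simp
    · rw [if_neg h2, one_mul, one_mul, sub_ne_zero]
      intro h
      exact hij (Fin.ext (Nat.cast_injective h).symm)

/-- `F_abd = w_a w_b w_d` with `w = u + v`, `w_l = l + 1` (`l ≠ 1`), `w_1 = 1`; `P_ij = j - i` for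
`i, j ≠ 1`, `P_i1 = 1 = - P_1i` for `i ≠ 1`. -/
theorem basePt_cell [CharZero k] {i j : Fin 10} (hij : i ≠ j) (m : Fin 4) :
    basePt k (cellIdx i j m) ≠ 0 := by
  simp only [basePt, zfun, cellIdx]
  rw [cells_cub]
  exact mul_ne_zero (mul_ne_zero (mul_ne_zero (cells_w _) (cells_w _)) (cells_w _))
    (cells_plu hij)

/-- All cell coordinates are nonzero at the generic point: `z_c / z_{c0}` is the polynomial
`zC k 0 1 0 c` in the algebraically independent coordinates of the main cell (`aeval_zC`), and this
polynomial is not zero: its value at the coordinates of `basePt` is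
`basePt c / basePt c0 ≠ 0` (`aeval_zC` for `basePt`). -/
theorem IsGenX.cell_ne [CharZero k] (h : IsGenX k z) {i j : Fin 10} (hij : i ≠ j) (m : Fin 4) :
    z (cellIdx i j m) ≠ 0 := by
  intro h0
  have h1 := aeval_zC k h.rel h.ne (cellIdx i j m)
  rw [h0, zero_div] at h1
  have h2 : zC k 0 1 0 (cellIdx i j m) = 0 := by
    have h3 : Function.Injective (aeval (cellCoord z 0 1 0) :
      MvPolynomial (CellVar 0 1 0) k →ₐ[k] K) := h.indep
    exact h3 (h1.trans (map_zero _).symm)
  have h01 : (0 : Fin 10) ≠ 1 := by decide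
  have h4 := aeval_zC (z := basePt k) (i := 0) (j := 1) (m := 0) k (rel_zfun _ _ _)
    (basePt_cell h01 0) (cellIdx i j m)
  rw [h2, map_zero] at h4
  exact div_ne_zero (basePt_cell hij m) (basePt_cell h01 0) h4.symm

private theorem cells_mem {σ : Type*} (f : σ → K) (p : MvPolynomial σ k) :
    aeval f p ∈ IntermediateField.adjoin k (Set.range f) := by
  apply IntermediateField.algebra_adjoin_le_adjoin
  rw [Algebra.adjoin_range_eq_range_aeval]
  exact ⟨p, rfl⟩

/-- The coordinates of every cell generate the function field (`cellCoord_trans`). -/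
theorem IsGenX.gen_cell [CharZero k] (h : IsGenX k z) {i j : Fin 10} (hij : i ≠ j) (m : Fin 4) :
    IntermediateField.adjoin k (Set.range (cellCoord z i j m)) = ⊤ := by
  rw [eq_top_iff, ← h.gen, IntermediateField.adjoin_le_iff]
  rintro _ ⟨x, rfl⟩
  rw [cellCoord_trans k h.rel (h.cell_ne hij m) x]
  exact div_mem (cells_mem _ _) (cells_mem _ _)

private theorem cells_card8 (i j : Fin 10) (hij : i ≠ j) :
    Fintype.card {l : Fin 10 // l ≠ i ∧ l ≠ j} = 8 := by
  rw [Fintype.card_subtype]
  have e : (Finset.univ.filter fun l : Fin 10 => l ≠ i ∧ l ≠ j) =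
      (Finset.univ.erase i).erase j := by
    ext l
    simp [and_comm]
  rw [e, Finset.card_erase_of_mem, Finset.card_erase_of_mem (Finset.mem_univ i),
    Finset.card_univ, Fintype.card_fin]
  exact Finset.mem_erase.mpr ⟨hij.symm, Finset.mem_univ j⟩

theorem card_cellVar {i j : Fin 10} (hij : i ≠ j) (m : Fin 4) :
    Fintype.card (CellVar i j m) = 19 := by
  have h3 : Fintype.card {m' : Fin 4 // m' ≠ m} = 3 := by
    rw [Fintype.card_subtype]
    have e : (Finset.univ.filter fun l : Fin 4 => l ≠ m) = Finset.univ.erase m := by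
      ext l
      simp
    rw [e, Finset.card_erase_of_mem (Finset.mem_univ m), Finset.card_univ, Fintype.card_fin]
  rw [Fintype.card_sum, Fintype.card_sum, cells_card8 i j hij, h3]

private theorem cells_alg {σ : Type*} (f : σ → K)
    (h : IntermediateField.adjoin k (Set.range f) = ⊤) :
    Algebra.IsAlgebraic (Algebra.adjoin k (Set.range f)) K := by
  refine ⟨fun x => ?_⟩
  have hx : x ∈ IntermediateField.adjoin k (Set.range f) := by
    rw [h]
    exact IntermediateField.mem_top
  obtain ⟨r, hr, s, hs, rfl⟩ := IntermediateField.mem_adjoin_iff_div.mp hx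
  rw [div_eq_mul_inv]
  exact (isAlgebraic_algebraMap (⟨r, hr⟩ : Algebra.adjoin k (Set.range f))).mul
    (isAlgebraic_algebraMap (⟨s, hs⟩ : Algebra.adjoin k (Set.range f))).inv

/-- The transcendence degree is `19`. -/
theorem IsGenX.trdeg (h : IsGenX k z) : Algebra.trdeg k K = 19 := by
  have hb : IsTranscendenceBasis k (cellCoord z 0 1 0) :=
    isTranscendenceBasis_iff_algebraicIndependent_isAlgebraic.mpr ⟨h.indep, cells_alg _ h.gen⟩
  have h1 := hb.lift_cardinalMk_eq_trdeg
  rw [Cardinal.mk_fintype, card_cellVar (by decide) 0] at h1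
  rw [← Cardinal.lift_inj, ← h1]
  simp

/-- The `19` coordinates of every cell generate a field of transcendence degree `19`, so they are
algebraically independent (`isTranscendenceBasis_of_lift_le_trdeg_of_finite`). -/
theorem IsGenX.indep_cell [CharZero k] (h : IsGenX k z) {i j : Fin 10} (hij : i ≠ j) (m : Fin 4) :
    AlgebraicIndependent k (cellCoord z i j m) := by
  have := cells_alg (cellCoord z i j m) (h.gen_cell hij m)
  refine (Algebra.IsAlgebraic.isTranscendenceBasis_of_lift_le_trdeg_of_finite k
    (cellCoord z i j m) ?_).1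
  rw [h.trdeg, Cardinal.mk_fintype, card_cellVar hij m]
  simp

end Generic

end MP9a7843
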