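import Pool.Agent.Lib.MP_9a7843_ag_A.XDef
import Pool.Agent.Lib.MP_9a7843_ag_X.Cells

/-!
# MP_9a7843_ag, block X, module Pts: points of `X` with values in a field
-/

noncomputable section

open MvPolynomial

open Pool.Agent.MP9a7843 Pool.Agent.MP9a7843.ProjVar

namespace MP9a7843

universe u

variable {k : Type u} [Field k]

private theorem xU_zero : xU k 0 = 1 := by simp [xU]

private theorem xU_one : xU k 1 = 0 := by simp [xU]

private theorem xV_zero : xV k 0 = 0 := by simp [xV]

private theorem xV_one : xV k 1 = 1 := by simp [xV]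

private theorem xC_zero : xC k 0 = 1 := by simp [xC]

private theorem xz_cubIdx (m : Fin 4) (P : Fin 10 × Fin 10) :
    (XX k).z (cubIdx 0 1 m, P) = xC k m * plu (xU k) (xV k) P.1 P.2 := by
  change zfun (xU k) (xV k) (xC k) (cubIdx 0 1 m, P) = _
  simp only [zfun]
  rw [cub_cubIdx xU_zero xU_one xV_zero xV_one]

private theorem xz_c : (XX k).z (cellIdx 0 1 0) = 1 := xz_ne k

theorem xz_cellE (l : Fin 10) : cellE (XX k).z 0 1 0 l = xU k l := by
  simp only [cellE]
  rw [xz_c, div_one, xz_cubIdx, xC_zero, one_mul]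
  simp [plu, xU_one, xV_one]

theorem xz_cellE' (l : Fin 10) : cellE' (XX k).z 0 1 0 l = xV k l := by
  simp only [cellE']
  rw [xz_c, div_one, xz_cubIdx, xC_zero, one_mul]
  simp [plu, xU_zero, xV_zero]

theorem xz_cellG (m : Fin 4) : cellG (XX k).z 0 1 0 m = xC k m := by
  simp only [cellG]
  rw [xz_c, div_one, xz_cubIdx]
  simp [plu, xU_zero, xV_zero, xU_one, xV_one]

theorem xz_cellCoord (s : CellVar 0 1 0) : cellCoord (XX k).z 0 1 0 s = xv k s := by
  rcases s with s | s | s
  · simp only [cellCoord, Sum.elim_inl]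
    rw [xz_cellE, xU, dif_pos s.2]
  · simp only [cellCoord, Sum.elim_inl, Sum.elim_inr]
    rw [xz_cellE', xV, dif_pos s.2]
  · simp only [cellCoord, Sum.elim_inr]
    rw [xz_cellG, xC, dif_pos s.2]

private theorem cellCoord_XX : cellCoord (XX k).z 0 1 0 = xv k := funext xz_cellCoord

private theorem xv_indep : AlgebraicIndependent k (xv k) := by
  have h1 : AlgebraicIndependent k (X : CellVar 0 1 0 → MvPolynomial (CellVar 0 1 0) k) :=
    MvPolynomial.algebraicIndependent_X _ _
  have h2 := h1.map' (f := IsScalarTower.toAlgHom k (MvPolynomial (CellVar 0 1 0) k) (KX k))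
    (IsFractionRing.injective (MvPolynomial (CellVar 0 1 0) k) (KX k))
  exact h2

private theorem xv_gen : IntermediateField.adjoin k (Set.range (xv k)) = ⊤ := by
  refine eq_top_iff.2 fun y _ => ?_
  obtain ⟨a, b, hb, rfl⟩ := IsFractionRing.div_surjective
    (A := MvPolynomial (CellVar 0 1 0) k) y
  have key : ∀ a : MvPolynomial (CellVar 0 1 0) k,
      algebraMap (MvPolynomial (CellVar 0 1 0) k) (KX k) a ∈
        IntermediateField.adjoin k (Set.range (xv k)) := by
    intro a
    have h3 : algebraMap (MvPolynomial (CellVar 0 1 0) k) (KX k) a = aeval (xv k) a := by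
      have h4 : (IsScalarTower.toAlgHom k (MvPolynomial (CellVar 0 1 0) k) (KX k)) =
          aeval (xv k) := by
        ext s
        simp [xv]
      exact DFunLike.congr_fun h4 a
    rw [h3]
    have h5 : Algebra.adjoin k (Set.range (xv k)) ≤
        (IntermediateField.adjoin k (Set.range (xv k))).toSubalgebra :=
      IntermediateField.algebra_adjoin_le_adjoin _ _
    refine h5 ?_
    rw [Algebra.adjoin_range_eq_range_aeval]
    exact ⟨a, rfl⟩
  exact div_mem (key a) (key b)

theorem isGenX_XX : IsGenX k (XX k).z := by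
  refine ⟨?_, ?_, ?_, ?_⟩
  · rw [xz_c]; exact one_ne_zero
  · rw [cellCoord_XX]
    exact xv_indep
  · rw [cellCoord_XX]
    exact xv_gen
  · intro I
    have h1 : Rel (XX k).z := rel_zfun _ _ _
    have h2 : (XX k).z (cellIdx 0 1 0) ≠ 0 := by rw [xz_c]; exact one_ne_zero
    exact cell_formula h1 h2 I

theorem rel_XX : Rel (XX k).z := rel_zfun _ _ _

variable {F : Type u} [Field F] [Algebra k F] {c : Idx → F}

private theorem rel_of_forms {L : Type*} [Field L] [Algebra k L] {z : Idx → L} (hz : Rel z)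
    (h : ∀ (d : ℕ) (G : MvPolynomial Idx k), G.IsHomogeneous d → aeval z G = 0 →
      aeval c G = 0) : Rel c := by
  have hX : ∀ I : Idx, (X I : MvPolynomial Idx k).IsHomogeneous 1 := fun I => isHomogeneous_X k I
  have hXX : ∀ I J : Idx, (X I * X J : MvPolynomial Idx k).IsHomogeneous 2 :=
    fun I J => (hX I).mul (hX J)
  refine ⟨?_, ?_, ?_, ?_, ?_, ?_, ?_⟩
  · intro a b d P
    have := h 1 (X ((a, b, d), P) - X ((b, a, d), P)) ((hX _).sub (hX _))
      (by simp only [map_sub, aeval_X]; rw [hz.sym1, sub_self])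
    simp only [map_sub, aeval_X] at this
    exact sub_eq_zero.1 this
  · intro a b d P
    have := h 1 (X ((a, b, d), P) - X ((a, d, b), P)) ((hX _).sub (hX _))
      (by simp only [map_sub, aeval_X]; rw [hz.sym2, sub_self])
    simp only [map_sub, aeval_X] at this
    exact sub_eq_zero.1 this
  · intro A d e
    have := h 1 (X (A, (d, e)) + X (A, (e, d))) ((hX _).add (hX _))
      (by simp only [map_add, aeval_X]; rw [hz.alt, neg_add_cancel])
    simp only [map_add, aeval_X] at this
    exact eq_neg_of_add_eq_zero_left this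
  · intro A d
    have := h 1 (X (A, (d, d))) (hX _) (by simp only [aeval_X]; rw [hz.alt0])
    simpa only [aeval_X] using this
  · intro A A' P P'
    have := h 2 (X (A, P) * X (A', P') - X (A, P') * X (A', P)) ((hXX _ _).sub (hXX _ _))
      (by simp only [map_sub, map_mul, aeval_X]; rw [hz.segre, sub_self])
    simp only [map_sub, map_mul, aeval_X] at this
    exact sub_eq_zero.1 this
  · intro a b d i j A
    have := h 2 (X ((a, b, d), (i, j)) * X (A, (i, j)) -
      (X ((i, b, d), (i, j)) * X (A, (a, j)) + X ((j, b, d), (i, j)) * X (A, (i, a))))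
      ((hXX _ _).sub ((hXX _ _).add (hXX _ _)))
      (by simp only [map_sub, map_add, map_mul, aeval_X]; rw [hz.inc, sub_self])
    simp only [map_sub, map_add, map_mul, aeval_X] at this
    exact sub_eq_zero.1 this
  · intro A A' a b i j
    have := h 2 (X (A, (a, b)) * X (A', (i, j)) -
      (X (A, (a, j)) * X (A', (i, b)) - X (A, (b, j)) * X (A', (i, a))))
      ((hXX _ _).sub ((hXX _ _).sub (hXX _ _)))
      (by simp only [map_sub, map_mul, aeval_X]; rw [hz.plu, sub_self])
    simp only [map_sub, map_mul, aeval_X] at this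
    exact sub_eq_zero.1 this

/-- Each of the relations `Rel` is a form of degree `1` or `2` with coefficients in `k`. -/
theorem rel_of_isPt (h : (XX k).IsPt c) : Rel c :=
  rel_of_forms (z := (XX k).z) rel_XX fun d G h1 h2 => h.2 d G h1 h2

private theorem aeval_smul_form {L : Type*} [Field L] [Algebra k L] (w : Idx → L) (r : L)
    {d : ℕ} {G : MvPolynomial Idx k} (hG : G.IsHomogeneous d) :
    aeval (r • w) G = r ^ d * aeval w G := by
  rw [aeval_def, aeval_def, eval₂_eq', eval₂_eq', Finset.mul_sum]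
  refine Finset.sum_congr rfl fun s hs => ?_
  have h1 : ∑ I, s I = d := by
    have := hG (mem_support_iff.1 hs)
    rw [Finsupp.weight_apply, Finsupp.sum_fintype _ _ (by simp)] at this
    simpa using this
  simp only [Pi.smul_apply, smul_eq_mul, mul_pow]
  rw [Finset.prod_mul_distrib, Finset.prod_pow_eq_pow_sum, h1]
  ring

/-- The value of a form of degree `d` at `z` in terms of its value at the tuple `zC` of the cell. -/
private theorem aeval_form {L : Type*} [Field L] [Algebra k L] {z : Idx → L} (h : Rel z)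
    {i j : Fin 10} {m : Fin 4} (hc : z (cellIdx i j m) ≠ 0) {d : ℕ} {G : MvPolynomial Idx k}
    (hG : G.IsHomogeneous d) : aeval z G = z (cellIdx i j m) ^ d *
      aeval (cellCoord z i j m) (aeval (zC k i j m) G) := by
  have h1 : z = z (cellIdx i j m) • fun I => aeval (cellCoord z i j m) (zC k i j m I) := by
    funext I
    simp only [Pi.smul_apply, smul_eq_mul]
    rw [aeval_zC k h hc, mul_div_cancel₀ _ hc]
  have h2 : aeval (cellCoord z i j m) (aeval (zC k i j m) G) =
      aeval (fun I => aeval (cellCoord z i j m) (zC k i j m I)) G := by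
    rw [← AlgHom.comp_apply]
    congr 1
    ext I
    simp
  rw [h2, ← aeval_smul_form _ _ hG, ← h1]

private theorem forms_of_rel {L : Type*} [Field L] [Algebra k L] {z : Idx → L} (hz : Rel z)
    (h : Rel c) {i j : Fin 10} {m : Fin 4} (hzc : z (cellIdx i j m) ≠ 0)
    (hc : c (cellIdx i j m) ≠ 0) (hi : AlgebraicIndependent k (cellCoord z i j m)) (d : ℕ)
    (G : MvPolynomial Idx k) (hG : G.IsHomogeneous d) (hz0 : aeval z G = 0) :
    aeval c G = 0 := by
  rw [aeval_form hz hzc hG] at hz0
  have h1 : aeval (cellCoord z i j m) (aeval (zC k i j m) G) = 0 :=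
    (mul_eq_zero.1 hz0).resolve_left (pow_ne_zero _ hzc)
  have h2 : aeval (zC k i j m) G = 0 := hi.eq_zero_of_aeval_eq_zero _ h1
  rw [aeval_form h hc hG, h2, map_zero, mul_zero]

/-- If `G(z) = 0` for a form `G` of degree `d`, then
`0 = G(z) = z_c^d * aeval (cellCoord z i j m) (G(zC))` for every cell `(i, j, m)` (`aeval_zC`), so
`G(zC k i j m) = 0` (`indep_cell`), and for the cell of `c`:
`G(c) = c_c^d * aeval (cellCoord c) (G(zC)) = 0`. -/
theorem isPt_of_rel [CharZero k] (h : Rel c) (h0 : ∃ I, c I ≠ 0) : (XX k).IsPt c := by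
  obtain ⟨i, j, m, hc⟩ := exists_cell h (fun h' => by
    obtain ⟨I, hI⟩ := h0
    exact hI (congrFun h' I))
  have hij : i ≠ j := ne_of_cell h hc
  exact ⟨h0, fun d G hG hz => forms_of_rel (z := (XX k).z) rel_XX h
    (isGenX_XX.cell_ne hij m) hc (isGenX_XX.indep_cell hij m) d G hG hz⟩

theorem isPt_XX_iff [CharZero k] : (XX k).IsPt c ↔ (∃ I, c I ≠ 0) ∧ Rel c :=
  ⟨fun h => ⟨h.1, rel_of_isPt h⟩, fun h => isPt_of_rel h.2 h.1⟩

theorem isPt_XX_iff_onX [CharZero k] : (XX k).IsPt c ↔ OnX c := by
  rw [isPt_XX_iff, onX_iff_rel, Function.ne_iff]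
  rfl

theorem isPt_zfun [CharZero k] {u v : Fin 10 → F} {a : Fin 4 → F} (h : ∃ I, zfun u v a I ≠ 0) :
    (XX k).IsPt (zfun u v a) :=
  isPt_of_rel (rel_zfun u v a) h

/-- Every point has a cell. -/
theorem exists_cell_pt (h : (XX k).IsPt c) : ∃ (i j : Fin 10) (m : Fin 4), i ≠ j ∧
    c (cellIdx i j m) ≠ 0 := by
  obtain ⟨i, j, m, hc⟩ := exists_cell (rel_of_isPt h) (fun h' => by
    obtain ⟨I, hI⟩ := h.1
    exact hI (congrFun h' I))
  exact ⟨i, j, m, ne_of_cell (rel_of_isPt h) hc, hc⟩

end MP9a7843
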