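import Pool.Agent.Lib.MP_9a7843_ag.Div
import Pool.Agent.Lib.MP_9a7843_ag_X.Pts

/-!
# MP_9a7843_ag, block X, module Dv: the divisors `ξ` and `H` on `X`
-/

noncomputable section

open MvPolynomial

open Pool.Agent.MP9a7843 Pool.Agent.MP9a7843.ProjVar

namespace MP9a7843

universe u

variable {k : Type u} [Field k]

/-- An index of a nonzero coordinate. -/
def ixOf (y : Idx → k) : Idx := Classical.epsilon fun I => y I ≠ 0

theorem ixOf_ne {y : Idx → k} (h : ∃ I, y I ≠ 0) : y (ixOf y) ≠ 0 := Classical.epsilon_spec h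

private theorem dv_c : (XX k).z ((0, 0, 0), (0, 1)) = 1 := xz_ne k

private theorem dv_seg (A : Fin 10 × Fin 10 × Fin 10) (P : Fin 10 × Fin 10) :
    (XX k).z (A, P) = (XX k).z (A, (0, 1)) * (XX k).z ((0, 0, 0), P) := by
  have h := (rel_XX (k := k)).segre A (0, 0, 0) P (0, 1)
  rw [dv_c, mul_one] at h
  exact h

/-- All coordinates `z((0,0,0), P)` and `z(A, (0,1))` with `z(A, P) ≠ 0` are nonzero:
`z((0,0,0), P) z(A, (0,1)) = z(A, P) z((0,0,0), (0,1))` and the last factor is `1`. -/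
theorem z_xi_ne {A : Fin 10 × Fin 10 × Fin 10} {P : Fin 10 × Fin 10} (h : (XX k).z (A, P) ≠ 0) :
    (XX k).z ((0, 0, 0), P) ≠ 0 ∧ (XX k).z (A, (0, 1)) ≠ 0 := by
  rw [dv_seg A P] at h
  exact ⟨right_ne_zero_of_mul h, left_ne_zero_of_mul h⟩

private theorem xi_mem {y : Idx → k} (hy : (XX k).IsPt y) {I J : Idx} (hJ : y J ≠ 0)
    (hI : (XX k).z I ≠ 0) : ((XX k).z ((0, 0, 0), J.2) / (XX k).z J) /
      ((XX k).z ((0, 0, 0), I.2) / (XX k).z I) ∈ (XX k).loc y := by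
  obtain ⟨A, P⟩ := I
  obtain ⟨A', P'⟩ := J
  have hzJ : (XX k).z (A', P') ≠ 0 := z_ne_zero hy hJ
  have h := coord_div_mem (Y := XX k) (c := y) (A, P') hJ
  obtain ⟨h1, h2⟩ := z_xi_ne hI
  obtain ⟨h3, h4⟩ := z_xi_ne hzJ
  convert h using 1
  rw [dv_seg A' P', dv_seg A P, dv_seg A P']
  field_simp

private theorem et_mem {y : Idx → k} (hy : (XX k).IsPt y) {I J : Idx} (hJ : y J ≠ 0)
    (hI : (XX k).z I ≠ 0) : ((XX k).z (J.1, (0, 1)) / (XX k).z J) /
      ((XX k).z (I.1, (0, 1)) / (XX k).z I) ∈ (XX k).loc y := by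
  obtain ⟨A, P⟩ := I
  obtain ⟨A', P'⟩ := J
  have hzJ : (XX k).z (A', P') ≠ 0 := z_ne_zero hy hJ
  have h := coord_div_mem (Y := XX k) (c := y) (A', P) hJ
  obtain ⟨h1, h2⟩ := z_xi_ne hI
  obtain ⟨h3, h4⟩ := z_xi_ne hzJ
  convert h using 1
  rw [dv_seg A' P', dv_seg A P, dv_seg A' P]
  field_simp

private theorem ix_z {y : Idx → k} (hy : (XX k).IsPt y) : (XX k).z (ixOf (k := k) y) ≠ 0 :=
  z_ne_zero hy (ixOf_ne hy.1)

/-- The divisor `ξ`: the pull-back of the coordinate hyperplane `F_000 = 0` of `P(S^3 V)`. -/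
def XiDiv (k : Type u) [Field k] : (XX k).CaDiv where
  eq y := (XX k).z ((0, 0, 0), (ixOf (k := k) y).2) / (XX k).z (ixOf (k := k) y)
  eq_ne_zero := by
    intro y hy
    exact div_ne_zero (z_xi_ne (A := (ixOf (k := k) y).1) (P := (ixOf (k := k) y).2)
      (ix_z hy)).1 (ix_z hy)
  locally := by
    intro y hy
    refine ⟨1, X (ixOf (k := k) y), isHomogeneous_X _ _, ?_, ?_⟩
    · rw [aeval_X]
      exact ixOf_ne hy.1
    · intro y' hy' h
      rw [aeval_X] at h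
      exact ⟨xi_mem hy' (ixOf_ne hy'.1) (z_ne_zero hy' h), xi_mem hy' h (ix_z hy')⟩

/-- The divisor `H`: the pull-back of the coordinate hyperplane `P_01 = 0` of `P(Λ^2 V)`. -/
def HDiv (k : Type u) [Field k] : (XX k).CaDiv where
  eq y := (XX k).z ((ixOf (k := k) y).1, (0, 1)) / (XX k).z (ixOf (k := k) y)
  eq_ne_zero := by
    intro y hy
    exact div_ne_zero (z_xi_ne (A := (ixOf (k := k) y).1) (P := (ixOf (k := k) y).2)
      (ix_z hy)).2 (ix_z hy)
  locally := by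
    intro y hy
    refine ⟨1, X (ixOf (k := k) y), isHomogeneous_X _ _, ?_, ?_⟩
    · rw [aeval_X]
      exact ixOf_ne hy.1
    · intro y' hy' h
      rw [aeval_X] at h
      exact ⟨et_mem hy' (ixOf_ne hy'.1) (z_ne_zero hy' h), et_mem hy' h (ix_z hy')⟩

/-- The local equation of `ξ` in terms of any nonzero coordinate
(`z(A, P') / z(A', P') = z(A, P) / z(A', P)`). -/
theorem XiDiv_unit {y : Idx → k} (hy : (XX k).IsPt y) {I : Idx} (hI : y I ≠ 0) :
    (XX k).UnitAt y ((XiDiv k).eq y / ((XX k).z ((0, 0, 0), I.2) / (XX k).z I)) := by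
  refine ⟨xi_mem hy (ixOf_ne hy.1) (z_ne_zero hy hI), ?_⟩
  rw [inv_div]
  exact xi_mem hy hI (ix_z hy)

/-- The local equation of `H` in terms of any nonzero coordinate. -/
theorem HDiv_unit {y : Idx → k} (hy : (XX k).IsPt y) {I : Idx} (hI : y I ≠ 0) :
    (XX k).UnitAt y ((HDiv k).eq y / ((XX k).z (I.1, (0, 1)) / (XX k).z I)) := by
  refine ⟨et_mem hy (ixOf_ne hy.1) (z_ne_zero hy hI), ?_⟩
  rw [inv_div]
  exact et_mem hy hI (ix_z hy)

theorem XiDiv_effective : (XiDiv k).Effective :=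
  fun y hy => coord_div_mem (Y := XX k) (c := y) ((0, 0, 0), (ixOf (k := k) y).2) (ixOf_ne hy.1)

theorem HDiv_effective : (HDiv k).Effective :=
  fun y hy => coord_div_mem (Y := XX k) (c := y) ((ixOf (k := k) y).1, (0, 1)) (ixOf_ne hy.1)

/-- The hyperplane class is `ξ + H`. -/
theorem hyperplane_XX : ∃ φ : (XX k).K, φ ≠ 0 ∧ ∀ y : Idx → k, (XX k).IsPt y →
    (XX k).UnitAt y ((XX k).hyperplane.eq y / ((XiDiv k).eq y * (HDiv k).eq y * φ)) := by
  refine ⟨(XX k).z (Classical.epsilon fun i => (XX k).z i ≠ 0),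
    Classical.epsilon_spec (XX k).exists_ne_zero, fun y hy => ?_⟩
  have h0 : (XX k).z (Classical.epsilon fun i => (XX k).z i ≠ 0) ≠ 0 :=
    Classical.epsilon_spec (XX k).exists_ne_zero
  have hz := ix_z hy
  obtain ⟨h1, h2⟩ := z_xi_ne (A := (ixOf (k := k) y).1) (P := (ixOf (k := k) y).2) hz
  have h3 := dv_seg (k := k) (ixOf (k := k) y).1 (ixOf (k := k) y).2
  have h4 : (XX k).hyperplane.eq y / ((XiDiv k).eq y * (HDiv k).eq y *
      (XX k).z (Classical.epsilon fun i => (XX k).z i ≠ 0)) = 1 := by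
    change ((XX k).z (Classical.epsilon fun i => (XX k).z i ≠ 0) / (XX k).z (ixOf (k := k) y)) /
      ((XX k).z ((0, 0, 0), (ixOf (k := k) y).2) / (XX k).z (ixOf (k := k) y) *
        ((XX k).z ((ixOf (k := k) y).1, (0, 1)) / (XX k).z (ixOf (k := k) y)) *
        (XX k).z (Classical.epsilon fun i => (XX k).z i ≠ 0)) = 1
    change (XX k).z (ixOf (k := k) y) = _ at h3
    generalize (XX k).z (Classical.epsilon fun i => (XX k).z i ≠ 0) = e at *
    rw [h3]
    field_simp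
  rw [h4]
  exact unitAt_one

end MP9a7843
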