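import Pool.Agent.Lib.MP_9a7843_ag.Cyc
import Pool.Agent.Lib.MP_9a7843_ag.P1
import Pool.Agent.Lib.MP_9a7843_ag_X.Dv

/-!
# MP_9a7843_ag, block X, module Dg: degrees of `ξ` and `H` on curves
-/

noncomputable section

open MvPolynomial

open Pool.Agent.MP9a7843 Pool.Agent.MP9a7843.ProjVar

namespace MP9a7843

universe u

variable {k : Type u} [Field k] [IsAlgClosed k] [CharZero k] {F : Type u} [Field F] [Algebra k F]
  {c : Idx → F}

private theorem dg_c : (XX k).z ((0, 0, 0), (0, 1)) = 1 := xz_ne k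

private theorem dg_seg (A : Fin 10 × Fin 10 × Fin 10) (P : Fin 10 × Fin 10) :
    (XX k).z (A, P) = (XX k).z (A, (0, 1)) * (XX k).z ((0, 0, 0), P) := by
  have h := (rel_XX (k := k)).segre A (0, 0, 0) P (0, 1)
  rw [dg_c, mul_one] at h
  exact h

/-- If all quotients by the coordinate `J` are regular at `c` and some coordinate `I` is nonzero at
`c`, then the coordinate `J` is nonzero at `c`. -/
private theorem dg_ne (hc : (XX k).IsPt c) {I J : Idx} (hI : c I ≠ 0)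
    (hJ : (XX k).z J ≠ 0) (h : (XX k).z I / (XX k).z J ∈ (XX k).loc c) : c J ≠ 0 := by
  have hz : (XX k).z I ≠ 0 := z_ne_zero hc hI
  have h1 : (XX k).z J / (XX k).z I ∈ (XX k).loc c := coord_div_mem (Y := XX k) (c := c) J hI
  have h2 := ev_mul hc h h1
  have h3 : (XX k).z I / (XX k).z J * ((XX k).z J / (XX k).z I) = 1 := by
    field_simp
  rw [h3, ev_one hc, ev_coord_div hc J hI] at h2
  intro h0
  rw [h0, zero_div, mul_zero] at h2
  exact one_ne_zero h2

private theorem dg_val (hc : (XX k).IsPt c) {I J : Idx} (hJ : c J ≠ 0) :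
    c I = (XX k).ev c ((XX k).z I / (XX k).z J) * c J := by
  rw [ev_coord_div hc I hJ, div_mul_cancel₀ _ hJ]

/-- The degree of `ξ` is the height of the `F`-part. `deg_eq_minOrd` with `w A = z (A, P)`,
`φ = z ((0,0,0), P)`, `γ A = c (A, P)`. For a closed point `y` use the index `A' = (ixOf y).1`:
`w A / w A' = z (A, P') / z (A', P')` with `P' = (ixOf y).2` (Segre relation), and
`XiDiv.eq y * w A' / φ = 1`. For the last condition: if all `w A / w A'` are in `loc c` then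
`c (A', P) ≠ 0` (otherwise the inverse of `w A / w A'`, with `c (A, P) ≠ 0`, has value `0`). -/
theorem deg_Xi (hF : IsCurveField k F) (hc : (XX k).IsPt c) {P : Fin 10 × Fin 10}
    (hP : ∃ A, c (A, P) ≠ 0) : (XX k).deg c (XiDiv k) =
      ∑ᶠ v : Place k F, -v.minOrd (fun A : Fin 10 × Fin 10 × Fin 10 => c (A, P)) := by
  obtain ⟨A₀, hA₀⟩ := hP
  have hφ : (XX k).z ((0, 0, 0), P) ≠ 0 := (z_xi_ne (z_ne_zero hc hA₀)).1
  refine deg_eq_minOrd hF hc (XiDiv k) (fun A : Fin 10 × Fin 10 × Fin 10 => (XX k).z (A, P)) hφ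
    ?_ _ ⟨A₀, hA₀⟩ ?_
  · intro y hy
    have hyJ := ixOf_ne hy.1
    have hz : (XX k).z (ixOf (k := k) y) ≠ 0 := z_ne_zero hy hyJ
    obtain ⟨A', P', e⟩ : ∃ A' P', ixOf (k := k) y = (A', P') := ⟨_, _, rfl⟩
    have heq : (XiDiv k).eq y = (XX k).z ((0, 0, 0), P') / (XX k).z (A', P') := by
      change (XX k).z ((0, 0, 0), (ixOf (k := k) y).2) / (XX k).z (ixOf (k := k) y) = _
      rw [e]
    rw [e] at hz hyJ
    obtain ⟨h1, h2⟩ := z_xi_ne hz
    have hw : (XX k).z (A', P) ≠ 0 := by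
      rw [dg_seg]
      exact mul_ne_zero h2 hφ
    refine ⟨A', hw, fun A => ?_, ?_⟩
    · have h := coord_div_mem (Y := XX k) (c := y) (A, P') hyJ
      convert h using 1
      rw [dg_seg A P, dg_seg A' P, dg_seg A P', dg_seg A' P']
      field_simp
    · have h3 : (XiDiv k).eq y * (XX k).z (A', P) / (XX k).z ((0, 0, 0), P) = 1 := by
        rw [heq, dg_seg A' P, dg_seg A' P']
        field_simp
      rw [h3]
      exact unitAt_one
  · intro A' hA' hreg A
    exact dg_val hc (dg_ne hc hA₀ hA' (hreg A₀))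

/-- The degree of `H` is the height of the `P`-part. -/
theorem deg_H (hF : IsCurveField k F) (hc : (XX k).IsPt c) {A : Fin 10 × Fin 10 × Fin 10}
    (hA : ∃ P, c (A, P) ≠ 0) : (XX k).deg c (HDiv k) =
      ∑ᶠ v : Place k F, -v.minOrd (fun P : Fin 10 × Fin 10 => c (A, P)) := by
  obtain ⟨P₀, hP₀⟩ := hA
  have hφ : (XX k).z (A, (0, 1)) ≠ 0 := (z_xi_ne (z_ne_zero hc hP₀)).2
  refine deg_eq_minOrd hF hc (HDiv k) (fun P : Fin 10 × Fin 10 => (XX k).z (A, P)) hφ
    ?_ _ ⟨P₀, hP₀⟩ ?_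
  · intro y hy
    have hyJ := ixOf_ne hy.1
    have hz : (XX k).z (ixOf (k := k) y) ≠ 0 := z_ne_zero hy hyJ
    obtain ⟨A', P', e⟩ : ∃ A' P', ixOf (k := k) y = (A', P') := ⟨_, _, rfl⟩
    have heq : (HDiv k).eq y = (XX k).z (A', (0, 1)) / (XX k).z (A', P') := by
      change (XX k).z ((ixOf (k := k) y).1, (0, 1)) / (XX k).z (ixOf (k := k) y) = _
      rw [e]
    rw [e] at hz hyJ
    obtain ⟨h1, h2⟩ := z_xi_ne hz
    have hw : (XX k).z (A, P') ≠ 0 := by
      rw [dg_seg]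
      exact mul_ne_zero hφ h1
    refine ⟨P', hw, fun P => ?_, ?_⟩
    · have h := coord_div_mem (Y := XX k) (c := y) (A', P) hyJ
      convert h using 1
      rw [dg_seg A P, dg_seg A' P, dg_seg A P', dg_seg A' P']
      field_simp
    · have h3 : (HDiv k).eq y * (XX k).z (A, P') / (XX k).z (A, (0, 1)) = 1 := by
        rw [heq, dg_seg A P', dg_seg A' P']
        field_simp
      rw [h3]
      exact unitAt_one
  · intro P' hP' hreg P
    exact dg_val hc (dg_ne hc hP₀ hP' (hreg P₀))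

/-- Bidegree of a rational curve: `c = F ⊗ P` with `F`, `P` primitive vectors of polynomials of
degrees `e`, `h`. Choose `P_0` with `P_(P_0) ≠ 0`: `c (A, P_0) = P_(P_0) F_A` and
`finsum_minOrd_smul`. -/
theorem deg_poly {e h : ℕ} (f : Fin 10 × Fin 10 × Fin 10 → Polynomial k)
    (p : Fin 10 × Fin 10 → Polynomial k) (hf1 : ∀ A, (f A).natDegree ≤ e)
    (hf2 : ∃ A, (f A).coeff e ≠ 0) (hf3 : ∀ r : k, ∃ A, (f A).eval r ≠ 0)
    (hp1 : ∀ B, (p B).natDegree ≤ h) (hp2 : ∃ B, (p B).coeff h ≠ 0)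
    (hp3 : ∀ r : k, ∃ B, (p B).eval r ≠ 0) {c : Idx → RatFunc k} (hc : (XX k).IsPt c)
    (hfp : ∀ I, c I = algebraMap (Polynomial k) (RatFunc k) (f I.1 * p I.2)) :
    (XX k).deg c (XiDiv k) = e ∧ (XX k).deg c (HDiv k) = h := by
  obtain ⟨A₀, hA₀⟩ := hf2
  obtain ⟨P₀, hP₀⟩ := hp2
  have hfA : f A₀ ≠ 0 := by
    intro h0
    rw [h0, Polynomial.coeff_zero] at hA₀
    exact hA₀ rfl
  have hpP : p P₀ ≠ 0 := by
    intro h0
    rw [h0, Polynomial.coeff_zero] at hP₀
    exact hP₀ rfl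
  have hfA' : algebraMap (Polynomial k) (RatFunc k) (f A₀) ≠ 0 := RatFunc.algebraMap_ne_zero hfA
  have hpP' : algebraMap (Polynomial k) (RatFunc k) (p P₀) ≠ 0 := RatFunc.algebraMap_ne_zero hpP
  have hc0 : c (A₀, P₀) ≠ 0 := by
    rw [hfp, map_mul]
    exact mul_ne_zero hfA' hpP'
  constructor
  · rw [deg_Xi isCurveField_ratFunc hc ⟨A₀, hc0⟩]
    have e1 : (fun A : Fin 10 × Fin 10 × Fin 10 => c (A, P₀)) =
        algebraMap (Polynomial k) (RatFunc k) (p P₀) •
          fun A => algebraMap (Polynomial k) (RatFunc k) (f A) := by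
      funext A
      rw [hfp, map_mul, Pi.smul_apply, smul_eq_mul, mul_comm]
    rw [e1]
    exact Place.finsum_minOrd_smul f e hf1 ⟨A₀, hA₀⟩ hf3 hpP'
  · rw [deg_H isCurveField_ratFunc hc ⟨P₀, hc0⟩]
    have e1 : (fun P : Fin 10 × Fin 10 => c (A₀, P)) =
        algebraMap (Polynomial k) (RatFunc k) (f A₀) •
          fun P => algebraMap (Polynomial k) (RatFunc k) (p P) := by
      funext P
      rw [hfp, map_mul, Pi.smul_apply, smul_eq_mul]
    rw [e1]
    exact Place.finsum_minOrd_smul p h hp1 ⟨P₀, hP₀⟩ hp3 hfA'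

/-- The hyperplane class is `ξ + H` (`hyperplane_XX`, `deg_linEquiv`, `deg_add`). -/
theorem deg_hyp (hF : IsCurveField k F) (hc : (XX k).IsPt c) :
    (XX k).deg c (XX k).hyperplane = (XX k).deg c (XiDiv k) + (XX k).deg c (HDiv k) := by
  obtain ⟨φ, hφ, h⟩ := hyperplane_XX (k := k)
  rw [← deg_add hF hc]
  exact deg_linEquiv hF hc hφ h

end MP9a7843
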