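import Pool.Agent.Lib.MP_9a7843_ag_X.Cls
import Pool.Agent.Lib.MP_9a7843_ag_X.Dg

/-!
# MP_9a7843_ag, block X, module Tp: the class of a morphism `P^1 → X` from its bidegree
-/

noncomputable section

open MvPolynomial

open Pool.Agent.MP9a7843 Pool.Agent.MP9a7843.ProjVar

namespace MP9a7843

universe u

variable {k : Type u} [Field k] [IsAlgClosed k] [CharZero k]

/-- The polynomials `∑ a_(I, j) t^j` of a tuple. -/
def tupPoly {d : ℕ} (a : Idx × Fin (d + 1) → k) (I : Idx) : Polynomial k :=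
  ∑ j : Fin (d + 1), Polynomial.C (a (I, j)) * Polynomial.X ^ (j : ℕ)

omit [IsAlgClosed k] [CharZero k] in
private theorem tp_gen {d : ℕ} (a : Idx × Fin (d + 1) → k) (I : Idx) :
    (XX k).tupleGen d a I = algebraMap (Polynomial k) (RatFunc k) (tupPoly a I) := by
  have h : tupPoly a I = ∑ j : Fin (d + 1), Polynomial.C (a (I, j)) * Polynomial.X ^ (j : ℕ) :=
    rfl
  rw [h, map_sum]
  change ∑ j : Fin (d + 1), algebraMap k (RatFunc k) (a (I, j)) * RatFunc.X ^ (j : ℕ) = _
  refine Finset.sum_congr rfl fun j _ => ?_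
  rw [map_mul, map_pow, RatFunc.algebraMap_X, RatFunc.algebraMap_C]
  rfl

omit [IsAlgClosed k] [CharZero k] in
private theorem tp_eval {d : ℕ} (a : Idx × Fin (d + 1) → k) (r : k) (I : Idx) :
    (tupPoly a I).eval r = (XX k).formVal d a (r, 1) I := by
  have h : tupPoly a I = ∑ j : Fin (d + 1), Polynomial.C (a (I, j)) * Polynomial.X ^ (j : ℕ) :=
    rfl
  rw [h, Polynomial.eval_finsetSum]
  change _ = ∑ j : Fin (d + 1), a (I, j) * r ^ (j : ℕ) * 1 ^ (d - (j : ℕ))
  refine Finset.sum_congr rfl fun j _ => ?_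
  simp

/-- `tupleGen` is an `IsPt`: for a form `G` vanishing at `z` the polynomial `G(tupPoly a)` vanishes at
all `r ∈ k`, as `formVal d a (r, 1)` is a point. -/
theorem isPt_tupleGen {d : ℕ} (a : (XX k).Tuple d) : (XX k).IsPt ((XX k).tupleGen d a.1) := by
  have h1 : ∀ r : k, (XX k).IsPt ((XX k).formVal d a.1 (r, 1)) := fun r => a.2 (r, 1) (by simp)
  have h2 : (XX k).tupleGen d a.1 =
      fun I => algebraMap (Polynomial k) (RatFunc k) (tupPoly a.1 I) := by
    funext I
    exact tp_gen a.1 I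
  have h3 : ∀ r : k, (fun I => (tupPoly a.1 I).eval r) = (XX k).formVal d a.1 (r, 1) := by
    intro r
    funext I
    exact tp_eval a.1 r I
  rw [h2]
  refine ⟨?_, fun m G hG h0 => ?_⟩
  · obtain ⟨I, hI⟩ := (h1 0).1
    refine ⟨I, fun h4 => hI ?_⟩
    have h5 : tupPoly a.1 I = 0 := RatFunc.algebraMap_injective k (by rw [map_zero]; exact h4)
    rw [← tp_eval a.1 0 I, h5, Polynomial.eval_zero]
  · have h4 : aeval (fun I => tupPoly a.1 I) G = 0 := by
      refine Polynomial.funext fun r => ?_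
      rw [Polynomial.eval_zero]
      have h5 : (aeval (fun I => tupPoly a.1 I) G).eval r =
          aeval (fun I => (tupPoly a.1 I).eval r) G := by
        have h6 := MvPolynomial.map_aeval (fun I => tupPoly a.1 I) (Polynomial.evalRingHom r) G
        rw [Polynomial.coe_evalRingHom] at h6
        rw [h6, MvPolynomial.aeval_def, MvPolynomial.coe_eval₂Hom]
        congr 1
        ext c
        simp
      rw [h5, h3]
      exact (h1 r).2 m G hG h0
    have h5 := MvPolynomial.map_aeval (fun I => tupPoly a.1 I)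
      (algebraMap (Polynomial k) (RatFunc k)) G
    rw [h4, map_zero, MvPolynomial.coe_eval₂Hom,
      ← IsScalarTower.algebraMap_eq k (Polynomial k) (RatFunc k)] at h5
    rw [MvPolynomial.aeval_def]
    exact h5.symm

/-- **Class of a tuple**: if its polynomials are `f ⊗ p`, with `f`, `p` primitive of exact degrees
`e`, `h`, then the class of the morphism is `cl e h` (`deg_poly`, `deg_eq_cl`; the representative
`out` is proportional to `a`, `deg_smul`). -/
theorem cls_mk {d : ℕ} (a : (XX k).Tuple d) {e h : ℕ}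
    (f : Fin 10 × Fin 10 × Fin 10 → Polynomial k)
    (p : Fin 10 × Fin 10 → Polynomial k) (hf1 : ∀ A, (f A).natDegree ≤ e)
    (hf2 : ∃ A, (f A).coeff e ≠ 0) (hf3 : ∀ r : k, ∃ A, (f A).eval r ≠ 0)
    (hp1 : ∀ B, (p B).natDegree ≤ h) (hp2 : ∃ B, (p B).coeff h ≠ 0)
    (hp3 : ∀ r : k, ∃ B, (p B).eval r ≠ 0) (hfp : ∀ I, tupPoly a.1 I = f I.1 * p I.2) :
    Mor.cls (X := XX k) ⟨d, Quotient.mk _ a⟩ = cl k e h := by
  have hc := isPt_tupleGen a
  have h1 := deg_poly f p hf1 hf2 hf3 hp1 hp2 hp3 hc fun I => by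
    rw [tp_gen a.1 I, hfp]
  obtain ⟨b, hb⟩ : ∃ b, b = (Quotient.mk ((XX k).tupleSetoid d) a).out := ⟨_, rfl⟩
  have h2 : ((XX k).tupleSetoid d).r b a := by
    rw [hb]
    exact Quotient.mk_out a
  obtain ⟨r, hr, hba⟩ := h2
  have h3 : (XX k).tupleGen d a.1 = (algebraMap k (RatFunc k) r) • (XX k).tupleGen d b.1 := by
    funext I
    rw [hba, Pi.smul_apply, smul_eq_mul]
    change ∑ j : Fin (d + 1), algebraMap k (RatFunc k) (r • b.1 (I, j)) * RatFunc.X ^ (j : ℕ) =
      algebraMap k (RatFunc k) r *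
        ∑ j : Fin (d + 1), algebraMap k (RatFunc k) (b.1 (I, j)) * RatFunc.X ^ (j : ℕ)
    rw [Finset.mul_sum]
    refine Finset.sum_congr rfl fun j _ => ?_
    rw [smul_eq_mul, map_mul, mul_assoc]
  funext D
  change ((XX k).deg ((XX k).tupleGen d (Quotient.mk ((XX k).tupleSetoid d) a).out.1) D : ℝ) = _
  rw [← hb]
  have h4 : (XX k).deg ((XX k).tupleGen d b.1) D = (XX k).deg ((XX k).tupleGen d a.1) D := by
    rw [h3, deg_smul]
    rw [Ne, map_eq_zero]
    exact hr
  rw [h4, deg_eq_cl isCurveField_ratFunc hc D, h1.1, h1.2]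
  norm_cast

end MP9a7843
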