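import Pool.Agent.Lib.MP_9a7843_ag_X.Dv

/-!
# MP_9a7843_ag, block X, module Disc: the discriminant divisor is effective of class `4 ξ - 6 H`
-/

noncomputable section

open MvPolynomial

open Pool.Agent.MP9a7843 Pool.Agent.MP9a7843.ProjVar

namespace MP9a7843

universe u

/-- The discriminant of the cubic form `c0 X^3 + 3 c1 X^2 Y + 3 c2 X Y^2 + c3 Y^3`. -/
def disc4 {R : Type*} [CommRing R] (c0 c1 c2 c3 : R) : R :=
  (c0 * c3 - c1 * c2) ^ 2 - 4 * (c0 * c2 - c1 ^ 2) * (c1 * c3 - c2 ^ 2)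

/-- Restriction of `F` to the coordinates `i`, `j`: the discriminant is multiplied by `P_ij^6`
(polynomial identity). -/
theorem disc4_cub {R : Type*} [CommRing R] (u v : Fin 10 → R) (c : Fin 4 → R) (i j : Fin 10) :
    disc4 (cub u v c i i i) (cub u v c i i j) (cub u v c i j j) (cub u v c j j j) =
      plu u v i j ^ 6 * disc4 (c 0) (c 1) (c 2) (c 3) := by
  have hA : cub u v c i i i * cub u v c i j j - cub u v c i i j ^ 2 = plu u v i j ^ 2 *
      ((c 0 * c 2 - c 1 ^ 2) * u i ^ 2 + (c 0 * c 3 - c 1 * c 2) * (u i * v i) +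
        (c 1 * c 3 - c 2 ^ 2) * v i ^ 2) := by
    simp only [cub, plu]
    ring
  have hB : cub u v c i i i * cub u v c j j j - cub u v c i i j * cub u v c i j j =
      plu u v i j ^ 2 * (2 * (c 0 * c 2 - c 1 ^ 2) * (u i * u j) +
        (c 0 * c 3 - c 1 * c 2) * (u i * v j + v i * u j) +
        2 * (c 1 * c 3 - c 2 ^ 2) * (v i * v j)) := by
    simp only [cub, plu]
    ring
  have hC : cub u v c i i j * cub u v c j j j - cub u v c i j j ^ 2 = plu u v i j ^ 2 *
      ((c 0 * c 2 - c 1 ^ 2) * u j ^ 2 + (c 0 * c 3 - c 1 * c 2) * (u j * v j) +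
        (c 1 * c 3 - c 2 ^ 2) * v j ^ 2) := by
    simp only [cub, plu]
    ring
  simp only [disc4]
  rw [hA, hB, hC]
  simp only [plu]
  ring

private theorem disc4_div {K : Type*} [Field K] {r : K} (hr : r ≠ 0) (a b c d : K) :
    disc4 (a / r) (b / r) (c / r) (d / r) = r ^ (-4 : ℤ) * disc4 a b c d := by
  rw [zpow_neg, show ((4 : ℤ)) = ((4 : ℕ) : ℤ) from rfl, zpow_natCast]
  simp only [disc4]
  field_simp

/-- The discriminant in the cell `(i, j, m)`. -/
def discCell {K : Type*} [Field K] (z : Idx → K) (i j : Fin 10) (m : Fin 4) : K :=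
  disc4 (cellG z i j m 0) (cellG z i j m 1) (cellG z i j m 2) (cellG z i j m 3)

/-- Transformation from the main cell to the cell `(i, j, m)`: the coefficients `cellG z i j m m'`
are `F_(i^(3-m') j^m') / F_c`, where `F_c = F_(i^(3-m) j^m)` and everything is computed from the main
cell (`cell_formula`); so `disc = F_c^(-4) P_ij^6 disc_0`, where
`F_c = z(cubIdx i j m, (i, j)) / z((0,0,0), (i, j))` and `P_ij = z((0,0,0), (i, j)) / z((0,0,0), (0, 1))`. -/
theorem discCell_eq {K : Type*} [Field K] {z : Idx → K} (h : Rel z)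
    (h0 : z (cellIdx 0 1 0) ≠ 0) {i j : Fin 10} {m : Fin 4} (hc : z (cellIdx i j m) ≠ 0) :
    discCell z i j m = (z (cellIdx i j m) / z ((0, 0, 0), (i, j))) ^ (-4 : ℤ) *
      (z ((0, 0, 0), (i, j)) / z (cellIdx 0 1 0)) ^ 6 * discCell z 0 1 0 := by
  have e1 : cellE z 0 1 0 0 = 1 := cellE_left h0
  have e2 : cellE' z 0 1 0 0 = 0 := cellE'_left h
  have e3 : cellG z 0 1 0 0 = 1 := cellG_self h0
  have h1 : z ((0, 0, 0), (i, j)) =
      z (cellIdx 0 1 0) * plu (cellE z 0 1 0) (cellE' z 0 1 0) i j := by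
    rw [cell_formula h h0 ((0, 0, 0), (i, j))]
    simp only [zfun, cub, e1, e2, e3]
    ring
  have h2 : ∀ m' : Fin 4, z (cellIdx i j m') = z (cellIdx 0 1 0) *
      (cub (cellE z 0 1 0) (cellE' z 0 1 0) (cellG z 0 1 0) (cubIdx i j m').1
        (cubIdx i j m').2.1 (cubIdx i j m').2.2 *
        plu (cellE z 0 1 0) (cellE' z 0 1 0) i j) := fun m' => cell_formula h h0 _
  have hc' := hc
  rw [h2 m] at hc'
  have h3 := right_ne_zero_of_mul hc'
  have hm := left_ne_zero_of_mul h3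
  have hP := right_ne_zero_of_mul h3
  have h4 : ∀ m' : Fin 4, cellG z i j m m' =
      cub (cellE z 0 1 0) (cellE' z 0 1 0) (cellG z 0 1 0) (cubIdx i j m').1
        (cubIdx i j m').2.1 (cubIdx i j m').2.2 /
      cub (cellE z 0 1 0) (cellE' z 0 1 0) (cellG z 0 1 0) (cubIdx i j m).1
        (cubIdx i j m).2.1 (cubIdx i j m).2.2 := by
    intro m'
    change z (cellIdx i j m') / z (cellIdx i j m) = _
    rw [h2 m', h2 m, mul_div_mul_left _ _ h0, mul_div_mul_right _ _ hP]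
  have h5 : z (cellIdx i j m) / z ((0, 0, 0), (i, j)) =
      cub (cellE z 0 1 0) (cellE' z 0 1 0) (cellG z 0 1 0) (cubIdx i j m).1
        (cubIdx i j m).2.1 (cubIdx i j m).2.2 := by
    rw [h1, h2 m, mul_div_mul_left _ _ h0, mul_div_cancel_right₀ _ hP]
  have h6 : z ((0, 0, 0), (i, j)) / z (cellIdx 0 1 0) =
      plu (cellE z 0 1 0) (cellE' z 0 1 0) i j := by
    rw [h1, mul_div_cancel_left₀ _ h0]
  rw [h5, h6]
  simp only [discCell]
  rw [h4 0, h4 1, h4 2, h4 3, disc4_div hm, mul_assoc]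
  congr 1
  exact disc4_cub (cellE z 0 1 0) (cellE' z 0 1 0) (cellG z 0 1 0) i j

variable {k : Type u} [Field k] [CharZero k]

/-- `γ_1, γ_2, γ_3` are algebraically independent and `disc4 1 X Y Z ≠ 0` (`= 1` at `(0, 0, 1)`). -/
theorem disc_ne : discCell (XX k).z 0 1 0 ≠ 0 := by
  have h1 : discCell (XX k).z 0 1 0 = algebraMap (MvPolynomial (CellVar 0 1 0) k) (KX k)
      (disc4 (cC k 0 1 0 0) (cC k 0 1 0 1) (cC k 0 1 0 2) (cC k 0 1 0 3)) := by
    have h2 : ∀ m, cellG (XX k).z 0 1 0 m =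
        algebraMap (MvPolynomial (CellVar 0 1 0) k) (KX k) (cC k 0 1 0 m) := by
      intro m
      rw [xz_cellG, xC, cC]
      split_ifs
      · rfl
      · rw [map_one]
    simp only [discCell]
    rw [h2, h2, h2, h2, disc4, disc4]
    simp only [map_sub, map_mul, map_pow, map_ofNat]
    rfl
  rw [h1]
  intro h2
  have h3 := (map_eq_zero_iff _
    (IsFractionRing.injective (MvPolynomial (CellVar 0 1 0) k) (KX k))).mp h2
  have h4 : aeval (Sum.elim (fun _ => (0 : k)) (Sum.elim (fun _ => (0 : k))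
      (fun m' : {m' : Fin 4 // m' ≠ 0} => if m'.1 = 3 then 1 else 0)) : CellVar 0 1 0 → k)
      (disc4 (cC k 0 1 0 0) (cC k 0 1 0 1) (cC k 0 1 0 2) (cC k 0 1 0 3)) = 1 := by
    simp [disc4, cC]
  rw [h3, map_zero] at h4
  exact zero_ne_one h4

/-- The discriminant divisor `disc_0 + 4 ξ - 6 H`. -/
def DDiv (k : Type u) [Field k] [CharZero k] : (XX k).CaDiv :=
  ((CaDiv.prin (discCell (XX k).z 0 1 0) disc_ne).add ((XiDiv k).zsmul 4)).add
    ((HDiv k).zsmul (-6))

/-- It is effective: at a point of the cell `(i, j, m)` its local equation is `discCell z i j m` up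
to a unit (`discCell_eq`, `XiDiv_unit`, `HDiv_unit`), a polynomial in the coordinates of the cell. -/
theorem DDiv_effective : (DDiv k).Effective := by
  intro y hy
  obtain ⟨i, j, m, hij, hc⟩ := exists_cell_pt hy
  have hz : (XX k).z (cellIdx i j m) ≠ 0 := isGenX_XX.cell_ne hij m
  have hz0 : (XX k).z (cellIdx 0 1 0) ≠ 0 := isGenX_XX.ne
  have hX := XiDiv_unit hy hc
  have hH := HDiv_unit hy hc
  obtain ⟨n1, n2⟩ := z_xi_ne (A := cubIdx i j m) (P := (i, j)) hz
  have hseg : (XX k).z (cellIdx i j m) * (XX k).z (cellIdx 0 1 0) =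
      (XX k).z (cubIdx i j m, (0, 1)) * (XX k).z ((0, 0, 0), (i, j)) :=
    (rel_XX (k := k)).segre _ _ _ _
  have hD := discCell_eq (rel_XX (k := k)) hz0 hz
  have hm : discCell (XX k).z i j m ∈ (XX k).loc y := by
    have h1 : ∀ m', cellG (XX k).z i j m m' ∈ (XX k).loc y := fun m' => coord_div_mem _ hc
    exact sub_mem (pow_mem (sub_mem (mul_mem (h1 _) (h1 _)) (mul_mem (h1 _) (h1 _))) 2)
      (mul_mem (mul_mem (ofNat_mem _ 4) (sub_mem (mul_mem (h1 _) (h1 _)) (pow_mem (h1 _) 2)))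
        (sub_mem (mul_mem (h1 _) (h1 _)) (pow_mem (h1 _) 2)))
  have key : (DDiv k).eq y = discCell (XX k).z i j m *
      ((XiDiv k).eq y / ((XX k).z ((0, 0, 0), (i, j)) / (XX k).z (cellIdx i j m))) ^ 4 *
      (((HDiv k).eq y / ((XX k).z (cubIdx i j m, (0, 1)) / (XX k).z (cellIdx i j m)))⁻¹) ^ 6 := by
    change discCell (XX k).z 0 1 0 * (XiDiv k).eq y ^ (4 : ℤ) * (HDiv k).eq y ^ (-6 : ℤ) = _
    have hH0 := (HDiv k).eq_ne_zero y hy
    have h7 : (XX k).z (cubIdx i j m, (0, 1)) / (XX k).z (cellIdx i j m) =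
        (XX k).z (cellIdx 0 1 0) / (XX k).z ((0, 0, 0), (i, j)) := by
      rw [div_eq_div_iff hz n1, ← hseg]
      ring
    rw [hD, h7, zpow_neg, zpow_neg, show ((6 : ℤ)) = ((6 : ℕ) : ℤ) from rfl,
      show ((4 : ℤ)) = ((4 : ℕ) : ℤ) from rfl, zpow_natCast, zpow_natCast, zpow_natCast]
    generalize (XiDiv k).eq y = a at *
    generalize (HDiv k).eq y = b at *
    generalize discCell (XX k).z 0 1 0 = d at *
    field_simp
  rw [key]
  exact mul_mem (mul_mem hm (pow_mem hX.1 4)) (pow_mem hH.2 6)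

end MP9a7843
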