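import Pool.Agent.Lib.MP_9a7843_ag_X.Dg

/-!
# MP_9a7843_ag, block X, module Fam: moving curves of bidegree `(1, 0)`, `(3, 2)` and a curve of
bidegree `(0, 1)`
-/

noncomputable section

open MvPolynomial

open Pool.Agent.MP9a7843 Pool.Agent.MP9a7843.ProjVar

namespace MP9a7843

universe u

section Indep

variable {K : Type*} [Field K] [CharZero K]

omit [CharZero K] in
/-- A nonzero Pluecker coordinate gives linear independence. -/
private theorem fam_indep {u v : Fin 10 → K} {d e : Fin 10} (h : plu u v d e ≠ 0) :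
    LinearIndependent K ![u, v] := by
  rw [LinearIndependent.pair_iff]
  intro s t hst
  have h1 := congrFun hst d
  have h2 := congrFun hst e
  simp only [Pi.add_apply, Pi.smul_apply, smul_eq_mul, Pi.zero_apply] at h1 h2
  simp only [plu] at h
  refine ⟨(mul_eq_zero.1 (?_ : (u d * v e - u e * v d) * s = 0)).resolve_left h,
    (mul_eq_zero.1 (?_ : (u d * v e - u e * v d) * t = 0)).resolve_left h⟩
  · linear_combination v e * h1 - v d * h2
  · linear_combination u d * h2 - u e * h1

/-- For linearly independent `u`, `v` the Pluecker vector is not zero. -/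
theorem plu_ne_of_indep {u v : Fin 10 → K} (h : LinearIndependent K ![u, v]) :
    ∃ d e, plu u v d e ≠ 0 := by
  by_contra hcon
  push Not at hcon
  have hu : u ≠ 0 := h.ne_zero 0
  obtain ⟨i, hi⟩ := Function.ne_iff.1 hu
  have h1 := (LinearIndependent.pair_iff.1 h (v i) (-u i) (by
    funext l
    have h2 := hcon i l
    simp only [plu] at h2
    simp only [Pi.add_apply, Pi.smul_apply, smul_eq_mul, Pi.zero_apply]
    linear_combination -h2)).2
  exact hi (neg_eq_zero.1 h1)

/-- For linearly independent `u`, `v` and `c ≠ 0` the cubic is not zero: choose `i`, `j` with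
`P_ij ≠ 0`; the four values `F_iii, F_iij, F_ijj, F_jjj` determine `c`. -/
theorem cub_ne_of_indep {u v : Fin 10 → K} (h : LinearIndependent K ![u, v]) {c : Fin 4 → K}
    (hc : c ≠ 0) : ∃ a b d, cub u v c a b d ≠ 0 := by
  by_contra hcon
  push Not at hcon
  obtain ⟨i, j, hij⟩ := plu_ne_of_indep h
  have e0 := hcon i i i
  have e1 := hcon i i j
  have e2 := hcon i j j
  have e3 := hcon j j j
  simp only [plu] at hij
  simp only [cub] at e0 e1 e2 e3
  have hD := pow_ne_zero 3 hij
  apply hc
  funext m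
  refine (mul_eq_zero.1 (?_ : (u i * v j - u j * v i) ^ 3 * c m = 0)).resolve_left hD
  fin_cases m
  · change (u i * v j - u j * v i) ^ 3 * c 0 = 0
    linear_combination v j ^ 3 * e0 - 3 * v j ^ 2 * v i * e1 + 3 * v j * v i ^ 2 * e2 -
      v i ^ 3 * e3
  · change (u i * v j - u j * v i) ^ 3 * c 1 = 0
    linear_combination (-(v j ^ 2 * u j)) * e0 + (v j ^ 2 * u i + 2 * v i * v j * u j) * e1 -
      (v i ^ 2 * u j + 2 * v i * v j * u i) * e2 + v i ^ 2 * u i * e3
  · change (u i * v j - u j * v i) ^ 3 * c 2 = 0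
    linear_combination v j * u j ^ 2 * e0 - (v i * u j ^ 2 + 2 * v j * u i * u j) * e1 +
      (v j * u i ^ 2 + 2 * v i * u i * u j) * e2 - v i * u i ^ 2 * e3
  · change (u i * v j - u j * v i) ^ 3 * c 3 = 0
    linear_combination (-(u j ^ 3)) * e0 + 3 * u j ^ 2 * u i * e1 - 3 * u j * u i ^ 2 * e2 +
      u i ^ 3 * e3

/-- Conversely: a point `zfun u v c ≠ 0` has independent `u`, `v` and `c ≠ 0`. -/
theorem indep_of_zfun_ne {u v : Fin 10 → K} {c : Fin 4 → K} (h : ∃ I, zfun u v c I ≠ 0) :
    LinearIndependent K ![u, v] ∧ c ≠ 0 := by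
  obtain ⟨I, hI⟩ := h
  simp only [zfun] at hI
  refine ⟨fam_indep (right_ne_zero_of_mul hI), ?_⟩
  rintro rfl
  apply left_ne_zero_of_mul hI
  simp [cub]

end Indep

variable {k : Type u} [Field k] [IsAlgClosed k] [CharZero k]

private theorem fam_curve {U V : Fin 10 → Polynomial k} {Cc : Fin 4 → Polynomial k} {e h : ℕ}
    (hf1 : ∀ a b d, (cub U V Cc a b d).natDegree ≤ e)
    (hf2 : ∃ a b d, (cub U V Cc a b d).coeff e ≠ 0)
    (hp1 : ∀ d d', (plu U V d d').natDegree ≤ h) (hp2 : ∃ d d', (plu U V d d').coeff h ≠ 0)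
    (hi : ∀ r : k, LinearIndependent k ![fun l => (U l).eval r, fun l => (V l).eval r])
    (hc : ∀ r : k, (fun m => (Cc m).eval r) ≠ 0) :
    ∃ C : (XX k).Curve, (∀ P : MvPolynomial Idx k,
      aeval (fun I => (zfun U V Cc I).eval 0) P ≠ 0 → aeval C.c P ≠ 0) ∧
      (XX k).deg C.c (XiDiv k) = e ∧ (XX k).deg C.c (HDiv k) = h := by
  have hf3 : ∀ r : k, ∃ A : Fin 10 × Fin 10 × Fin 10, (cub U V Cc A.1 A.2.1 A.2.2).eval r ≠ 0 := by
    intro r
    obtain ⟨a, b, d, h1⟩ := cub_ne_of_indep (hi r) (hc r)
    refine ⟨(a, b, d), ?_⟩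
    change Polynomial.evalRingHom r _ ≠ 0
    rw [map_cub]
    exact h1
  have hp3 : ∀ r : k, ∃ B : Fin 10 × Fin 10, (plu U V B.1 B.2).eval r ≠ 0 := by
    intro r
    obtain ⟨d, d', h1⟩ := plu_ne_of_indep (hi r)
    refine ⟨(d, d'), ?_⟩
    change Polynomial.evalRingHom r _ ≠ 0
    rw [map_plu]
    exact h1
  have hinj : Function.Injective (algebraMap (Polynomial k) (RatFunc k)) :=
    IsFractionRing.injective _ _
  have hpt : (XX k).IsPt (fun I => algebraMap (Polynomial k) (RatFunc k) (zfun U V Cc I)) := by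
    have h1 : (fun I => algebraMap (Polynomial k) (RatFunc k) (zfun U V Cc I)) =
        zfun (fun i => algebraMap (Polynomial k) (RatFunc k) (U i))
          (fun i => algebraMap (Polynomial k) (RatFunc k) (V i))
          (fun i => algebraMap (Polynomial k) (RatFunc k) (Cc i)) := by
      funext I
      rw [map_zfun]
    refine (congrArg (fun y : Idx → RatFunc k => (XX k).IsPt y) h1).mpr (isPt_zfun ?_)
    obtain ⟨A, hA⟩ := hf3 0
    obtain ⟨B, hB⟩ := hp3 0
    refine ⟨(A, B), ?_⟩
    rw [← map_zfun]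
    refine (map_ne_zero_iff _ hinj).2 ?_
    intro h0
    have h2 := congrArg (Polynomial.eval 0) h0
    rw [zfun, Polynomial.eval_mul, Polynomial.eval_zero] at h2
    exact mul_ne_zero hA hB h2
  refine ⟨{ F := RatFunc k
            fg := isCurveField_ratFunc.fg
            trdeg := isCurveField_ratFunc.trdeg
            c := fun I => algebraMap (Polynomial k) (RatFunc k) (zfun U V Cc I)
            isPt := hpt }, ?_, ?_⟩
  · intro P hP h0
    apply hP
    have h1 : aeval (fun I => algebraMap (Polynomial k) (RatFunc k) (zfun U V Cc I)) P =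
        algebraMap (Polynomial k) (RatFunc k) (aeval (zfun U V Cc) P) :=
      aeval_algebraMap_apply (B := RatFunc k) (zfun U V Cc) P
    have h2 : aeval (zfun U V Cc) P = 0 := by
      apply hinj
      rw [map_zero, ← h1]
      exact h0
    have h3 := comp_aeval_apply (zfun U V Cc) (Polynomial.aeval (0 : k)) P
    rw [h2, map_zero] at h3
    simpa only [Polynomial.coe_aeval_eq_eval] using h3.symm
  · exact deg_poly (fun A => cub U V Cc A.1 A.2.1 A.2.2) (fun B => plu U V B.1 B.2)
      (fun A => hf1 _ _ _) (by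
        obtain ⟨a, b, d, h1⟩ := hf2
        exact ⟨(a, b, d), h1⟩) hf3 (fun B => hp1 _ _) (by
        obtain ⟨d, d', h1⟩ := hp2
        exact ⟨(d, d'), h1⟩) hp3 hpt (fun I => rfl)

private theorem fam_point (d : ℕ) (P : MvPolynomial Idx k) (hP : P.IsHomogeneous d)
    (h : aeval (XX k).z P ≠ 0) : ∃ (u v : Fin 10 → k) (c : Fin 4 → k),
      aeval (zfun u v c) P ≠ 0 ∧ LinearIndependent k ![u, v] ∧ c ≠ 0 := by
  by_contra hcon
  push Not at hcon
  apply h
  refine aeval_z_eq_zero hP fun y hy => ?_
  obtain ⟨h0, u, v, c, rfl⟩ := isPt_XX_iff_onX.1 hy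
  by_contra h1
  obtain ⟨h2, h3⟩ := indep_of_zfun_ne (Function.ne_iff.1 h0)
  exact h3 (hcon u v c h1 h2)

omit [IsAlgClosed k] [CharZero k] in
private theorem fam_lin (x x' : k) :
    (Polynomial.C x + Polynomial.X * Polynomial.C x').natDegree ≤ 1 := by
  compute_degree

omit [IsAlgClosed k] [CharZero k] in
private theorem fam_three (x x' y y' z z' : k) :
    ((Polynomial.C x + Polynomial.X * Polynomial.C x') *
      (Polynomial.C y + Polynomial.X * Polynomial.C y') *
      (Polynomial.C z + Polynomial.X * Polynomial.C z')).natDegree ≤ 3 ∧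
    ((Polynomial.C x + Polynomial.X * Polynomial.C x') *
      (Polynomial.C y + Polynomial.X * Polynomial.C y') *
      (Polynomial.C z + Polynomial.X * Polynomial.C z')).coeff 3 = x' * y' * z' := by
  have h1 := fam_lin x x'
  have h2 := fam_lin y y'
  have h3 := fam_lin z z'
  have h4 := Polynomial.natDegree_mul_le_of_le h1 h2
  refine ⟨Polynomial.natDegree_mul_le_of_le h4 h3, ?_⟩
  have h5 := Polynomial.coeff_mul_add_eq_of_natDegree_le h4 h3
  rw [Polynomial.coeff_mul_add_eq_of_natDegree_le h1 h2] at h5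
  refine h5.trans ?_
  simp

omit [IsAlgClosed k] [CharZero k] in
private theorem fam_two_lin (x x' y y' : k) :
    ((Polynomial.C x + Polynomial.X * Polynomial.C x') *
      (Polynomial.C y + Polynomial.X * Polynomial.C y')).natDegree ≤ 2 ∧
    ((Polynomial.C x + Polynomial.X * Polynomial.C x') *
      (Polynomial.C y + Polynomial.X * Polynomial.C y')).coeff 2 = x' * y' := by
  have h1 := fam_lin x x'
  have h2 := fam_lin y y'
  refine ⟨Polynomial.natDegree_mul_le_of_le h1 h2, ?_⟩
  have h5 := Polynomial.coeff_mul_add_eq_of_natDegree_le h1 h2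
  refine h5.trans ?_
  simp

omit [IsAlgClosed k] [CharZero k] in
private theorem fam_cub_deg (u u' v v' : Fin 10 → k) (c : Fin 4 → k) (a b d : Fin 10) :
    (cub (fun l => Polynomial.C (u l) + Polynomial.X * Polynomial.C (u' l))
      (fun l => Polynomial.C (v l) + Polynomial.X * Polynomial.C (v' l))
      (fun m => Polynomial.C (c m)) a b d).natDegree ≤ 3 := by
  simp only [cub]
  have h := fun (x x' y y' z z' : k) => (fam_three x x' y y' z z').1
  have hm : ∀ (x : k) (p : Polynomial k), p.natDegree ≤ 3 →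
      (Polynomial.C x * p).natDegree ≤ 3 :=
    fun x p hp => (Polynomial.natDegree_C_mul_le x p).trans hp
  have ha : ∀ p q : Polynomial k, p.natDegree ≤ 3 → q.natDegree ≤ 3 → (p + q).natDegree ≤ 3 :=
    fun p q hp hq => Polynomial.natDegree_add_le_of_degree_le hp hq
  refine ha _ _ (ha _ _ (ha _ _ (hm _ _ ?_) (hm _ _ (ha _ _ (ha _ _ ?_ ?_) ?_)))
    (hm _ _ (ha _ _ (ha _ _ ?_ ?_) ?_))) (hm _ _ ?_)
  all_goals exact h _ _ _ _ _ _

omit [IsAlgClosed k] [CharZero k] in
private theorem fam_cub_coeff (u u' v v' : Fin 10 → k) (c : Fin 4 → k) (a b d : Fin 10) :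
    (cub (fun l => Polynomial.C (u l) + Polynomial.X * Polynomial.C (u' l))
      (fun l => Polynomial.C (v l) + Polynomial.X * Polynomial.C (v' l))
      (fun m => Polynomial.C (c m)) a b d).coeff 3 = cub u' v' c a b d := by
  have h := fun (x x' y y' z z' : k) => (fam_three x x' y y' z z').2
  simp only [cub, Polynomial.coeff_add, Polynomial.coeff_C_mul, h]

omit [IsAlgClosed k] [CharZero k] in
private theorem fam_plu_deg (u u' v v' : Fin 10 → k) (a b : Fin 10) :
    (plu (fun l => Polynomial.C (u l) + Polynomial.X * Polynomial.C (u' l))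
      (fun l => Polynomial.C (v l) + Polynomial.X * Polynomial.C (v' l)) a b).natDegree ≤ 2 := by
  simp only [plu]
  exact Polynomial.natDegree_sub_le_of_le (fam_two_lin _ _ _ _).1 (fam_two_lin _ _ _ _).1

omit [IsAlgClosed k] [CharZero k] in
private theorem fam_plu_coeff (u u' v v' : Fin 10 → k) (a b : Fin 10) :
    (plu (fun l => Polynomial.C (u l) + Polynomial.X * Polynomial.C (u' l))
      (fun l => Polynomial.C (v l) + Polynomial.X * Polynomial.C (v' l)) a b).coeff 2 =
      plu u' v' a b := by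
  have h := fun (x x' y y' : k) => (fam_two_lin x x' y y').2
  simp only [plu, Polynomial.coeff_sub, h]

private theorem fam_two (i j : Fin 10) :
    ∃ p q : Fin 10, p ≠ i ∧ p ≠ j ∧ q ≠ i ∧ q ≠ j ∧ p ≠ q := by
  revert i j
  decide

/-- Through the general point there is a curve of bidegree `(1, 0)`: choose a closed point
`y = zfun u v c0` with `P(y) ≠ 0` (`aeval_z_eq_zero`), `c1` not proportional to `c0`, and the curve
`t ↦ zfun u v (c0 + t c1)` over `k(t)`. `P` of it is a polynomial in `t` with value `P(y)` at `t = 0`. -/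
theorem exists_curve10 (d : ℕ) (P : MvPolynomial Idx k) (hP : P.IsHomogeneous d)
    (h : aeval (XX k).z P ≠ 0) : ∃ C : (XX k).Curve, aeval C.c P ≠ 0 ∧
      (XX k).deg C.c (XiDiv k) = 1 ∧ (XX k).deg C.c (HDiv k) = 0 := by
  obtain ⟨u, v, c0, hy, hiuv, hc0⟩ := fam_point d P hP h
  obtain ⟨a, ha⟩ := Function.ne_iff.1 hc0
  obtain ⟨m, hm⟩ : ∃ m : Fin 4, m ≠ a := exists_ne a
  have hc1 : (fun m' : Fin 4 => if m' = m then (1 : k) else 0) ≠ 0 := by
    refine Function.ne_iff.2 ⟨m, ?_⟩
    simp
  have hC : ∀ a' b' d' : Fin 10, cub (fun l => Polynomial.C (u l)) (fun l => Polynomial.C (v l))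
      (fun m' => Polynomial.C (c0 m') + Polynomial.X * Polynomial.C (if m' = m then (1 : k) else 0))
      a' b' d' = Polynomial.C (cub u v c0 a' b' d') +
        Polynomial.X *
          Polynomial.C (cub u v (fun m' => if m' = m then (1 : k) else 0) a' b' d') := by
    intro a' b' d'
    rw [map_cub, map_cub]
    simp only [cub]
    ring
  have hP' : ∀ d' e' : Fin 10, plu (fun l => Polynomial.C (u l)) (fun l => Polynomial.C (v l))
      d' e' = Polynomial.C (plu u v d' e') := by
    intro d' e'
    rw [map_plu]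
  obtain ⟨C, h1, h2, h3⟩ := fam_curve (U := fun l => Polynomial.C (u l))
    (V := fun l => Polynomial.C (v l))
    (Cc := fun m' => Polynomial.C (c0 m') +
      Polynomial.X * Polynomial.C (if m' = m then (1 : k) else 0)) (e := 1) (h := 0)
    (fun a' b' d' => by
      rw [hC]
      compute_degree)
    (by
      obtain ⟨a', b', d', h1⟩ := cub_ne_of_indep hiuv hc1
      refine ⟨a', b', d', ?_⟩
      rw [hC]
      simpa using h1)
    (fun d' e' => by
      rw [hP']
      simp)
    (by
      obtain ⟨d', e', h1⟩ := plu_ne_of_indep hiuv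
      refine ⟨d', e', ?_⟩
      rw [hP']
      simpa using h1)
    (fun r => by simpa using hiuv)
    (fun r => by
      refine Function.ne_iff.2 ⟨a, ?_⟩
      simpa [Ne.symm hm] using ha)
  refine ⟨C, h1 P ?_, h2, h3⟩
  have h4 : (fun I => (zfun (fun l => Polynomial.C (u l)) (fun l => Polynomial.C (v l))
      (fun m' => Polynomial.C (c0 m') +
        Polynomial.X * Polynomial.C (if m' = m then (1 : k) else 0)) I).eval 0) =
      zfun u v c0 := by
    funext I
    change Polynomial.evalRingHom 0 _ = _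
    rw [map_zfun]
    have e1 : ∀ x y : k,
        Polynomial.evalRingHom 0 (Polynomial.C x + Polynomial.X * Polynomial.C y) = x := by
      intro x y
      simp
    have e2 : ∀ x : k, Polynomial.evalRingHom 0 (Polynomial.C x) = x := by
      intro x
      simp
    simp only [e1, e2]
  rw [h4]
  exact hy

/-- Through the general point there is a curve of bidegree `(3, 2)`: `y = zfun u v c0` as before,
`u'`, `v'` with `u, v, u', v'` linearly independent, and `t ↦ zfun (u + t u') (v + t v') c0`; the
leading coefficients are `cub u' v' c0` and `plu u' v'`, and for all `r` the vectors `u + r u'`,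
`v + r v'` are independent. -/
theorem exists_curve32 (d : ℕ) (P : MvPolynomial Idx k) (hP : P.IsHomogeneous d)
    (h : aeval (XX k).z P ≠ 0) : ∃ C : (XX k).Curve, aeval C.c P ≠ 0 ∧
      (XX k).deg C.c (XiDiv k) = 3 ∧ (XX k).deg C.c (HDiv k) = 2 := by
  obtain ⟨u, v, c0, hy, hiuv, hc0⟩ := fam_point d P hP h
  obtain ⟨i, j, hij⟩ := plu_ne_of_indep hiuv
  obtain ⟨p, q, hpi, hpj, hqi, hqj, hpq⟩ := fam_two i j
  have hD : ∀ d' e' : Fin 10, plu (fun l => if l = p then (1 : k) else 0)
      (fun l => if l = q then (1 : k) else 0) p q ≠ 0 := by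
    intro _ _
    simp [plu, hpq]
  have hi' : LinearIndependent k ![fun l : Fin 10 => if l = p then (1 : k) else 0,
      fun l : Fin 10 => if l = q then (1 : k) else 0] := fam_indep (hD 0 0)
  obtain ⟨C, h1, h2, h3⟩ := fam_curve
    (U := fun l => Polynomial.C (u l) + Polynomial.X * Polynomial.C (if l = p then (1 : k) else 0))
    (V := fun l => Polynomial.C (v l) + Polynomial.X * Polynomial.C (if l = q then (1 : k) else 0))
    (Cc := fun m' => Polynomial.C (c0 m')) (e := 3) (h := 2)
    (fun a' b' d' => fam_cub_deg _ _ _ _ _ _ _ _)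
    (by
      obtain ⟨a', b', d', h1⟩ := cub_ne_of_indep hi' hc0
      refine ⟨a', b', d', ?_⟩
      rw [fam_cub_coeff]
      exact h1)
    (fun d' e' => fam_plu_deg _ _ _ _ _ _)
    (by
      refine ⟨p, q, ?_⟩
      rw [fam_plu_coeff]
      exact hD 0 0)
    (fun r => by
      refine fam_indep (d := i) (e := j) ?_
      simpa [plu, Ne.symm hpi, Ne.symm hpj, Ne.symm hqi, Ne.symm hqj] using hij)
    (fun r => by simpa using hc0)
  refine ⟨C, h1 P ?_, h2, h3⟩
  have h4 : (fun I => (zfun
      (fun l => Polynomial.C (u l) + Polynomial.X * Polynomial.C (if l = p then (1 : k) else 0))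
      (fun l => Polynomial.C (v l) + Polynomial.X * Polynomial.C (if l = q then (1 : k) else 0))
      (fun m' => Polynomial.C (c0 m')) I).eval 0) = zfun u v c0 := by
    funext I
    change Polynomial.evalRingHom 0 _ = _
    rw [map_zfun]
    have e1 : ∀ x y : k,
        Polynomial.evalRingHom 0 (Polynomial.C x + Polynomial.X * Polynomial.C y) = x := by
      intro x y
      simp
    have e2 : ∀ x : k, Polynomial.evalRingHom 0 (Polynomial.C x) = x := by
      intro x
      simp
    simp only [e1, e2]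
  rw [h4]
  exact hy

/-- A curve of bidegree `(0, 1)`: `t ↦ zfun e_0 (e_1 + t e_2) (1, 0, 0, 0)`. -/
theorem exists_curve01 : ∃ C : (XX k).Curve,
      (XX k).deg C.c (XiDiv k) = 0 ∧ (XX k).deg C.c (HDiv k) = 1 := by
  have hC : ∀ a' b' d' : Fin 10, cub (fun l => Polynomial.C (if l = 0 then (1 : k) else 0))
      (fun l => Polynomial.C (if l = 1 then (1 : k) else 0) +
        Polynomial.X * Polynomial.C (if l = 2 then (1 : k) else 0))
      (fun m' : Fin 4 => Polynomial.C (if m' = 0 then (1 : k) else 0)) a' b' d' =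
      Polynomial.C ((if a' = 0 then (1 : k) else 0) * (if b' = 0 then (1 : k) else 0) *
        (if d' = 0 then (1 : k) else 0)) := by
    intro a' b' d'
    simp only [cub]
    by_cases ha : a' = 0 <;> by_cases hb : b' = 0 <;> by_cases hd : d' = 0 <;> simp [ha, hb, hd]
  obtain ⟨C, h1, h2, h3⟩ := fam_curve
    (U := fun l => Polynomial.C (if l = 0 then (1 : k) else 0))
    (V := fun l => Polynomial.C (if l = 1 then (1 : k) else 0) +
      Polynomial.X * Polynomial.C (if l = 2 then (1 : k) else 0))
    (Cc := fun m' => Polynomial.C (if m' = 0 then (1 : k) else 0)) (e := 0) (h := 1)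
    (fun a' b' d' => by
      rw [hC, Polynomial.natDegree_C])
    ⟨0, 0, 0, by
      rw [hC]
      simp⟩
    (fun d' e' => by
      simp only [plu]
      compute_degree)
    ⟨0, 2, by simp [plu]⟩
    (fun r => by
      refine fam_indep (d := 0) (e := 1) ?_
      simp [plu])
    (fun r => by
      refine Function.ne_iff.2 ⟨0, ?_⟩
      simp)
  exact ⟨C, h2, h3⟩

end MP9a7843
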