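import Pool.Agent.Lib.MP_9a7843_ag.Null
import Pool.Agent.Lib.MP_9a7843_ag_X.Pts

/-!
# MP_9a7843_ag, block X, module Aff: affine cells, local rings and smoothness of `X`
-/

noncomputable section

open MvPolynomial

open Pool.Agent.MP9a7843 Pool.Agent.MP9a7843.ProjVar

namespace MP9a7843

universe u

variable {k : Type u} [Field k] [CharZero k] {F : Type u} [Field F] [Algebra k F] {c : Idx → F}
  {i j : Fin 10} {m : Fin 4}

/-- The affine ring of the chart `z_c ≠ 0` is generated by the 19 coordinates of the cell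
(`aeval_zC`, `cellCoord_eq`). -/
theorem affRing_XX (hij : i ≠ j) (m : Fin 4) :
    (XX k).affRing (cellIdx i j m) = Algebra.adjoin k (Set.range (cellCoord (XX k).z i j m)) := by
  have hc : (XX k).z (cellIdx i j m) ≠ 0 := isGenX_XX.cell_ne hij m
  apply le_antisymm
  · refine Algebra.adjoin_le ?_
    rintro _ ⟨I, rfl⟩
    change (XX k).z I / (XX k).z (cellIdx i j m) ∈ _
    rw [← aeval_zC k rel_XX hc I, Algebra.adjoin_range_eq_range_aeval]
    exact ⟨_, rfl⟩
  · refine Algebra.adjoin_le ?_
    rintro _ ⟨x, rfl⟩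
    rw [cellCoord_eq]
    exact Algebra.subset_adjoin ⟨coordIdx i j m x, rfl⟩

/-- `aeval (cellCoord c) P` is the value at `c` of `aeval (cellCoord z) P`: induction on `P`
(`ev_coord_div` for the coordinates). -/
theorem hasValue_poly (hy : (XX k).IsPt c) (hc : c (cellIdx i j m) ≠ 0)
    (P : MvPolynomial (CellVar i j m) k) :
    (XX k).HasValue c (aeval (cellCoord (XX k).z i j m) P) (aeval (cellCoord c i j m) P) := by
  induction P using MvPolynomial.induction_on with
  | C r =>
    rw [aeval_C, aeval_C]
    exact hasValue_algebraMap r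
  | add p q hp hq =>
    rw [map_add, map_add]
    exact hp.add hy hq
  | mul_X p x hp =>
    rw [map_mul, map_mul, aeval_X, aeval_X, cellCoord_eq, cellCoord_eq]
    exact hp.mul (hasValue_coord _ hc)

/-- The local ring at a point of the cell (`mem_loc_iff_affRing`, `affRing_XX`). -/
theorem mem_loc_XX (hy : (XX k).IsPt c) (hc : c (cellIdx i j m) ≠ 0) {a : (XX k).K} :
    a ∈ (XX k).loc c ↔ ∃ P Q : MvPolynomial (CellVar i j m) k, aeval (cellCoord c i j m) Q ≠ 0 ∧
      a = aeval (cellCoord (XX k).z i j m) P / aeval (cellCoord (XX k).z i j m) Q := by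
  have hij : i ≠ j := ne_of_cell (rel_of_isPt hy) hc
  rw [mem_loc_iff_affRing hy hc, affRing_XX hij m, Algebra.adjoin_range_eq_range_aeval]
  constructor
  · rintro ⟨_, ⟨P, rfl⟩, _, ⟨Q, rfl⟩, hQ, rfl⟩
    refine ⟨P, Q, ?_, rfl⟩
    rwa [← (hasValue_poly hy hc Q).ev_eq hy]
  · rintro ⟨P, Q, hQ, rfl⟩
    refine ⟨_, ⟨P, rfl⟩, _, ⟨Q, rfl⟩, ?_, rfl⟩
    rwa [← (hasValue_poly hy hc Q).ev_eq hy] at hQ

/-- Values at a point of the cell (`hasValue_poly`). -/
theorem ev_XX (hy : (XX k).IsPt c) (hc : c (cellIdx i j m) ≠ 0)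
    {P Q : MvPolynomial (CellVar i j m) k} (hQ : aeval (cellCoord c i j m) Q ≠ 0) :
    (XX k).ev c (aeval (cellCoord (XX k).z i j m) P / aeval (cellCoord (XX k).z i j m) Q) =
      aeval (cellCoord c i j m) P / aeval (cellCoord c i j m) Q := by
  rw [div_eq_mul_inv, div_eq_mul_inv]
  exact ((hasValue_poly hy hc P).mul ((hasValue_poly hy hc Q).inv hy hQ)).ev_eq hy

omit [CharZero k] in
/-- The coordinates of the cell lie in the local ring. -/
theorem cellCoord_mem_loc (hc : c (cellIdx i j m) ≠ 0) (x : CellVar i j m) :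
    cellCoord (XX k).z i j m x ∈ (XX k).loc c := by
  rw [cellCoord_eq]
  exact coord_div_mem _ hc

/-- A derivation which maps the coordinates of the cell into the local ring preserves the local
ring (`mem_loc_XX`, chain rule for `P`, `Q` and the quotient rule). -/
theorem deriv_mem_loc (hy : (XX k).IsPt c) (hc : c (cellIdx i j m) ≠ 0)
    (δ : Derivation k (XX k).K (XX k).K)
    (h : ∀ x, δ (cellCoord (XX k).z i j m x) ∈ (XX k).loc c) {a : (XX k).K}
    (ha : a ∈ (XX k).loc c) : δ a ∈ (XX k).loc c := by
  have key : ∀ P : MvPolynomial (CellVar i j m) k,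
      δ (aeval (cellCoord (XX k).z i j m) P) ∈ (XX k).loc c := by
    intro P
    induction P using MvPolynomial.induction_on with
    | C r =>
      rw [aeval_C, Derivation.map_algebraMap]
      exact zero_mem _
    | add p q hp hq =>
      rw [map_add, map_add]
      exact add_mem hp hq
    | mul_X p x hp =>
      rw [map_mul, aeval_X, Derivation.leibniz, smul_eq_mul, smul_eq_mul]
      exact add_mem (mul_mem (hasValue_poly hy hc p).mem_loc (h x))
        (mul_mem (cellCoord_mem_loc hc x) hp)
  obtain ⟨P, Q, hQ, rfl⟩ := (mem_loc_XX hy hc).1 ha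
  have hinv : (aeval (cellCoord (XX k).z i j m) Q)⁻¹ ∈ (XX k).loc c :=
    ((hasValue_poly hy hc Q).inv hy hQ).mem_loc
  rw [div_eq_mul_inv, Derivation.leibniz, Derivation.leibniz_inv]
  simp only [smul_eq_mul]
  refine add_mem (mul_mem (hasValue_poly hy hc P).mem_loc (mul_mem ?_ (key Q)))
    (mul_mem hinv (key P))
  exact neg_mem (pow_mem hinv 2)

/-- The cell is an affine space: every vector of coordinates is attained by a point
(`c I = aeval x (zC k i j m I)`). -/
theorem exists_pt_of_coord (hij : i ≠ j) (x : CellVar i j m → F) :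
    ∃ c : Idx → F, (XX k).IsPt c ∧ c (cellIdx i j m) = 1 ∧ cellCoord c i j m = x := by
  have h0 : (fun I => aeval x (zC k i j m I)) = zfun (fun l => aeval x (uC k i j m l))
      (fun l => aeval x (vC k i j m l)) (fun l => aeval x (cC k i j m l)) := by
    funext I
    exact map_zfun (aeval x : MvPolynomial (CellVar i j m) k →ₐ[k] F).toRingHom _ _ _ I
  have h1 : aeval x (zC k i j m (cellIdx i j m)) = 1 := by
    rw [zC_cellIdx k hij, map_one]
  refine ⟨fun I => aeval x (zC k i j m I), ?_, h1, ?_⟩
  · rw [h0]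
    refine isPt_zfun ⟨cellIdx i j m, ?_⟩
    rw [← h0]
    change aeval x (zC k i j m (cellIdx i j m)) ≠ 0
    rw [h1]
    exact one_ne_zero
  · funext l
    rw [cellCoord_eq]
    rw [h1, zC_coordIdx k hij, aeval_X, div_one]

/-- The affine ring of the cell is a polynomial ring. -/
private def affEquiv (hij : i ≠ j) (m : Fin 4) :
    MvPolynomial (CellVar i j m) k ≃ₐ[k] (XX k).affRing (cellIdx i j m) :=
  (isGenX_XX.indep_cell hij m).aevalEquiv.trans (Subalgebra.equivOfEq _ _ (affRing_XX hij m).symm)

/-- The local rings are formally smooth: `loc y` is a localisation (`isLocalization_loc`) of the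
polynomial ring `affRing` (`affRing_XX` and `AlgebraicIndependent.aevalEquiv`). -/
theorem formallySmooth_loc_XX {y : Idx → k} (hy : (XX k).IsPt y) :
    Algebra.FormallySmooth k ((XX k).loc y) := by
  obtain ⟨i, j, m, hij, hc⟩ := exists_cell_pt hy
  let e := affEquiv (k := k) hij m
  have h1 : Algebra.FormallySmooth k ((XX k).affRing (cellIdx i j m)) :=
    Algebra.FormallySmooth.of_equiv e
  let _ := (Subalgebra.inclusion (affRing_le_loc (Y := XX k) hc)).toRingHom.toAlgebra
  have h2 : IsScalarTower k ((XX k).affRing (cellIdx i j m)) ((XX k).loc y) :=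
    IsScalarTower.of_algebraMap_eq fun r => rfl
  have h3 := isLocalization_loc hy hc
  have h4 : Algebra.FormallySmooth ((XX k).affRing (cellIdx i j m)) ((XX k).loc y) :=
    Algebra.FormallySmooth.of_isLocalization (primeAt hy hc).primeCompl
  exact Algebra.FormallySmooth.comp k ((XX k).affRing (cellIdx i j m)) ((XX k).loc y)

theorem smooth_XX : (XX k).Smooth := fun _ hy => formallySmooth_loc_XX hy

/-- The local ring at a closed point of the cell `(i, j, m)` is a unique factorisation domain
(localisation of a polynomial ring), hence integrally closed. -/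
theorem isIntegrallyClosed_loc_XX {y : Idx → k} (hy : (XX k).IsPt y) :
    IsIntegrallyClosed ((XX k).loc y) := by
  obtain ⟨i, j, m, hij, hc⟩ := exists_cell_pt hy
  have h1 : IsIntegrallyClosed ((XX k).affRing (cellIdx i j m)) :=
    IsIntegrallyClosed.of_equiv (affEquiv (k := k) hij m).toRingEquiv
  let _ := (Subalgebra.inclusion (affRing_le_loc (Y := XX k) hc)).toRingHom.toAlgebra
  have h3 := isLocalization_loc hy hc
  exact isIntegrallyClosed_of_isLocalization ((XX k).loc y) (primeAt hy hc).primeCompl
    (primeAt hy hc).primeCompl_le_nonZeroDivisors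

end MP9a7843
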