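import Pool.Agent.Lib.MP_9a7843_ag_X.Cells
import Pool.Agent.Lib.MP_9a7843_ag_V.Change
import Pool.Agent.Lib.MP_9a7843_ag_D.Mult

/-!
# MP_9a7843_ag, block X, module Mv: every etale discrete valuation ring lies in the main cell,
except for the two boundary divisors
-/

noncomputable section

open MvPolynomial

namespace MP9a7843

universe u

variable {k : Type u} [Field k] {K : Type u} [Field K] [Algebra k K] {z : Idx → K}
  {A : ValuationSubring K} {i j : Fin 10} {m : Fin 4}

/-- `z_I / z_c` is a polynomial in the coordinates of the cell (`aeval_zC`, `chg_aeval_mem`). -/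
theorem div_mem_of_cell (hk : ∀ r : k, algebraMap k K r ∈ A) (h : Rel z)
    (hc : z (cellIdx i j m) ≠ 0) (hx : ∀ s, cellCoord z i j m s ∈ A) (I : Idx) :
    z I / z (cellIdx i j m) ∈ A := by
  rw [← aeval_zC k h hc]
  exact chg_aeval_mem hk hx _

/-- The residue point: `zb I` is the residue of `z_I / z_c` in the residue field of `A`
(`Rel.smul`, `Rel.map`; `IsLocalRing.residue`). -/
theorem exists_residue_pt (hk : ∀ r : k, algebraMap k K r ∈ A) (h : Rel z)
    (hc : z (cellIdx i j m) ≠ 0) (hx : ∀ s, cellCoord z i j m s ∈ A) :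
    ∃ (κ : Type u) (_ : Field κ) (zb : Idx → κ), Rel zb ∧
      ∀ I, zb I = 0 ↔ A.valuation (z I / z (cellIdx i j m)) < 1 := by
  have hm := div_mem_of_cell hk h hc hx
  let w : Idx → A := fun I => ⟨z I / z (cellIdx i j m), hm I⟩
  have hw : ∀ I, ((w I : A) : K) = ((z (cellIdx i j m))⁻¹ • z) I := fun I => by
    change z I / z (cellIdx i j m) = (z (cellIdx i j m))⁻¹ * z I
    rw [div_eq_mul_inv, mul_comm]
  have h1 : Rel ((z (cellIdx i j m))⁻¹ • z) := h.smul _
  have hrel : Rel w := by
    constructor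
    · intro a b d P
      apply Subtype.ext
      rw [hw, hw]
      exact h1.sym1 a b d P
    · intro a b d P
      apply Subtype.ext
      rw [hw, hw]
      exact h1.sym2 a b d P
    · intro S d e
      apply Subtype.ext
      rw [NegMemClass.coe_neg, hw, hw]
      exact h1.alt S d e
    · intro S d
      apply Subtype.ext
      rw [hw, ZeroMemClass.coe_zero]
      exact h1.alt0 S d
    · intro S S' P P'
      apply Subtype.ext
      rw [MulMemClass.coe_mul, MulMemClass.coe_mul, hw, hw, hw, hw]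
      exact h1.segre S S' P P'
    · intro a b d i' j' S
      apply Subtype.ext
      rw [AddMemClass.coe_add, MulMemClass.coe_mul, MulMemClass.coe_mul, MulMemClass.coe_mul,
        hw, hw, hw, hw, hw, hw]
      exact h1.inc a b d i' j' S
    · intro S S' a b i' j'
      apply Subtype.ext
      rw [AddSubgroupClass.coe_sub, MulMemClass.coe_mul, MulMemClass.coe_mul,
        MulMemClass.coe_mul, hw, hw, hw, hw, hw, hw]
      exact h1.plu S S' a b i' j'
  refine ⟨IsLocalRing.ResidueField A, inferInstance, fun I => IsLocalRing.residue A (w I),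
    hrel.map _, fun I => ?_⟩
  rw [IsLocalRing.residue_eq_zero_iff]
  exact (A.valuation_lt_one_iff (w I))

/-- If `z_c' / z_c` is a unit of `A`, then `A` is etale for the cell `c'` too
(`z_I / z_c' = (z_I / z_c) (z_c / z_c')`, `etaleAt_change`). -/
theorem cell_of_unit (hk : ∀ r : k, algebraMap k K r ∈ A) (h : Rel z)
    (hc : z (cellIdx i j m) ≠ 0) (hE : EtaleAt k A (cellCoord z i j m)) {i' j' : Fin 10}
    {m' : Fin 4} (hu : ¬ A.valuation (z (cellIdx i' j' m') / z (cellIdx i j m)) < 1) :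
    z (cellIdx i' j' m') ≠ 0 ∧ EtaleAt k A (cellCoord z i' j' m') := by
  have hE1 := hE.1
  have hm := div_mem_of_cell hk h hc hE1
  have hle : A.valuation (z (cellIdx i' j' m') / z (cellIdx i j m)) ≤ 1 :=
    (A.valuation_le_one_iff _).mpr (hm _)
  have h1 : A.valuation (z (cellIdx i' j' m') / z (cellIdx i j m)) = 1 :=
    le_antisymm hle (not_lt.mp hu)
  have hc' : z (cellIdx i' j' m') ≠ 0 := by
    intro h0
    rw [h0, zero_div, map_zero] at h1
    exact zero_ne_one h1
  refine ⟨hc', etaleAt_change hk h hc hE hc' fun s => ?_⟩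
  rw [cellCoord_eq]
  have e : z (coordIdx i' j' m' s) / z (cellIdx i' j' m') =
      z (coordIdx i' j' m' s) / z (cellIdx i j m) *
        (z (cellIdx i' j' m') / z (cellIdx i j m))⁻¹ := by
    rw [inv_div, div_mul_div_cancel₀ hc]
  rw [e]
  refine mul_mem (hm _) ?_
  rw [← A.valuation_le_one_iff, map_inv₀, h1, inv_one]

/-- If some coordinate `z (S, (i', j'))` is a unit (relative to `z_c`) then `A` is etale for one of
the cells `(i', j', m')` (`exists_residue_pt`, `exists_m`, `cell_of_unit`). -/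
theorem exists_cell_of_unit (hk : ∀ r : k, algebraMap k K r ∈ A) (h : Rel z)
    (hc : z (cellIdx i j m) ≠ 0) (hE : EtaleAt k A (cellCoord z i j m))
    {S : Fin 10 × Fin 10 × Fin 10} {i' j' : Fin 10}
    (hu : ¬ A.valuation (z (S, (i', j')) / z (cellIdx i j m)) < 1) :
    ∃ m' : Fin 4, z (cellIdx i' j' m') ≠ 0 ∧ EtaleAt k A (cellCoord z i' j' m') := by
  obtain ⟨κ, _, zb, hrel, hz⟩ := exists_residue_pt hk h hc hE.1
  have h0 : zb (S, (i', j')) ≠ 0 := fun h0 => hu ((hz _).mp h0)
  obtain ⟨m', hm'⟩ := exists_m hrel h0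
  exact ⟨m', cell_of_unit hk h hc hE fun hlt => hm' ((hz _).mpr hlt)⟩

/-- Exchange of the basis vectors (`cell_swap`, `cell_of_unit`). -/
theorem etale_swap (hk : ∀ r : k, algebraMap k K r ∈ A) (h : Rel z)
    (hc : z (cellIdx i j m) ≠ 0) (hE : EtaleAt k A (cellCoord z i j m)) :
    z (cellIdx j i m.rev) ≠ 0 ∧ EtaleAt k A (cellCoord z j i m.rev) := by
  refine cell_of_unit hk h hc hE ?_
  rw [cell_swap h, neg_div, div_self hc, Valuation.map_neg, map_one]
  exact lt_irrefl _

variable [CharZero k]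

/-- Step 1: pivot `0`. If `i, j ≠ 0`, then `E_0 = z(c1, (0, j)) / z_c` and
`E'_0 = z(c1, (i, 0)) / z_c` are two different coordinates of the cell, not both in the maximal
ideal (`val_var`). -/
theorem mv_step1 (h : IsGenX k z) (hA : A ∈ VSet k z) : ∃ (j : Fin 10) (m : Fin 4), j ≠ 0 ∧
    EtaleAt k A (cellCoord z 0 j m) := by
  obtain ⟨hD, i, j, m, hij, hc, hE⟩ := hA
  have hk := hD.1
  by_cases hi : i = 0
  · subst hi
    exact ⟨j, m, hij.symm, hE⟩
  by_cases hj : j = 0
  · subst hj
    exact ⟨i, m.rev, hij, (etale_swap hk h.rel hc hE).2⟩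
  by_cases h0 : A.valuation (cellCoord z i j m (Sum.inl ⟨0, Ne.symm hi, Ne.symm hj⟩)) < 1
  · have h1 := val_var (h.indep_cell hij m) (h.gen_cell hij m) hD hE
      (t := Sum.inr (Sum.inl ⟨0, Ne.symm hi, Ne.symm hj⟩)) (by simp) h0
    obtain ⟨m', hc', hE'⟩ := exists_cell_of_unit (S := cubIdx i j m) (i' := i) (j' := 0)
      hk h.rel hc hE (by
        intro hlt
        exact absurd h1 (ne_of_lt hlt))
    exact ⟨i, m'.rev, hi, (etale_swap hk h.rel hc' hE').2⟩
  · obtain ⟨m', hc', hE'⟩ := exists_cell_of_unit (S := cubIdx i j m) (i' := 0) (j' := j)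
      hk h.rel hc hE h0
    exact ⟨j, m', hj, hE'⟩

/-- Step 2: second index `1`, or `2` with `E'_1` in the maximal ideal and `m = 0`. In the cell
`(0, j, m)`, `j ≠ 1`, the coordinate `E'_1 = z(c1, (0, 1)) / z_c` is a unit (then `(0, 1)`), or it
is in the maximal ideal; then `j = 2` or `E'_2` is a unit, so `A` is etale for some `(0, 2, m')`, where
`E'_1` is in the maximal ideal again (Segre relation), so the coordinate `γ_0` (if `m' ≠ 0`) is a
unit and `A` is etale for `(0, 2, 0)`. -/
theorem mv_step2 (h : IsGenX k z) (hA : A ∈ VSet k z) :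
    (∃ m : Fin 4, EtaleAt k A (cellCoord z 0 1 m)) ∨
      (EtaleAt k A (cellCoord z 0 2 0) ∧ A.valuation (cellE' z 0 2 0 1) < 1) := by
  have hD := hA.1
  have hk := hD.1
  by_cases hL : ∃ m : Fin 4, EtaleAt k A (cellCoord z 0 1 m)
  · exact Or.inl hL
  have key : ∀ (j : Fin 10) (m : Fin 4), j ≠ 0 → EtaleAt k A (cellCoord z 0 j m) →
      A.valuation (cellE' z 0 j m 1) < 1 := by
    intro j m hj hE
    by_contra hu
    obtain ⟨m', -, hE'⟩ := exists_cell_of_unit (S := cubIdx 0 j m) (i' := 0) (j' := 1)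
      hk h.rel (h.cell_ne (Ne.symm hj) m) hE hu
    exact hL ⟨m', hE'⟩
  have h02 : (0 : Fin 10) ≠ 2 := by decide
  have h2 : ∃ m : Fin 4, EtaleAt k A (cellCoord z 0 2 m) := by
    obtain ⟨j, m, hj, hE⟩ := mv_step1 h hA
    have hj1 : j ≠ 1 := by
      rintro rfl
      exact hL ⟨m, hE⟩
    by_cases hj2 : j = 2
    · subst hj2
      exact ⟨m, hE⟩
    have h1 := val_var (h.indep_cell (Ne.symm hj) m) (h.gen_cell (Ne.symm hj) m) hD hE
      (s := Sum.inr (Sum.inl ⟨1, by decide, Ne.symm hj1⟩))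
      (t := Sum.inr (Sum.inl ⟨2, by decide, Ne.symm hj2⟩)) (by simp) (key j m hj hE)
    obtain ⟨m', -, hE'⟩ := exists_cell_of_unit (S := cubIdx 0 j m) (i' := 0) (j' := 2)
      hk h.rel (h.cell_ne (Ne.symm hj) m) hE (by
        intro hlt
        exact absurd h1 (ne_of_lt hlt))
    exact ⟨m', hE'⟩
  obtain ⟨m, hE⟩ := h2
  have h3 : EtaleAt k A (cellCoord z 0 2 0) := by
    by_cases hm : m = 0
    · subst hm
      exact hE
    have h1 := val_var (h.indep_cell h02 m) (h.gen_cell h02 m) hD hE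
      (s := Sum.inr (Sum.inl ⟨1, by decide, by decide⟩))
      (t := Sum.inr (Sum.inr ⟨0, Ne.symm hm⟩)) (by simp) (key 2 m h02.symm hE)
    exact (cell_of_unit hk h.rel (h.cell_ne h02 m) hE (by
      intro hlt
      exact absurd h1 (ne_of_lt hlt))).2
  exact Or.inr ⟨h3, key 2 0 h02.symm h3⟩

/-- **Moves.** In the cell `(0, 1, m)`, `m ≠ 0`: the coordinate `γ_0` is a unit (then `(0, 1, 0)`) or
in the maximal ideal; then `m = 3` or the coordinate `γ_3` is a unit, so `A` is etale for `(0, 1, 3)`,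
where `γ_0` is in the maximal ideal. -/
theorem moves (h : IsGenX k z) (hA : A ∈ VSet k z) :
    EtaleAt k A (cellCoord z 0 1 0) ∨
      (EtaleAt k A (cellCoord z 0 2 0) ∧ A.valuation (cellE' z 0 2 0 1) < 1) ∨
      (EtaleAt k A (cellCoord z 0 1 3) ∧ A.valuation (cellG z 0 1 3 0) < 1) := by
  have hD := hA.1
  have hk := hD.1
  rcases mv_step2 h hA with ⟨m, hE⟩ | h2
  · by_cases h0 : EtaleAt k A (cellCoord z 0 1 0)
    · exact Or.inl h0
    have h01 : (0 : Fin 10) ≠ 1 := by decide
    have key : ∀ m : Fin 4, EtaleAt k A (cellCoord z 0 1 m) →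
        A.valuation (cellG z 0 1 m 0) < 1 := by
      intro m hE
      by_contra hu
      exact h0 (cell_of_unit hk h.rel (h.cell_ne h01 m) hE hu).2
    have hm : m ≠ 0 := by
      rintro rfl
      exact h0 hE
    have h3 : EtaleAt k A (cellCoord z 0 1 3) := by
      by_cases hm3 : m = 3
      · subst hm3
        exact hE
      have h1 := val_var (h.indep_cell h01 m) (h.gen_cell h01 m) hD hE
        (s := Sum.inr (Sum.inr ⟨0, Ne.symm hm⟩))
        (t := Sum.inr (Sum.inr ⟨3, Ne.symm hm3⟩)) (by simp) (key m hE)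
      exact (cell_of_unit hk h.rel (h.cell_ne h01 m) hE (by
        intro hlt
        exact absurd h1 (ne_of_lt hlt))).2
    exact Or.inr (Or.inr ⟨h3, key 3 h3⟩)
  · exact Or.inr (Or.inl h2)

end MP9a7843
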