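import Pool.Agent.Lib.MP_9a7843_ag_A.Exports
import Pool.Agent.Lib.MP_9a7843_ag_X.Mv

/-!
# MP_9a7843_ag, block X, module Pic: the class lemma for `K_X`
-/

noncomputable section

open MvPolynomial

namespace MP9a7843

universe u

variable {k : Type u} [Field k] {K : Type u} [Field K] [Algebra k K] {z : Idx → K}
  {A : ValuationSubring K}

private theorem pic_ord_mul (hA : IsDVRof k A) {x u u' : K} (hu : u ∈ A) (hu' : u' ∈ A)
    (h1 : u * u' = 1) : ord A (x * u) = ord A x := by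
  have hu0 : u ≠ 0 := left_ne_zero_of_mul_eq_one h1
  have hinv : u⁻¹ = u' := inv_eq_of_mul_eq_one_right h1
  by_cases hx : x = 0
  · rw [hx, zero_mul]
  · rw [hA.ord_mul hx hu0, hA.ord_eq_of_val ((val_eq_one_iff hu0).2 ⟨hu, by rwa [hinv]⟩), add_zero]

/-- The order of `ξ` does not depend on the cell: for two cells `c`, `c'` with coordinates in `A` all
`z_I / z_c` and `z_I / z_c'` are in `A` (`div_mem_of_cell`), so with `c = (S, P)`, `c' = (S', P')` the
quotient of `z((0,0,0), P) / z(S, P)` and `z((0,0,0), P') / z(S', P')` is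
`z(S', P) / z(S, P)` (Segre), which is in `A`, as well as its inverse `z(S, P') / z(S', P')`. -/
theorem ord_xi_eq (hA : IsDVRof k A) (h : Rel z) {i j i' j' : Fin 10} {m m' : Fin 4}
    (hc : z (cellIdx i j m) ≠ 0) (hc' : z (cellIdx i' j' m') ≠ 0)
    (hx : ∀ s, cellCoord z i j m s ∈ A) (hx' : ∀ s, cellCoord z i' j' m' s ∈ A) :
    ord A (z ((0, 0, 0), (i, j)) / z (cellIdx i j m)) =
      ord A (z ((0, 0, 0), (i', j')) / z (cellIdx i' j' m')) := by
  have hu : z (cubIdx i' j' m', (i, j)) / z (cellIdx i j m) ∈ A :=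
    div_mem_of_cell hA.1 h hc hx _
  have hu' : z (cubIdx i j m, (i', j')) / z (cellIdx i' j' m') ∈ A :=
    div_mem_of_cell hA.1 h hc' hx' _
  have e1 := h.segre (cubIdx i' j' m') (cubIdx i j m) (i, j) (i', j')
  have e2 := h.segre (0, 0, 0) (cubIdx i' j' m') (i, j) (i', j')
  have h1 : z (cubIdx i' j' m', (i, j)) / z (cellIdx i j m) *
      (z (cubIdx i j m, (i', j')) / z (cellIdx i' j' m')) = 1 := by
    rw [div_mul_div_comm, div_eq_one_iff_eq (mul_ne_zero hc hc'), e1]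
    exact mul_comm _ _
  rw [← pic_ord_mul hA (x := z ((0, 0, 0), (i', j')) / z (cellIdx i' j' m')) hu hu' h1]
  congr 1
  rw [div_mul_div_comm, div_eq_div_iff hc (mul_ne_zero hc' hc)]
  change z (cubIdx i' j' m', (i', j')) ≠ 0 at hc'
  change z ((0, 0, 0), (i, j)) * (z (cubIdx i' j' m', (i', j')) * z (cellIdx i j m)) = _
  linear_combination z (cellIdx i j m) * e2

/-- The same for `H`. -/
theorem ord_H_eq (hA : IsDVRof k A) (h : Rel z) {i j i' j' : Fin 10} {m m' : Fin 4}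
    (hc : z (cellIdx i j m) ≠ 0) (hc' : z (cellIdx i' j' m') ≠ 0)
    (hx : ∀ s, cellCoord z i j m s ∈ A) (hx' : ∀ s, cellCoord z i' j' m' s ∈ A) :
    ord A (z (cubIdx i j m, (0, 1)) / z (cellIdx i j m)) =
      ord A (z (cubIdx i' j' m', (0, 1)) / z (cellIdx i' j' m')) := by
  have hu : z (cubIdx i j m, (i', j')) / z (cellIdx i j m) ∈ A :=
    div_mem_of_cell hA.1 h hc hx _
  have hu' : z (cubIdx i' j' m', (i, j)) / z (cellIdx i' j' m') ∈ A :=
    div_mem_of_cell hA.1 h hc' hx' _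
  have e1 := h.segre (cubIdx i j m) (cubIdx i' j' m') (i', j') (i, j)
  have e2 := h.segre (cubIdx i j m) (cubIdx i' j' m') (0, 1) (i', j')
  have h1 : z (cubIdx i j m, (i', j')) / z (cellIdx i j m) *
      (z (cubIdx i' j' m', (i, j)) / z (cellIdx i' j' m')) = 1 := by
    rw [div_mul_div_comm, div_eq_one_iff_eq (mul_ne_zero hc hc'), e1]
    rfl
  rw [← pic_ord_mul hA (x := z (cubIdx i' j' m', (0, 1)) / z (cellIdx i' j' m')) hu hu' h1]
  congr 1
  rw [div_mul_div_comm, div_eq_div_iff hc (mul_ne_zero hc' hc)]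
  change z (cubIdx i' j' m', (i', j')) ≠ 0 at hc'
  change z (cubIdx i j m, (0, 1)) * (z (cubIdx i' j' m', (i', j')) * z (cellIdx i j m)) = _
  linear_combination z (cellIdx i j m) * e2

variable [CharZero k]

/-- The class lemma. Let `φ` have the orders `n A` on the main cell (`exists_ord_eq`). Let `A_1` be the
discrete valuation ring of the coordinate `E'_1` of the cell `(0, 2, 0)`, and `A_2` that of the
coordinate `γ_0` of the cell `(0, 1, 3)` (`exists_var`; they are unique by `isLocAt_X`,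
`IsLocAt.unique`). Put `b = n A_1 - ord A_1 φ`, `a = n A_2 - ord A_2 φ`. By `ord_xi_eq`, `ord_H_eq` one
special cell for each case of `moves` suffices: in the main cell both functions are `1`; at `A_1`, in
the cell `(0, 2, 0)`, they are `1` and `E'_1`, of order `1` (`ord_var`); at `A_2`, in the cell
`(0, 1, 3)`, they are `γ_0` and `1`. -/
theorem pic_X (h : IsGenX k z) (n : ValuationSubring K → ℤ)
    (hn : {A : ValuationSubring K |
      IsDVRof k A ∧ EtaleAt k A (cellCoord z 0 1 0) ∧ n A ≠ 0}.Finite) :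
    ∃ (a b : ℤ) (φ : K), φ ≠ 0 ∧ ∀ A ∈ VSet k z, ∀ (i j : Fin 10) (m : Fin 4), i ≠ j →
      z (cellIdx i j m) ≠ 0 → (∀ s, cellCoord z i j m s ∈ A) →
      n A = a * ord A (z ((0, 0, 0), (i, j)) / z (cellIdx i j m)) +
        b * ord A (z (cubIdx i j m, (0, 1)) / z (cellIdx i j m)) + ord A φ := by
  have h02 : (0 : Fin 10) ≠ 2 := by decide
  have h01 : (0 : Fin 10) ≠ 1 := by decide
  obtain ⟨ψ, hψ0, hψ⟩ := exists_ord_eq h.indep h.gen n hn
  obtain ⟨A₁, hA₁, -, hL₁, ho₁⟩ := exists_var (h.indep_cell h02 0) (h.gen_cell h02 0)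
    (Sum.inr (Sum.inl ⟨1, by decide, by decide⟩))
  obtain ⟨A₂, hA₂, -, hL₂, ho₂⟩ := exists_var (h.indep_cell h01 3) (h.gen_cell h01 3)
    (Sum.inr (Sum.inr ⟨0, by decide⟩))
  refine ⟨n A₂ - ord A₂ ψ, n A₁ - ord A₁ ψ, ψ, hψ0, fun A hA i j m hij hc hx => ?_⟩
  have hD : IsDVRof k A := hA.1
  rcases moves h hA with hE | ⟨hE, hv⟩ | ⟨hE, hv⟩
  · have hc0 := h.cell_ne h01 0
    rw [ord_xi_eq hD h.rel hc hc0 hx hE.1, ord_H_eq hD h.rel hc hc0 hx hE.1]
    have e1 : z ((0, 0, 0), (0, 1)) / z (cellIdx 0 1 0) = 1 := div_self hc0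
    have e2 : z (cubIdx 0 1 0, (0, 1)) / z (cellIdx 0 1 0) = 1 := div_self hc0
    rw [e1, e2, hD.ord_one, mul_zero, mul_zero, zero_add, zero_add]
    exact hψ A hD hE
  · have hc0 := h.cell_ne h02 0
    rw [ord_xi_eq hD h.rel hc hc0 hx hE.1, ord_H_eq hD h.rel hc hc0 hx hE.1]
    have hAA : A = A₁ := IsLocAt.unique (isLocAt_X (h.indep_cell h02 0) (h.gen_cell h02 0) hD hE
      (s := Sum.inr (Sum.inl ⟨1, by decide, by decide⟩)) hv) hL₁
    subst hAA
    have e1 : z ((0, 0, 0), (0, 2)) / z (cellIdx 0 2 0) = 1 := div_self hc0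
    have e2 : ord A (z (cubIdx 0 2 0, (0, 1)) / z (cellIdx 0 2 0)) = 1 := ho₁
    rw [e1, e2, hD.ord_one]
    ring
  · have hc0 := h.cell_ne h01 3
    rw [ord_xi_eq hD h.rel hc hc0 hx hE.1, ord_H_eq hD h.rel hc hc0 hx hE.1]
    have hAA : A = A₂ := IsLocAt.unique (isLocAt_X (h.indep_cell h01 3) (h.gen_cell h01 3) hD hE
      (s := Sum.inr (Sum.inr ⟨0, by decide⟩)) hv) hL₂
    subst hAA
    have e1 : ord A (z ((0, 0, 0), (0, 1)) / z (cellIdx 0 1 3)) = 1 := ho₂
    have e2 : z (cubIdx 0 1 3, (0, 1)) / z (cellIdx 0 1 3) = 1 := div_self hc0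
    rw [e1, e2, hD.ord_one]
    ring

/-- The export (the support is finite by `finite_ord_ne` for the finitely many functions of `Φ`). -/
theorem classLemma_X (h : IsGenX k z) : ClassLemma k z := by
  intro n Φ hΦ hn
  refine pic_X h n ?_
  refine Set.Finite.subset (Set.Finite.biUnion (Finset.finite_toSet Φ)
    (t := fun φ => {A : ValuationSubring K |
      IsDVRof k A ∧ EtaleAt k A (cellCoord z 0 1 0) ∧ ord A φ ≠ 0})
    (fun φ hφ => finite_ord_ne h.indep h.gen (hΦ φ hφ))) ?_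
  rintro A ⟨hA, hE, hnA⟩
  obtain ⟨φ, hφ, e⟩ := hn A ⟨hA, 0, 1, 0, by decide, h.ne, hE⟩
  exact Set.mem_biUnion hφ ⟨hA, hE, fun h0 => hnA (e.trans h0)⟩

end MP9a7843
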