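import Pool.Agent.Lib.MP_9a7843_ag_X.Dv
import Pool.Agent.Lib.MP_9a7843_ag_X.Aff
import Pool.Agent.Lib.MP_9a7843_ag_X.Pic
import Pool.Agent.Lib.MP_9a7843_ag_D.Krull

/-!
# MP_9a7843_ag, block X, module PicX: every Cartier divisor on `X` is `∼ a ξ + b H`
-/

noncomputable section

open MvPolynomial

open Pool.Agent.MP9a7843 Pool.Agent.MP9a7843.ProjVar

namespace MP9a7843

universe u

variable {k : Type u} [Field k] [CharZero k]

private theorem px_ord_zero {K : Type u} [Field K] [Algebra k K] {A : ValuationSubring K}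
    (hA : IsDVRof k A) {x : K} (hx : x ≠ 0) : ord A x = 0 ↔ x ∈ A ∧ x⁻¹ ∈ A := by
  rw [hA.ord_eq_zero_iff hx, val_eq_one_iff hx]

private theorem px_ord_eq {K : Type u} [Field K] [Algebra k K] {A : ValuationSubring K}
    (hA : IsDVRof k A) {x y : K} (hx : x ≠ 0) (hy : y ≠ 0) (h : x / y ∈ A) (h' : y / x ∈ A) :
    ord A x = ord A y := by
  have h1 : ord A (x / y) = 0 := by
    rw [px_ord_zero hA (div_ne_zero hx hy), inv_div]
    exact ⟨h, h'⟩
  rw [hA.ord_div hx hy] at h1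
  omega

private theorem px_deriv_div {K : Type u} [Field K] [Algebra k K] {A : ValuationSubring K}
    (δ : Derivation k K K) {x y : K} (hx : x ∈ A) (hδx : δ x ∈ A) (hy : y⁻¹ ∈ A)
    (hδy : δ y ∈ A) : δ (x / y) ∈ A := by
  rw [div_eq_mul_inv, Derivation.leibniz, Derivation.leibniz_inv]
  simp only [smul_eq_mul]
  refine add_mem (mul_mem hx (mul_mem ?_ hδy)) (mul_mem hy hδx)
  exact neg_mem (pow_mem hy 2)

/-- A discrete valuation ring which contains the local ring of a point `y` and consists of quotients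
of elements of it is etale for the cells of `y`: a derivation which maps the coordinates into `A`
maps `loc y` into `A` (`mem_loc_XX`: `P / Q` with `Q⁻¹ ∈ loc y`), hence `A` into `A`. -/
theorem etaleAt_of_loc {A : ValuationSubring (XX k).K} {y : Idx → k} (hy : (XX k).IsPt y)
    (h1 : ∀ r ∈ (XX k).loc y, r ∈ A)
    (h2 : ∀ b ∈ A, ∃ r ∈ (XX k).loc y, ∃ s ∈ (XX k).loc y, s ≠ 0 ∧ s⁻¹ ∈ A ∧ b = r / s)
    {i j : Fin 10} {m : Fin 4} (hc : y (cellIdx i j m) ≠ 0) :
    EtaleAt k A (cellCoord (XX k).z i j m) := by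
  refine ⟨fun x => h1 _ (cellCoord_mem_loc hc x), ?_⟩
  intro δ hδ b hb
  have key : ∀ P : MvPolynomial (CellVar i j m) k,
      δ (aeval (cellCoord (XX k).z i j m) P) ∈ A := by
    intro P
    induction P using MvPolynomial.induction_on with
    | C r =>
      rw [aeval_C, Derivation.map_algebraMap]
      exact zero_mem _
    | add p q hp hq =>
      rw [map_add, map_add]
      exact add_mem hp hq
    | mul_X p x hp =>
      rw [map_mul, aeval_X, Derivation.leibniz, smul_eq_mul, smul_eq_mul]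
      exact add_mem (mul_mem (h1 _ (hasValue_poly hy hc p).mem_loc) (hδ x))
        (mul_mem (h1 _ (cellCoord_mem_loc hc x)) hp)
  have hloc : ∀ r ∈ (XX k).loc y, δ r ∈ A := by
    intro r hr
    obtain ⟨P, Q, hQ, rfl⟩ := (mem_loc_XX hy hc).1 hr
    exact px_deriv_div δ (h1 _ (hasValue_poly hy hc P).mem_loc) (key P)
      (h1 _ ((hasValue_poly hy hc Q).inv hy hQ).mem_loc) (key Q)
  obtain ⟨r, hr, s, hs, hs0, hsA, rfl⟩ := h2 b hb
  exact px_deriv_div δ (h1 r hr) (hloc r hr) hsA (hloc s hs)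

private theorem px_mem_of_ord {y : Idx → k} (hy : (XX k).IsPt y) {ψ : (XX k).K} (hψ : ψ ≠ 0)
    (h : ∀ A ∈ VSet k (XX k).z, (∀ r ∈ (XX k).loc y, r ∈ A) → ord A ψ = 0) :
    ψ ∈ (XX k).loc y := by
  by_contra hcon
  have i1 := isNoetherianRing_loc hy
  have i2 := isIntegrallyClosed_loc_XX hy
  obtain ⟨A, hA, hle, hψA, hb⟩ := exists_dvr_not_mem ((XX k).loc y)
    (fun x => by
      obtain ⟨r, hr, s, hs, hs0, e⟩ := exists_loc_div hy x
      exact ⟨r, hr, s, hs, hs0, e⟩) hcon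
  obtain ⟨i, j, m, hij, hc⟩ := exists_cell_pt hy
  have hV : A ∈ VSet k (XX k).z :=
    ⟨hA, i, j, m, hij, z_ne_zero hy hc, etaleAt_of_loc hy hle hb hc⟩
  exact hψA ((px_ord_zero hA hψ).1 (h A hV hle)).1

/-- A function `ψ ≠ 0` with order `0` for all `A ∈ VSet` which contain `loc y` is a unit of `loc y`:
Krull: `exists_dvr_not_mem` for `R = loc y` (Noetherian, `isIntegrallyClosed_loc_XX`), for `ψ`
and `ψ⁻¹`, with `etaleAt_of_loc`. -/
theorem unitAt_of_ord {y : Idx → k} (hy : (XX k).IsPt y) {ψ : (XX k).K} (hψ : ψ ≠ 0)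
    (h : ∀ A ∈ VSet k (XX k).z, (∀ r ∈ (XX k).loc y, r ∈ A) → ord A ψ = 0) :
    (XX k).UnitAt y ψ := by
  refine ⟨px_mem_of_ord hy hψ h, px_mem_of_ord hy (inv_ne_zero hψ) ?_⟩
  intro A hA hle
  rw [hA.1.ord_inv, h A hA hle, neg_zero]

/-- The orders of the local equations of a Cartier divisor do not depend on the centre
(`CaDiv.ratio_mem` with `c = z`, both quotients). -/
theorem ord_eq_of_centres [IsAlgClosed k] (D : (XX k).CaDiv) {A : ValuationSubring (XX k).K}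
    (hA : IsDVRof k A) {y y' : Idx → k} (hy : (XX k).IsPt y) (hy' : (XX k).IsPt y')
    (h : ∀ r ∈ (XX k).loc y, r ∈ A) (h' : ∀ r ∈ (XX k).loc y', r ∈ A) :
    ord A (D.eq y) = ord A (D.eq y') := by
  have g : ∀ r ∈ (XX k).loc y, (XX k).ev (XX k).z r ∈ A := fun r hr => by
    rw [ev_z]
    exact h r hr
  have g' : ∀ r ∈ (XX k).loc y', (XX k).ev (XX k).z r ∈ A := fun r hr => by
    rw [ev_z]
    exact h' r hr
  have h1 := (D.ratio_mem isPt_z A hA.1 hy hy' (spec_z hy) (spec_z hy') g g').2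
  have h2 := (D.ratio_mem isPt_z A hA.1 hy' hy (spec_z hy') (spec_z hy) g' g).2
  rw [ev_z] at h1 h2
  exact px_ord_eq hA (D.eq_ne_zero y hy) (D.eq_ne_zero y' hy') h1 h2

/-- Let `n A = ord A (D.eq y)` for a point `y` with `loc y ⊂ A` (`exists_centre_z`); it is well
defined by `ord_eq_of_centres` and one of finitely many functions (`CaDiv.exists_finite`), so
`classLemma_X` applies (with `isGenX_XX`). At a point `y` of the cell `c` the function
`ψ = D.eq y / (ξ^a H^b φ)` has order `0` at all `A ∈ VSet` which contain `loc y` (`XiDiv_unit`,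
`HDiv_unit` with `I = cellIdx i j m`; the coordinates of the cell lie in `loc y ⊂ A`), so it is a unit
(`unitAt_of_ord`). -/
theorem exists_pic [IsAlgClosed k] (D : (XX k).CaDiv) : ∃ (p : ℤ × ℤ) (φ : (XX k).K), φ ≠ 0 ∧
    ∀ y : Idx → k, (XX k).IsPt y →
      (XX k).UnitAt y (D.eq y / ((XiDiv k).eq y ^ p.1 * (HDiv k).eq y ^ p.2 * φ)) := by
  classical
  let n : ValuationSubring (XX k).K → ℤ := fun A =>
    if h : ∃ y : Idx → k, (XX k).IsPt y ∧ ∀ r ∈ (XX k).loc y, r ∈ A then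
      ord A (D.eq h.choose) else 0
  have hn : ∀ A : ValuationSubring (XX k).K, IsDVRof k A → ∀ y : Idx → k, (XX k).IsPt y →
      (∀ r ∈ (XX k).loc y, r ∈ A) → n A = ord A (D.eq y) := by
    intro A hA y hy hle
    have hex : ∃ y : Idx → k, (XX k).IsPt y ∧ ∀ r ∈ (XX k).loc y, r ∈ A := ⟨y, hy, hle⟩
    have e : n A = ord A (D.eq hex.choose) := dif_pos hex
    rw [e]
    exact ord_eq_of_centres D hA hex.choose_spec.1 hy hex.choose_spec.2 hle
  obtain ⟨s, hs1, hs2⟩ := D.exists_finite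
  obtain ⟨a, b, φ, hφ, hcl⟩ := classLemma_X (isGenX_XX (k := k)) n (s.image D.eq)
    (by
      intro φ hφ
      obtain ⟨y, hy, rfl⟩ := Finset.mem_image.1 hφ
      exact D.eq_ne_zero y (hs1 y hy))
    (by
      intro A hA
      obtain ⟨y0, hy0, hle⟩ := exists_centre_z A hA.1.1
      obtain ⟨y, hy, h1, h2⟩ := hs2 y0 hy0
      refine ⟨D.eq y, Finset.mem_image_of_mem _ hy, ?_⟩
      rw [hn A hA.1 y0 hy0 hle]
      exact px_ord_eq hA.1 (D.eq_ne_zero y0 hy0) (D.eq_ne_zero y (hs1 y hy)) (hle _ h1)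
        (hle _ h2))
  refine ⟨(a, b), φ, hφ, ?_⟩
  intro y hy
  obtain ⟨i, j, m, hij, hc⟩ := exists_cell_pt hy
  have hx0 : (XiDiv k).eq y ≠ 0 := (XiDiv k).eq_ne_zero y hy
  have hh0 : (HDiv k).eq y ≠ 0 := (HDiv k).eq_ne_zero y hy
  have hD0 : D.eq y ≠ 0 := D.eq_ne_zero y hy
  have hz : (XX k).z (cellIdx i j m) ≠ 0 := z_ne_zero hy hc
  have hzc := z_xi_ne (A := cubIdx i j m) (P := (i, j)) hz
  have hxn : (XiDiv k).eq y ^ a ≠ 0 := zpow_ne_zero _ hx0
  have hhn : (HDiv k).eq y ^ b ≠ 0 := zpow_ne_zero _ hh0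
  refine unitAt_of_ord hy (div_ne_zero hD0 (mul_ne_zero (mul_ne_zero hxn hhn) hφ)) ?_
  intro A hA hle
  have hAd := hA.1
  have e1 : ord A ((XiDiv k).eq y) =
      ord A ((XX k).z ((0, 0, 0), (i, j)) / (XX k).z (cellIdx i j m)) := by
    have hu := XiDiv_unit hy hc
    have hu1 := hle _ hu.1
    have hu2 := hle _ hu.2
    rw [inv_div] at hu2
    exact px_ord_eq hAd hx0 (div_ne_zero hzc.1 hz) hu1 hu2
  have e2 : ord A ((HDiv k).eq y) =
      ord A ((XX k).z (cubIdx i j m, (0, 1)) / (XX k).z (cellIdx i j m)) := by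
    have hu := HDiv_unit hy hc
    have hu1 := hle _ hu.1
    have hu2 := hle _ hu.2
    rw [inv_div] at hu2
    exact px_ord_eq hAd hh0 (div_ne_zero hzc.2 hz) hu1 hu2
  have e3 := hcl A hA i j m hij hz (fun x => hle _ (cellCoord_mem_loc hc x))
  rw [hn A hAd y hy hle, ← e1, ← e2] at e3
  rw [hAd.ord_div hD0 (mul_ne_zero (mul_ne_zero hxn hhn) hφ),
    hAd.ord_mul (mul_ne_zero hxn hhn) hφ, hAd.ord_mul hxn hhn, hAd.ord_zpow, hAd.ord_zpow, e3]
  ring

end MP9a7843
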