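import Pool.Agent.Lib.MP_9a7843_ag_A.Exports
import Pool.Agent.Lib.MP_9a7843_ag_X.Fam
import Pool.Agent.Lib.MP_9a7843_ag_X.Disc
import Pool.Agent.Lib.MP_9a7843_ag_X.PicX

/-!
# MP_9a7843_ag, block X, module Cls: `N_1(X)`, `N_1(X)_ℤ`, `Nef_1(X)`
-/

noncomputable section

open MvPolynomial

open Pool.Agent.MP9a7843 Pool.Agent.MP9a7843.ProjVar

namespace MP9a7843

universe u

variable (k : Type u) [Field k]

/-- `(a, b)` with `D ∼ a ξ + b H`. -/
def picPair (D : (XX k).CaDiv) : ℤ × ℤ :=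
  Classical.epsilon fun p => ∃ φ : (XX k).K, φ ≠ 0 ∧ ∀ y : Idx → k, (XX k).IsPt y →
    (XX k).UnitAt y (D.eq y / ((XiDiv k).eq y ^ p.1 * (HDiv k).eq y ^ p.2 * φ))

/-- The class of `1`-cycles with `ξ ↦ e`, `H ↦ h`. -/
def cl (e h : ℝ) (D : (XX k).CaDiv) : ℝ := (picPair k D).1 * e + (picPair k D).2 * h

variable {k}

theorem cl_sub (e h e' h' : ℝ) : cl k e h - cl k e' h' = cl k (e - e') (h - h') := by
  funext D
  simp only [cl, Pi.sub_apply]
  ring

theorem cl_add (e h e' h' : ℝ) : cl k e h + cl k e' h' = cl k (e + e') (h + h') := by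
  funext D
  simp only [cl, Pi.add_apply]
  ring

theorem cl_smul (r e h : ℝ) : r • cl k e h = cl k (r * e) (r * h) := by
  funext D
  simp only [cl, Pi.smul_apply, smul_eq_mul]
  ring

variable [IsAlgClosed k] [CharZero k]

theorem picPair_spec (D : (XX k).CaDiv) : ∃ φ : (XX k).K, φ ≠ 0 ∧ ∀ y : Idx → k,
    (XX k).IsPt y → (XX k).UnitAt y (D.eq y /
      ((XiDiv k).eq y ^ (picPair k D).1 * (HDiv k).eq y ^ (picPair k D).2 * φ)) := by
  exact Classical.epsilon_spec (p := fun p : ℤ × ℤ => ∃ φ : (XX k).K, φ ≠ 0 ∧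
    ∀ y : Idx → k, (XX k).IsPt y →
      (XX k).UnitAt y (D.eq y / ((XiDiv k).eq y ^ p.1 * (HDiv k).eq y ^ p.2 * φ))) (exists_pic D)

/-- The class of every curve (`picPair_spec`, `deg_linEquiv`, `deg_add`, `deg_zsmul`). -/
theorem deg_eq_cl {F : Type u} [Field F] [Algebra k F] {c : Idx → F} (hF : IsCurveField k F)
    (hc : (XX k).IsPt c) (D : (XX k).CaDiv) : ((XX k).deg c D : ℝ) =
      cl k ((XX k).deg c (XiDiv k) : ℝ) ((XX k).deg c (HDiv k) : ℝ) D := by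
  obtain ⟨φ, hφ, h⟩ := picPair_spec D
  have h1 := deg_linEquiv hF hc (D := D)
    (E := ((XiDiv k).zsmul (picPair k D).1).add ((HDiv k).zsmul (picPair k D).2)) hφ h
  rw [h1, deg_add hF hc, deg_zsmul hF hc, deg_zsmul hF hc, cl]
  push_cast
  ring

private theorem cls_curve {C : (XX k).Curve} {e h : ℤ} (h1 : (XX k).deg C.c (XiDiv k) = e)
    (h2 : (XX k).deg C.c (HDiv k) = h) :
    (fun D => ((XX k).deg C.c D : ℝ)) = cl k (e : ℝ) (h : ℝ) := by
  funext D
  rw [deg_eq_cl C.isCurveField C.isPt D, h1, h2]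

private theorem cls_one : aeval (XX k).z (1 : MvPolynomial Idx k) ≠ 0 := by
  have h : aeval (XX k).z (1 : MvPolynomial Idx k) = 1 :=
    map_one (aeval (R := k) (show Idx → (XX k).K from (XX k).z))
  exact h.trans_ne one_ne_zero

private theorem cls_c10 : ∃ C : (XX k).Curve, (XX k).deg C.c (XiDiv k) = 1 ∧
    (XX k).deg C.c (HDiv k) = 0 ∧ (fun D => ((XX k).deg C.c D : ℝ)) = cl k 1 0 := by
  obtain ⟨C, -, h1, h2⟩ := exists_curve10 (k := k) 0 1 (isHomogeneous_one _ _) cls_one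
  refine ⟨C, h1, h2, ?_⟩
  have h3 := cls_curve (e := 1) (h := 0) h1 h2
  rw [h3, Int.cast_one, Int.cast_zero]

private theorem cls_c01 : ∃ C : (XX k).Curve, (XX k).deg C.c (XiDiv k) = 0 ∧
    (XX k).deg C.c (HDiv k) = 1 ∧ (fun D => ((XX k).deg C.c D : ℝ)) = cl k 0 1 := by
  obtain ⟨C, h1, h2⟩ := exists_curve01 (k := k)
  refine ⟨C, h1, h2, ?_⟩
  have h3 := cls_curve (e := 0) (h := 1) h1 h2
  rw [h3, Int.cast_one, Int.cast_zero]

private theorem cls_pic (D : (XX k).CaDiv) (a b : ℤ)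
    (h1 : ∀ C : (XX k).Curve, (XX k).deg C.c (XiDiv k) = 1 → (XX k).deg C.c (HDiv k) = 0 →
      (XX k).deg C.c D = a)
    (h2 : ∀ C : (XX k).Curve, (XX k).deg C.c (XiDiv k) = 0 → (XX k).deg C.c (HDiv k) = 1 →
      (XX k).deg C.c D = b) (e h : ℝ) : cl k e h D = a * e + b * h := by
  obtain ⟨C, hC1, hC2, hC3⟩ := cls_c10 (k := k)
  obtain ⟨C', hC1', hC2', hC3'⟩ := cls_c01 (k := k)
  have h3 := congrFun hC3 D
  have h4 := congrFun hC3' D
  simp only [cl, mul_one, mul_zero, add_zero, zero_add] at h3 h4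
  rw [h1 C hC1 hC2] at h3
  rw [h2 C' hC1' hC2'] at h4
  rw [cl, ← h3, ← h4]

/-- The curves of bidegree `(1, 0)` and `(0, 1)` show that `picPair ξ = (1, 0)`,
`picPair H = (0, 1)`. -/
theorem cl_Xi (e h : ℝ) : cl k e h (XiDiv k) = e := by
  rw [cls_pic (XiDiv k) 1 0 (fun _ h _ => h) (fun _ h _ => h), Int.cast_one, Int.cast_zero]
  ring

theorem cl_H (e h : ℝ) : cl k e h (HDiv k) = h := by
  rw [cls_pic (HDiv k) 0 1 (fun _ _ h => h) (fun _ _ h => h), Int.cast_one, Int.cast_zero]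
  ring

theorem cl_inj {e h e' h' : ℝ} (H : cl k e h = cl k e' h') : e = e' ∧ h = h' :=
  ⟨by rw [← cl_Xi (k := k) e h, H, cl_Xi], by rw [← cl_H (k := k) e h, H, cl_H]⟩

private theorem cls_N1 {α : (XX k).CaDiv → ℝ} (hα : α ∈ (XX k).N1) :
    α = cl k (α (XiDiv k)) (α (HDiv k)) := by
  funext D
  obtain ⟨φ, hφ, h⟩ := picPair_spec D
  have h1 := N1_linEquiv hα (D := D)
    (E := ((XiDiv k).zsmul (picPair k D).1).add ((HDiv k).zsmul (picPair k D).2)) hφ h
  rw [h1, N1_add hα, N1_zsmul hα, N1_zsmul hα, cl]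

theorem mem_N1_iff {α : (XX k).CaDiv → ℝ} : α ∈ (XX k).N1 ↔ ∃ e h : ℝ, α = cl k e h := by
  refine ⟨fun hα => ⟨_, _, cls_N1 hα⟩, ?_⟩
  rintro ⟨e, h, rfl⟩
  obtain ⟨C, -, -, hC⟩ := cls_c10 (k := k)
  obtain ⟨C', -, -, hC'⟩ := cls_c01 (k := k)
  have h1 := curve_mem_N1 C
  have h2 := curve_mem_N1 C'
  rw [hC] at h1
  rw [hC'] at h2
  have h3 := add_mem_N1 (smul_mem_N1 h1 e) (smul_mem_N1 h2 h)
  rw [cl_smul, cl_smul, cl_add] at h3
  simpa only [mul_one, mul_zero, add_zero, zero_add] using h3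

theorem mem_N1Int_iff {α : (XX k).CaDiv → ℝ} :
    α ∈ (XX k).N1Int ↔ ∃ e h : ℤ, α = cl k e h := by
  constructor
  · intro hα
    obtain ⟨e, he⟩ := N1Int_int hα (XiDiv k)
    obtain ⟨h, hh⟩ := N1Int_int hα (HDiv k)
    refine ⟨e, h, ?_⟩
    rw [← he, ← hh]
    exact cls_N1 (N1Int_subset hα)
  · rintro ⟨e, h, rfl⟩
    obtain ⟨C, -, -, hC⟩ := cls_c10 (k := k)
    obtain ⟨C', -, -, hC'⟩ := cls_c01 (k := k)
    refine ⟨Finsupp.single C e + Finsupp.single C' h, ?_⟩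
    funext D
    have h1 := congrFun hC D
    have h2 := congrFun hC' D
    simp only [cl, mul_one, mul_zero, add_zero, zero_add] at h1 h2
    rw [Finsupp.sum_add_index' (fun C => by rw [Int.cast_zero, zero_mul])
      (fun C r s => by rw [Int.cast_add, add_mul]),
      Finsupp.sum_single_index (by rw [Int.cast_zero, zero_mul]),
      Finsupp.sum_single_index (by rw [Int.cast_zero, zero_mul]), h1, h2, cl]
    ring

/-- The discriminant divisor has class `4 ξ - 6 H`. -/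
theorem cl_D (e h : ℝ) : cl k e h (DDiv k) = 4 * e - 6 * h := by
  have hα : cl k e h ∈ (XX k).N1 := mem_N1_iff.2 ⟨e, h, rfl⟩
  rw [DDiv, N1_add hα, N1_add hα, N1_prin hα, N1_zsmul hα, N1_zsmul hα, cl_Xi, cl_H]
  push_cast
  ring

/-- `Nef_1(X)`. `→`: `H` and the discriminant are effective. `←`: `cl e h =
(e - 3h/2) cl 1 0 + (h/2) cl 3 2`, and both classes are nef by `mem_Nef1_of_moving`. -/
theorem mem_Nef1_iff {e h : ℝ} : cl k e h ∈ (XX k).Nef1 ↔ 0 ≤ h ∧ 6 * h ≤ 4 * e := by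
  constructor
  · intro hα
    have h1 := hα.2 _ (HDiv_effective (k := k))
    have h2 := hα.2 _ (DDiv_effective (k := k))
    rw [cl_H] at h1
    rw [cl_D] at h2
    exact ⟨h1, by linarith⟩
  · rintro ⟨h1, h2⟩
    have h3 : cl k 1 0 ∈ (XX k).Nef1 := by
      refine mem_Nef1_of_moving fun d P hP hz => ?_
      obtain ⟨C, hC, h4, h5⟩ := exists_curve10 (k := k) d P hP hz
      have h6 := cls_curve (e := 1) (h := 0) h4 h5
      rw [Int.cast_one, Int.cast_zero] at h6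
      exact ⟨C, hC, h6.symm⟩
    have h4 : cl k 3 2 ∈ (XX k).Nef1 := by
      refine mem_Nef1_of_moving fun d P hP hz => ?_
      obtain ⟨C, hC, h4, h5⟩ := exists_curve32 (k := k) d P hP hz
      have h6 := cls_curve (e := 3) (h := 2) h4 h5
      rw [Int.cast_ofNat, Int.cast_ofNat] at h6
      exact ⟨C, hC, h6.symm⟩
    have h5 := add_mem_Nef1 (smul_mem_Nef1 h3 (r := e - 3 * h / 2) (by linarith))
      (smul_mem_Nef1 h4 (r := h / 2) (by linarith))
    rw [cl_smul, cl_smul, cl_add] at h5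
    have e1 : (e - 3 * h / 2) * 1 + h / 2 * 3 = e := by ring
    have e2 : (e - 3 * h / 2) * 0 + h / 2 * 2 = h := by ring
    rwa [e1, e2] at h5

/-- The export. -/
theorem numData : NumData k (cl k) where
  sub := cl_sub
  int := fun _ => mem_N1Int_iff
  nef := fun _ _ => mem_Nef1_iff

end MP9a7843
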