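import Pool.Agent.Lib.MP_9a7843_ag_X.Jac

/-!
# MP_9a7843_ag, block X, module JacP: change of the pivot
-/

noncomputable section

open MvPolynomial

open scoped KaehlerDifferential

namespace MP9a7843

variable {k : Type*} [Field k] {K : Type*} [Field K] [Algebra k K] {z : Idx → K}

/-- the bijection of the indices -/
private def jpEquiv {i j i' : Fin 10} (hij : i ≠ j) (hij' : i' ≠ j) :
    {l : Fin 10 // l ≠ i ∧ l ≠ j} ≃ {l : Fin 10 // l ≠ i' ∧ l ≠ j} where
  toFun l := if h : l.1 = i' then ⟨i, fun hh => l.2.1 (h.trans hh.symm), hij⟩ else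
    ⟨l.1, h, l.2.2⟩
  invFun l := if h : l.1 = i then ⟨i', fun hh => l.2.1 (h.trans hh.symm), hij'⟩ else
    ⟨l.1, h, l.2.2⟩
  left_inv l := by
    apply Subtype.ext
    by_cases h : l.1 = i'
    · simp [h]
    · have h2 := l.2.1
      simp [h, h2]
  right_inv l := by
    apply Subtype.ext
    by_cases h : l.1 = i
    · simp [h]
    · have h2 := l.2.1
      simp [h, h2]

private theorem jpEquiv_val {i j i' : Fin 10} (hij : i ≠ j) (hij' : i' ≠ j)
    (l : {l : Fin 10 // l ≠ i ∧ l ≠ j}) :
    (jpEquiv hij hij' l).1 = if l.1 = i' then i else l.1 := by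
  unfold jpEquiv
  by_cases h : l.1 = i'
  · simp [h]
  · simp [h]

private theorem jp_E {i j i' : Fin 10} (hc : z (cellIdx i j 3) ≠ 0)
    (hc' : z (cellIdx i' j 3) ≠ 0) (l : Fin 10) :
    cellE z i' j 3 l = cellE z i j 3 l * (cellE z i j 3 i')⁻¹ := by
  have e1 : cubIdx i' j 3 = cubIdx i j 3 := rfl
  have e2 : cellE z i j 3 i' = z (cellIdx i' j 3) / z (cellIdx i j 3) := rfl
  rw [e2]
  unfold cellE
  rw [e1]
  field_simp

private theorem jp_E' (h : Rel z) {i j i' : Fin 10} (hc : z (cellIdx i j 3) ≠ 0)
    (hc' : z (cellIdx i' j 3) ≠ 0) (l : Fin 10) :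
    cellE' z i' j 3 l = cellE' z i j 3 l -
      cellE' z i j 3 i' * cellE z i j 3 l * (cellE z i j 3 i')⁻¹ := by
  have h1 := cell_plu h hc i' l
  have e1 : cubIdx i' j 3 = cubIdx i j 3 := rfl
  have e2 : z (cellIdx i' j 3) = z (cellIdx i j 3) * cellE z i j 3 i' := by
    have : cellE z i j 3 i' = z (cellIdx i' j 3) / z (cellIdx i j 3) := rfl
    rw [this, mul_div_cancel₀ _ hc]
  have hs : cellE z i j 3 i' ≠ 0 := fun h0 => hc' (by rw [e2, h0, mul_zero])
  have e3 : cellE' z i' j 3 l = z (cubIdx i j 3, (i', l)) / z (cellIdx i' j 3) := rfl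
  rw [e3, h1, e2]
  unfold plu
  field_simp

private theorem jp_G (h : Rel z) {i j i' : Fin 10} (hc : z (cellIdx i j 3) ≠ 0)
    (hc' : z (cellIdx i' j 3) ≠ 0) (m' : Fin 4) :
    cellG z i' j 3 m' = cub (cellE z i j 3) (cellE' z i j 3) (cellG z i j 3)
      (cubIdx i' j m').1 (cubIdx i' j m').2.1 (cubIdx i' j m').2.2 := by
  have h1 := cell_formula h hc (cubIdx i' j m', (i', j))
  have e2 : z (cellIdx i' j 3) = z (cellIdx i j 3) * cellE z i j 3 i' := by
    have : cellE z i j 3 i' = z (cellIdx i' j 3) / z (cellIdx i j 3) := rfl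
    rw [this, mul_div_cancel₀ _ hc]
  have hs : cellE z i j 3 i' ≠ 0 := fun h0 => hc' (by rw [e2, h0, mul_zero])
  have e3 : cellG z i' j 3 m' = z (cubIdx i' j m', (i', j)) / z (cellIdx i' j 3) := rfl
  rw [e3, h1, e2]
  simp only [zfun, plu, cellE_right h, cellE'_right hc]
  field_simp
  ring

/-- one entry -/
private def sg {σ : Type} [DecidableEq σ] (b : σ) (c : K) : σ → K :=
  fun b' => if b' = b then c else 0

private theorem sg_same {σ : Type} [DecidableEq σ] (b : σ) (c : K) : sg b c b = c := if_pos rfl

private theorem sg_ne {σ : Type} [DecidableEq σ] {b b' : σ} (h : b' ≠ b) (c : K) :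
    sg b c b' = 0 := if_neg h

private theorem jp_sum {σ : Type} [Fintype σ] [DecidableEq σ] (x : σ → K) (b : σ) (c : K) :
    ∑ b', sg b c b' • KaehlerDifferential.D k K (x b') =
      c • KaehlerDifferential.D k K (x b) := by
  rw [Finset.sum_eq_single b]
  · rw [sg_same]
  · intro b' _ hb
    rw [sg_ne hb, zero_smul]
  · intro h
    exact absurd (Finset.mem_univ _) h

private theorem jp_sum_add {σ : Type} [Fintype σ] (x : σ → K) (u v : σ → K) :
    ∑ b', (u + v) b' • KaehlerDifferential.D k K (x b') =
      ∑ b', u b' • KaehlerDifferential.D k K (x b') +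
        ∑ b', v b' • KaehlerDifferential.D k K (x b') := by
  rw [← Finset.sum_add_distrib]
  refine Finset.sum_congr rfl fun b' _ => ?_
  rw [Pi.add_apply, add_smul]

private theorem jp_D_inv (a : K) : KaehlerDifferential.D k K a⁻¹ =
    (-(a⁻¹ ^ 2)) • KaehlerDifferential.D k K a := Derivation.leibniz_inv _ _

/-- the rows -/
private def jpRow (z : Idx → K) {i j i' : Fin 10} (h1 : i' ≠ i ∧ i' ≠ j) :
    CellVar i j 3 → CellVar i j 3 → K :=
  Sum.elim
    (fun l => if l.1 = i' then
        sg (Sum.inl ⟨i', h1⟩) (-((cellE z i j 3 i')⁻¹ ^ 2))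
      else sg (Sum.inl l) (cellE z i j 3 i')⁻¹ +
        sg (Sum.inl ⟨i', h1⟩) (-(cellE z i j 3 l.1 * (cellE z i j 3 i')⁻¹ ^ 2)))
    (Sum.elim
      (fun l => if l.1 = i' then
          sg (Sum.inr (Sum.inl ⟨i', h1⟩)) (-(cellE z i j 3 i')⁻¹) +
          sg (Sum.inl ⟨i', h1⟩) (cellE' z i j 3 i' * (cellE z i j 3 i')⁻¹ ^ 2)
        else sg (Sum.inr (Sum.inl l)) 1 +
          (sg (Sum.inr (Sum.inl ⟨i', h1⟩)) (-(cellE z i j 3 l.1 * (cellE z i j 3 i')⁻¹)) +
          (sg (Sum.inl l) (-(cellE' z i j 3 i' * (cellE z i j 3 i')⁻¹)) +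
          sg (Sum.inl ⟨i', h1⟩)
            (cellE' z i j 3 i' * cellE z i j 3 l.1 * (cellE z i j 3 i')⁻¹ ^ 2))))
      (fun m' => if m'.1 = 2 then
          sg (Sum.inr (Sum.inr ⟨2, by decide⟩)) (cellE z i j 3 i') +
          (sg (Sum.inl ⟨i', h1⟩) (cellG z i j 3 2) +
          sg (Sum.inr (Sum.inl ⟨i', h1⟩)) 1)
        else if m'.1 = 1 then
          sg (Sum.inr (Sum.inr ⟨1, by decide⟩)) (cellE z i j 3 i' ^ 2) +
          (sg (Sum.inl ⟨i', h1⟩) (2 * cellE z i j 3 i' * cellG z i j 3 1 +
            2 * cellE' z i j 3 i' * cellG z i j 3 2) +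
          (sg (Sum.inr (Sum.inl ⟨i', h1⟩)) (2 * cellE z i j 3 i' * cellG z i j 3 2 +
            2 * cellE' z i j 3 i') +
          sg (Sum.inr (Sum.inr ⟨2, by decide⟩))
            (2 * cellE z i j 3 i' * cellE' z i j 3 i')))
        else
          sg (Sum.inr (Sum.inr ⟨0, by decide⟩)) (cellE z i j 3 i' ^ 3) +
          (sg (Sum.inl ⟨i', h1⟩) (3 * cellE z i j 3 i' ^ 2 * cellG z i j 3 0 +
            6 * cellE z i j 3 i' * cellE' z i j 3 i' * cellG z i j 3 1 +
            3 * cellE' z i j 3 i' ^ 2 * cellG z i j 3 2) +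
          (sg (Sum.inr (Sum.inl ⟨i', h1⟩)) (3 * cellE z i j 3 i' ^ 2 * cellG z i j 3 1 +
            6 * cellE z i j 3 i' * cellE' z i j 3 i' * cellG z i j 3 2 +
            3 * cellE' z i j 3 i' ^ 2) +
          (sg (Sum.inr (Sum.inr ⟨1, by decide⟩))
            (3 * cellE z i j 3 i' ^ 2 * cellE' z i j 3 i') +
          sg (Sum.inr (Sum.inr ⟨2, by decide⟩))
            (3 * cellE z i j 3 i' * cellE' z i j 3 i' ^ 2))))))

/-- the height -/
private def jpHt (i j i' : Fin 10) : CellVar i j 3 → ℕ :=
  Sum.elim (fun l => if l.1 = i' then 0 else 2)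
    (Sum.elim (fun l => if l.1 = i' then 1 else 3) (fun m' => 6 - m'.1.val))

private theorem jp_single {σ : Type} [DecidableEq σ] {a b : σ} {c : K}
    (h : sg a c b ≠ 0) : b = a := by
  by_contra hne
  exact h (sg_ne hne c)

private theorem jp_add {σ : Type} {u v : σ → K} {b : σ} (h : (u + v) b ≠ 0) :
    u b ≠ 0 ∨ v b ≠ 0 := by
  by_contra hcon
  push Not at hcon
  exact h (by rw [Pi.add_apply, hcon.1, hcon.2, add_zero])

private theorem jp_m (m' : {m' : Fin 4 // m' ≠ 3}) (h2 : m'.1 ≠ 2) (h1 : m'.1 ≠ 1) :
    m' = ⟨0, by decide⟩ := by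
  obtain ⟨m, hm⟩ := m'
  apply Subtype.ext
  apply Fin.ext
  have e1 : m.val ≠ 3 := fun h => hm (Fin.ext h)
  have e2 : m.val ≠ 2 := fun h => h2 (Fin.ext h)
  have e3 : m.val ≠ 1 := fun h => h1 (Fin.ext h)
  have e4 := m.isLt
  change m.val = 0
  omega

private theorem jp_tri {i j i' : Fin 10} (h1 : i' ≠ i ∧ i' ≠ j) (a b : CellVar i j 3)
    (hab : jpRow z h1 a b ≠ 0) : a = b ∨ jpHt i j i' b < jpHt i j i' a := by
  rcases a with l | l | m'
  · by_cases hl : l.1 = i'
    · simp only [jpRow, Sum.elim_inl, if_pos hl] at hab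
      left
      rw [jp_single hab]
      exact congrArg Sum.inl (Subtype.ext hl)
    · simp only [jpRow, Sum.elim_inl, if_neg hl] at hab
      rcases jp_add hab with h | h
      · exact Or.inl (jp_single h).symm
      · right
        rw [jp_single h]
        simp [jpHt, hl]
  · by_cases hl : l.1 = i'
    · simp only [jpRow, Sum.elim_inl, Sum.elim_inr, if_pos hl] at hab
      rcases jp_add hab with h | h
      · left
        rw [jp_single h]
        exact congrArg (fun x => Sum.inr (Sum.inl x)) (Subtype.ext hl)
      · right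
        rw [jp_single h]
        simp [jpHt, hl]
    · simp only [jpRow, Sum.elim_inl, Sum.elim_inr, if_neg hl] at hab
      rcases jp_add hab with h | h
      · exact Or.inl (jp_single h).symm
      · right
        rcases jp_add h with h | h
        · rw [jp_single h]
          simp [jpHt, hl]
        · rcases jp_add h with h | h
          · rw [jp_single h]
            simp [jpHt, hl]
          · rw [jp_single h]
            simp [jpHt, hl]
  · by_cases h2 : m'.1 = 2
    · have hm : m' = ⟨2, by decide⟩ := Subtype.ext h2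
      simp only [jpRow, Sum.elim_inr, if_pos h2] at hab
      rcases jp_add hab with h | h
      · left
        rw [jp_single h, hm]
      · right
        rcases jp_add h with h | h
        · rw [jp_single h, hm]
          simp [jpHt]
        · rw [jp_single h, hm]
          simp [jpHt]
    · by_cases h3 : m'.1 = 1
      · have hm : m' = ⟨1, by decide⟩ := Subtype.ext h3
        simp only [jpRow, Sum.elim_inr, if_neg h2, if_pos h3] at hab
        rcases jp_add hab with h | h
        · left
          rw [jp_single h, hm]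
        · right
          rcases jp_add h with h | h
          · rw [jp_single h, hm]
            simp [jpHt]
          · rcases jp_add h with h | h
            · rw [jp_single h, hm]
              simp [jpHt]
            · rw [jp_single h, hm]
              simp [jpHt]
      · have hm := jp_m m' h2 h3
        simp only [jpRow, Sum.elim_inr, if_neg h2, if_neg h3] at hab
        rcases jp_add hab with h | h
        · left
          rw [jp_single h, hm]
        · right
          rcases jp_add h with h | h
          · rw [jp_single h, hm]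
            simp [jpHt]
          · rcases jp_add h with h | h
            · rw [jp_single h, hm]
              simp [jpHt]
            · rcases jp_add h with h | h
              · rw [jp_single h, hm]
                simp [jpHt]
              · rw [jp_single h, hm]
                simp [jpHt]

private theorem jp_diag {i j i' : Fin 10} (h1 : i' ≠ i ∧ i' ≠ j) (a : CellVar i j 3) :
    jpRow z h1 a a = Sum.elim
      (fun l => if l.1 = i' then -((cellE z i j 3 i')⁻¹ ^ 2) else (cellE z i j 3 i')⁻¹)
      (Sum.elim (fun l => if l.1 = i' then -(cellE z i j 3 i')⁻¹ else 1)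
        (fun m' => cellE z i j 3 i' ^ (3 - m'.1.val))) a := by
  rcases a with l | l | m'
  · by_cases hl : l.1 = i'
    · have : l = ⟨i', h1⟩ := Subtype.ext hl
      simp only [jpRow, Sum.elim_inl, if_pos hl]
      rw [this, sg_same]
    · simp only [jpRow, Sum.elim_inl, if_neg hl, Pi.add_apply]
      rw [sg_same, sg_ne, add_zero]
      intro hh
      exact hl (congrArg Subtype.val (Sum.inl_injective hh))
  · by_cases hl : l.1 = i'
    · have : l = ⟨i', h1⟩ := Subtype.ext hl
      simp only [jpRow, Sum.elim_inl, Sum.elim_inr, if_pos hl, Pi.add_apply]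
      rw [this, sg_same, sg_ne, add_zero]
      exact Sum.inr_ne_inl
    · simp only [jpRow, Sum.elim_inl, Sum.elim_inr, if_neg hl, Pi.add_apply]
      rw [sg_same, sg_ne, sg_ne, sg_ne, add_zero, add_zero, add_zero]
      · exact Sum.inr_ne_inl
      · exact Sum.inr_ne_inl
      · intro hh
        exact hl (congrArg Subtype.val (Sum.inl_injective (Sum.inr_injective hh)))
  · by_cases h2 : m'.1 = 2
    · have hm : m' = ⟨2, by decide⟩ := Subtype.ext h2
      simp only [jpRow, Sum.elim_inr, if_pos h2, Pi.add_apply]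
      rw [hm, sg_same, sg_ne, sg_ne, add_zero, add_zero]
      · norm_num
      · intro hh
        exact Sum.inr_ne_inl (Sum.inr_injective hh)
      · exact Sum.inr_ne_inl
    · by_cases h3 : m'.1 = 1
      · have hm : m' = ⟨1, by decide⟩ := Subtype.ext h3
        simp only [jpRow, Sum.elim_inr, if_neg h2, if_pos h3, Pi.add_apply]
        rw [hm, sg_same, sg_ne, sg_ne, sg_ne, add_zero, add_zero, add_zero]
        · norm_num
        · intro hh
          have := congrArg Subtype.val (Sum.inr_injective (Sum.inr_injective hh))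
          revert this
          decide
        · intro hh
          exact Sum.inr_ne_inl (Sum.inr_injective hh)
        · exact Sum.inr_ne_inl
      · have hm := jp_m m' h2 h3
        simp only [jpRow, Sum.elim_inr, if_neg h2, if_neg h3, Pi.add_apply]
        rw [hm, sg_same, sg_ne, sg_ne, sg_ne, sg_ne, add_zero, add_zero, add_zero, add_zero]
        · norm_num
        · intro hh
          have := congrArg Subtype.val (Sum.inr_injective (Sum.inr_injective hh))
          revert this
          decide
        · intro hh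
          have := congrArg Subtype.val (Sum.inr_injective (Sum.inr_injective hh))
          revert this
          decide
        · intro hh
          exact Sum.inr_ne_inl (Sum.inr_injective hh)
        · exact Sum.inr_ne_inl

private theorem jp_prod8 {i j i' : Fin 10} (hij : i ≠ j) (h1 : i' ≠ i ∧ i' ≠ j) (x y : K) :
    ∏ l : {l : Fin 10 // l ≠ i ∧ l ≠ j}, (if l.1 = i' then x else y) = x * y ^ 7 := by
  classical
  rw [← Finset.mul_prod_erase Finset.univ _ (Finset.mem_univ (⟨i', h1⟩ :
    {l : Fin 10 // l ≠ i ∧ l ≠ j})), if_pos rfl]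
  congr 1
  rw [Finset.prod_congr rfl (g := fun _ => y)]
  · rw [Finset.prod_const, Finset.card_erase_of_mem (Finset.mem_univ _), Finset.card_univ]
    congr 1
    have h8 : Fintype.card {l : Fin 10 // l ≠ i ∧ l ≠ j} = 8 := by
      rw [Fintype.card_subtype]
      have e : (Finset.univ.filter fun l : Fin 10 => l ≠ i ∧ l ≠ j) =
          (Finset.univ.erase i).erase j := by
        ext l
        simp [and_comm]
      rw [e, Finset.card_erase_of_mem, Finset.card_erase_of_mem (Finset.mem_univ i),
        Finset.card_univ, Fintype.card_fin]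
      exact Finset.mem_erase.mpr ⟨hij.symm, Finset.mem_univ j⟩
    rw [h8]
  · intro l hl
    refine if_neg fun hh => ?_
    exact (Finset.mem_erase.1 hl).1 (Subtype.ext hh)

private theorem jp_prod3 (x : K) :
    ∏ m' : {m' : Fin 4 // m' ≠ 3}, x ^ (3 - m'.1.val) = x ^ 6 := by
  have e : (Finset.univ : Finset {m' : Fin 4 // m' ≠ 3}) =
      {⟨0, by decide⟩, ⟨1, by decide⟩, ⟨2, by decide⟩} := by decide
  rw [e, Finset.prod_insert (by decide), Finset.prod_insert (by decide), Finset.prod_singleton]
  simp only [Fin.val_zero, Fin.val_one, Fin.val_two]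
  ring

/-- Change of the pivot `i` to `i' ≠ i, j` in the cell `m = 3`. Put `s = E_i'`, `t = E'_i'`
(so `s = z_c' / z_c`). By the cell formula: `E~_l = E_l / s`, `E~_i = 1 / s`,
`E'~_l = E'_l - t E_l / s`, `E'~_i = -t / s` (`l ≠ i, i', j`), `γ~_2 = s γ_2 + t`,
`γ~_1 = s^2 γ_1 + 2 s t γ_2 + t^2`, `γ~_0 = s^3 γ_0 + 3 s^2 t γ_1 + 3 s t^2 γ_2 + t^3`. With the
bijection `i' ↔ i` of the indices and `ht = 0, 1, 2, 3, 4, 5, 6` for `s`, `t`, `E_l`, `E'_l`,
`γ_2`, `γ_1`, `γ_0` the matrix is triangular with diagonal `-s^(-2)`, `-s^(-1)`, `s^(-1)` (seven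
times), `1` (seven times), `s`, `s^2`, `s^3`; the product is `s^(-4)`. -/
theorem jac_pivot (h : Rel z) {i j i' : Fin 10} (hc : z (cellIdx i j 3) ≠ 0)
    (hc' : z (cellIdx i' j 3) ≠ 0) (hi : i' ≠ i) :
    JacRel k (cellCoord z i j 3) (cellCoord z i' j 3)
      ((z (cellIdx i' j 3) / z (cellIdx i j 3)) ^ (-4 : ℤ)) := by
  have hij := ne_of_cell h hc
  have hij' := ne_of_cell h hc'
  have h1 : i' ≠ i ∧ i' ≠ j := ⟨hi, hij'⟩
  have es : cellE z i j 3 i' = z (cellIdx i' j 3) / z (cellIdx i j 3) := rfl
  have hs : cellE z i j 3 i' ≠ 0 := by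
    rw [es]
    exact div_ne_zero hc' hc
  refine ⟨Equiv.sumCongr (jpEquiv hij hij') (Equiv.sumCongr (jpEquiv hij hij') (Equiv.refl _)),
    Matrix.of (jpRow z h1), ?_, Or.inl ?_⟩
  · intro a
    rcases a with l | l | m'
    · have e1 : cellCoord z i' j 3 (Equiv.sumCongr (jpEquiv hij hij')
          (Equiv.sumCongr (jpEquiv hij hij') (Equiv.refl _)) (Sum.inl l)) =
          cellE z i j 3 (if l.1 = i' then i else l.1) * (cellE z i j 3 i')⁻¹ := by
        rw [← jp_E hc hc', ← jpEquiv_val hij hij']
        rfl
      rw [e1]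
      by_cases hl : l.1 = i'
      · simp only [Matrix.of_apply, jpRow, Sum.elim_inl, if_pos hl]
        rw [jp_sum, cellE_left hc, one_mul, jp_D_inv]
        rfl
      · simp only [Matrix.of_apply, jpRow, Sum.elim_inl, if_neg hl]
        rw [jp_sum_add, jp_sum, jp_sum, Derivation.leibniz, jp_D_inv]
        change _ = _ • KaehlerDifferential.D k K (cellE z i j 3 l.1) +
          _ • KaehlerDifferential.D k K (cellE z i j 3 i')
        module
    · have e1 : cellCoord z i' j 3 (Equiv.sumCongr (jpEquiv hij hij')
          (Equiv.sumCongr (jpEquiv hij hij') (Equiv.refl _)) (Sum.inr (Sum.inl l))) =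
          cellE' z i j 3 (if l.1 = i' then i else l.1) -
            cellE' z i j 3 i' * cellE z i j 3 (if l.1 = i' then i else l.1) *
              (cellE z i j 3 i')⁻¹ := by
        rw [← jp_E' h hc hc', ← jpEquiv_val hij hij']
        rfl
      rw [e1]
      by_cases hl : l.1 = i'
      · simp only [Matrix.of_apply, jpRow, Sum.elim_inl, Sum.elim_inr, if_pos hl]
        rw [jp_sum_add, jp_sum, jp_sum, cellE_left hc, cellE'_left h, mul_one, zero_sub, map_neg,
          Derivation.leibniz, jp_D_inv]
        change _ = _ • KaehlerDifferential.D k K (cellE' z i j 3 i') +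
          _ • KaehlerDifferential.D k K (cellE z i j 3 i')
        module
      · simp only [Matrix.of_apply, jpRow, Sum.elim_inl, Sum.elim_inr, if_neg hl]
        rw [jp_sum_add, jp_sum_add, jp_sum_add, jp_sum, jp_sum, jp_sum, jp_sum, map_sub,
          Derivation.leibniz, Derivation.leibniz, jp_D_inv]
        change _ = _ • KaehlerDifferential.D k K (cellE' z i j 3 l.1) +
          (_ • KaehlerDifferential.D k K (cellE' z i j 3 i') +
          (_ • KaehlerDifferential.D k K (cellE z i j 3 l.1) +
          _ • KaehlerDifferential.D k K (cellE z i j 3 i')))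
        module
    · have e1 : cellCoord z i' j 3 (Equiv.sumCongr (jpEquiv hij hij')
          (Equiv.sumCongr (jpEquiv hij hij') (Equiv.refl _)) (Sum.inr (Sum.inr m'))) =
          cub (cellE z i j 3) (cellE' z i j 3) (cellG z i j 3)
            (cubIdx i' j m'.1).1 (cubIdx i' j m'.1).2.1 (cubIdx i' j m'.1).2.2 := by
        rw [← jp_G h hc hc']
        rfl
      rw [e1]
      by_cases h2 : m'.1 = 2
      · simp only [Matrix.of_apply, jpRow, Sum.elim_inr, if_pos h2]
        rw [jp_sum_add, jp_sum_add, jp_sum, jp_sum, jp_sum, h2]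
        change KaehlerDifferential.D k K (cub (cellE z i j 3) (cellE' z i j 3) (cellG z i j 3)
          i' j j) = _ • KaehlerDifferential.D k K (cellG z i j 3 2) +
          (_ • KaehlerDifferential.D k K (cellE z i j 3 i') +
          _ • KaehlerDifferential.D k K (cellE' z i j 3 i'))
        have e2 : cub (cellE z i j 3) (cellE' z i j 3) (cellG z i j 3) i' j j =
            cellE z i j 3 i' * cellG z i j 3 2 + cellE' z i j 3 i' := by
          simp only [cub, cellE_right h, cellE'_right hc, cellG_self hc]
          ring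
        rw [e2, map_add, Derivation.leibniz]
        module
      · by_cases h3 : m'.1 = 1
        · simp only [Matrix.of_apply, jpRow, Sum.elim_inr, if_neg h2, if_pos h3]
          rw [jp_sum_add, jp_sum_add, jp_sum_add, jp_sum, jp_sum, jp_sum, jp_sum, h3]
          change KaehlerDifferential.D k K (cub (cellE z i j 3) (cellE' z i j 3)
            (cellG z i j 3) i' i' j) = _ • KaehlerDifferential.D k K (cellG z i j 3 1) +
            (_ • KaehlerDifferential.D k K (cellE z i j 3 i') +
            (_ • KaehlerDifferential.D k K (cellE' z i j 3 i') +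
            _ • KaehlerDifferential.D k K (cellG z i j 3 2)))
          have e2 : cub (cellE z i j 3) (cellE' z i j 3) (cellG z i j 3) i' i' j =
              cellE z i j 3 i' * cellE z i j 3 i' * cellG z i j 3 1 +
              (cellE z i j 3 i' * cellE' z i j 3 i' * cellG z i j 3 2 +
              (cellE z i j 3 i' * cellE' z i j 3 i' * cellG z i j 3 2 +
              cellE' z i j 3 i' * cellE' z i j 3 i')) := by
            simp only [cub, cellE_right h, cellE'_right hc, cellG_self hc]
            ring
          rw [e2]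
          simp only [map_add, Derivation.leibniz]
          module
        · have hm := jp_m m' h2 h3
          simp only [Matrix.of_apply, jpRow, Sum.elim_inr, if_neg h2, if_neg h3]
          rw [jp_sum_add, jp_sum_add, jp_sum_add, jp_sum_add, jp_sum, jp_sum, jp_sum, jp_sum,
            jp_sum, hm]
          change KaehlerDifferential.D k K (cub (cellE z i j 3) (cellE' z i j 3)
            (cellG z i j 3) i' i' i') = _ • KaehlerDifferential.D k K (cellG z i j 3 0) +
            (_ • KaehlerDifferential.D k K (cellE z i j 3 i') +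
            (_ • KaehlerDifferential.D k K (cellE' z i j 3 i') +
            (_ • KaehlerDifferential.D k K (cellG z i j 3 1) +
            _ • KaehlerDifferential.D k K (cellG z i j 3 2))))
          have e2 : cub (cellE z i j 3) (cellE' z i j 3) (cellG z i j 3) i' i' i' =
              cellE z i j 3 i' * cellE z i j 3 i' * cellE z i j 3 i' * cellG z i j 3 0 +
              (cellE z i j 3 i' * cellE z i j 3 i' * cellE' z i j 3 i' * cellG z i j 3 1 +
              (cellE z i j 3 i' * cellE z i j 3 i' * cellE' z i j 3 i' * cellG z i j 3 1 +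
              (cellE z i j 3 i' * cellE z i j 3 i' * cellE' z i j 3 i' * cellG z i j 3 1 +
              (cellE z i j 3 i' * cellE' z i j 3 i' * cellE' z i j 3 i' * cellG z i j 3 2 +
              (cellE z i j 3 i' * cellE' z i j 3 i' * cellE' z i j 3 i' * cellG z i j 3 2 +
              (cellE z i j 3 i' * cellE' z i j 3 i' * cellE' z i j 3 i' * cellG z i j 3 2 +
              cellE' z i j 3 i' * cellE' z i j 3 i' * cellE' z i j 3 i')))))) := by
            simp only [cub, cellG_self hc]
            ring
          rw [e2]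
          simp only [map_add, Derivation.leibniz]
          module
  · rw [det_of_ht (Matrix.of (jpRow z h1)) (jpHt i j i') (fun a b hab => jp_tri h1 a b hab)]
    simp only [Matrix.of_apply]
    rw [Finset.prod_congr rfl (fun a _ => jp_diag h1 a), Fintype.prod_sum_type,
      Fintype.prod_sum_type]
    simp only [Sum.elim_inl, Sum.elim_inr]
    rw [jp_prod8 hij h1, jp_prod8 hij h1, jp_prod3, ← es]
    rw [_root_.zpow_neg]
    field_simp

end MP9a7843
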