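import Pool.Agent.Lib.MP_9a7843_ag_X.JacS
import Pool.Agent.Lib.MP_9a7843_ag_X.JacP

/-!
# MP_9a7843_ag, block X, module JacC: the Jacobian between the main cell and any cell
-/

noncomputable section

open MvPolynomial

open scoped KaehlerDifferential

namespace MP9a7843

section aux

variable {k : Type*} [Field k] {K : Type*} [Field K] [Algebra k K]

private def JacTo (k : Type*) [Field k] {K : Type*} [Field K] [Algebra k K] (z : Idx → K)
    (i j : Fin 10) (m : Fin 4) : Prop :=
  JacRel k (cellCoord z 0 1 0) (cellCoord z i j m)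
    ((z (cellIdx i j m) / z (cellIdx 0 1 0)) ^ (-4 : ℤ))

private theorem jacTo_step {z : Idx → K} {i j i' j' : Fin 10} {m m' : Fin 4}
    (hc : z (cellIdx i j m) ≠ 0) (h : JacTo k z i j m)
    (h' : JacRel k (cellCoord z i j m) (cellCoord z i' j' m')
      ((z (cellIdx i' j' m') / z (cellIdx i j m)) ^ (-4 : ℤ))) : JacTo k z i' j' m' := by
  have h1 := JacRel.trans h h'
  have h2 : (z (cellIdx i j m) / z (cellIdx 0 1 0)) ^ (-4 : ℤ) *
      (z (cellIdx i' j' m') / z (cellIdx i j m)) ^ (-4 : ℤ) =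
      (z (cellIdx i' j' m') / z (cellIdx 0 1 0)) ^ (-4 : ℤ) := by
    rw [← mul_zpow, mul_comm, div_mul_div_cancel₀ hc]
  rw [h2] at h1
  exact h1

variable [CharZero k] {z : Idx → K} (h : IsGenX k z)

include h

omit [CharZero k] in
private theorem jacTo_start : JacTo k z 0 1 0 := by
  have h1 := JacRel.refl (k := k) (cellCoord z 0 1 0)
  have h2 : (z (cellIdx 0 1 0) / z (cellIdx 0 1 0)) ^ (-4 : ℤ) = 1 := by
    rw [div_self h.ne, one_zpow]
  unfold JacTo
  rw [h2]
  exact h1

private theorem jacTo_gamma {i j : Fin 10} (hij : i ≠ j) {m : Fin 4} (hT : JacTo k z i j m)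
    (m' : Fin 4) : JacTo k z i j m' := by
  by_cases hm : m' = m
  · rw [hm]
    exact hT
  · exact jacTo_step (h.cell_ne hij m) hT
      (jac_gamma h.rel (h.cell_ne hij m) (h.cell_ne hij m') hm)

private theorem jacTo_swap {i j : Fin 10} (hij : i ≠ j) (hT : ∀ m, JacTo k z i j m)
    (m : Fin 4) : JacTo k z j i m := by
  have h1 := jac_swap (k := k) h.rel (h.cell_ne hij m.rev)
  have h2 := cell_swap h.rel i j m.rev
  rw [Fin.rev_rev] at h1 h2
  refine jacTo_step (h.cell_ne hij m.rev) (hT m.rev) ?_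
  have h3 : (z (cellIdx j i m) / z (cellIdx i j m.rev)) ^ (-4 : ℤ) = 1 := by
    rw [h2, neg_div, div_self (h.cell_ne hij m.rev)]
    norm_num
  rw [h3]
  exact h1

private theorem jacTo_left {i i' j : Fin 10} (hij : i ≠ j) (hij' : i' ≠ j)
    (hT : ∀ m, JacTo k z i j m) (m : Fin 4) : JacTo k z i' j m := by
  by_cases hi : i' = i
  · rw [hi]
    exact hT m
  · exact jacTo_gamma h hij' (jacTo_step (h.cell_ne hij 3) (hT 3)
      (jac_pivot h.rel (h.cell_ne hij 3) (h.cell_ne hij' 3) hi)) m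

private theorem jacTo_right {i j j' : Fin 10} (hij : i ≠ j) (hij' : i ≠ j')
    (hT : ∀ m, JacTo k z i j m) (m : Fin 4) : JacTo k z i j' m :=
  jacTo_swap h hij'.symm (jacTo_left h hij.symm hij'.symm (jacTo_swap h hij hT)) m

end aux

/-- The Jacobian from the main cell to any cell. For the proof: `JacTo c := JacRel k x^(c0) x^c
((z_c / z_c0)^(-4))`; by the three moves and `JacRel.trans` it passes from `(i, j, m)` to
`(j, i, m.rev)`, `(i, j, m')`, and from `(i, j, 3)` to `(i', j, 3)`, so from `(i, j, m)` to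
`(i', j, m')` (`i' ≠ j`) and to `(i, j', m')` (`j' ≠ i`). From `(0, 1)` go to `(i, 1)` and
`(i, j)` if `i ≠ 1`; to `(0, j)` and `(1, j)` if `i = 1`, `j ≠ 0`; exchange if
`(i, j) = (1, 0)`. -/
theorem jac_cell {k : Type*} [Field k] [CharZero k] {K : Type*} [Field K] [Algebra k K]
    {z : Idx → K} (h : IsGenX k z) {i j : Fin 10} (hij : i ≠ j) (m : Fin 4) :
    JacRel k (cellCoord z 0 1 0) (cellCoord z i j m)
      ((z (cellIdx i j m) / z (cellIdx 0 1 0)) ^ (-4 : ℤ)) := by
  have h01 : (0 : Fin 10) ≠ 1 := by decide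
  have h0 : ∀ m, JacTo k z 0 1 m := jacTo_gamma h h01 (jacTo_start h)
  by_cases hi : i = 1
  · subst hi
    by_cases hj : j = 0
    · subst hj
      exact jacTo_swap h h01 h0 m
    · exact jacTo_left h (Ne.symm hj) hij (jacTo_right h h01 (Ne.symm hj) h0) m
  · exact jacTo_right h hi hij (jacTo_left h h01 hi h0) m

end MP9a7843
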