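import Pool.Agent.Lib.MP_9a7843_ag_V.Canon
import Pool.Agent.Lib.MP_9a7843_ag_X.Aff
import Pool.Agent.Lib.MP_9a7843_ag_X.JacC

/-!
# MP_9a7843_ag, block X, module Can: `-4` times the hyperplane class is the canonical class of `X`
-/

noncomputable section

open MvPolynomial

open scoped KaehlerDifferential

open Pool.Agent.MP9a7843 Pool.Agent.MP9a7843.ProjVar

namespace MP9a7843

universe u

variable {k : Type u} [Field k]

theorem dim_XX : (XX k).dim = 19 := by
  unfold ProjVar.dim
  rw [isGenX_XX.trdeg]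
  exact Cardinal.toNat_ofNat 19

private theorem Can_jac {K : Type u} [Field K] [Algebra k K] {σ : Type} [Fintype σ]
    [i : DecidableEq σ] (B : Module.Basis σ K (Ω[K⁄k])) (v : σ → K) :
    jac B v = (Matrix.of fun a b => B.repr (KaehlerDifferential.D k K (v b)) a).det := by
  have h : i = fun a b => Classical.propDecidable (a = b) := Subsingleton.elim _ _
  subst h
  rfl

/-- A Jacobian relation in terms of `jac` (`Module.Basis.det` of a linear combination of the rows). -/
theorem jac_of_jacRel {K : Type u} [Field K] [Algebra k K] {n : ℕ} {σ τ : Type} [Fintype σ]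
    [DecidableEq σ] {x : σ → K} {y : τ → K} {r : K} (h : JacRel k x y r)
    (B : Module.Basis (Fin n) K (Ω[K⁄k])) (e : Fin n ≃ σ) (e' : Fin n ≃ τ) :
    jac B (y ∘ e') = r * jac B (x ∘ e) ∨ jac B (y ∘ e') = -(r * jac B (x ∘ e)) := by
  obtain ⟨e0, M, hM, hdet⟩ := h
  let p : Equiv.Perm (Fin n) := e'.trans (e0.symm.trans e.symm)
  have hp : ∀ s, e' s = e0 (e (p s)) := fun s => by simp [p]
  let A : Matrix (Fin n) (Fin n) K :=
    Matrix.of fun a b => B.repr (KaehlerDifferential.D k K (x (e b))) a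
  let M' : Matrix (Fin n) (Fin n) K := M.submatrix e e
  have h1 : jac B (y ∘ e') = ((A * M'.transpose).submatrix id p).det := by
    rw [Can_jac]
    congr 1
    ext a b
    rw [Matrix.of_apply, Matrix.submatrix_apply, Matrix.mul_apply, Function.comp_apply, hp b,
      hM (e (p b)), ← Equiv.sum_comp e, map_sum, Finset.sum_apply']
    refine Finset.sum_congr rfl fun t _ => ?_
    rw [map_smul, Finsupp.smul_apply, smul_eq_mul, mul_comm]
    rfl
  have h2 : jac B (x ∘ e) = A.det := Can_jac B _
  have h3 : M'.det = M.det := Matrix.det_submatrix_equiv_self e M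
  rw [h1, h2, Matrix.det_permute', Matrix.det_mul, Matrix.det_transpose, h3]
  rcases Int.units_eq_one_or (Equiv.Perm.sign p) with hs | hs <;> rcases hdet with hd | hd <;>
    rw [hs, hd]
  · left
    simp [mul_comm]
  · right
    simp [mul_comm]
  · right
    simp [mul_comm]
  · left
    simp [mul_comm]

variable [CharZero k]

/-- The differentials of the coordinates of a cell are a basis (`exists_isDB`, `indep_cell`,
`gen_cell`). -/
theorem isDB_cell {i j : Fin 10} {m : Fin 4} (hij : i ≠ j) (e : Fin (XX k).dim ≃ CellVar i j m) :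
    ∃ B : Module.Basis (Fin (XX k).dim) (XX k).K (Ω[(XX k).K⁄k]),
      IsDB B (cellCoord (XX k).z i j m ∘ e) := by
  have h1 : Set.range (cellCoord (XX k).z i j m ∘ e) = Set.range (cellCoord (XX k).z i j m) :=
    e.surjective.range_comp _
  refine exists_isDB _ ((isGenX_XX.indep_cell hij m).comp e e.injective) ?_
  rw [h1, isGenX_XX.gen_cell hij m]
  exact ⟨fun a => isAlgebraic_algebraMap
    (⟨a, IntermediateField.mem_top⟩ : (⊤ : IntermediateField k (XX k).K))⟩

omit [CharZero k] in
private theorem Can_span_neg {Y : ProjVar k} {y : Y.ι → k} (a : Y.K) :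
    Submodule.span (Y.loc y) {-a} = Submodule.span (Y.loc y) {a} := by
  refine le_antisymm ?_ ?_
  · rw [Submodule.span_singleton_le_iff_mem]
    exact neg_mem (Submodule.mem_span_singleton_self a)
  · rw [Submodule.span_singleton_le_iff_mem]
    have h := neg_mem (Submodule.mem_span_singleton_self (R := Y.loc y) (-a))
    rwa [neg_neg] at h

omit [CharZero k] in
private theorem Can_span_unit {Y : ProjVar k} {y : Y.ι → k} {u : Y.K} (hu : Y.UnitAt y u)
    (h0 : u ≠ 0) (a : Y.K) :
    Submodule.span (Y.loc y) {u * a} = Submodule.span (Y.loc y) {a} := by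
  refine le_antisymm ?_ ?_
  · rw [Submodule.span_singleton_le_iff_mem, Submodule.mem_span_singleton]
    exact ⟨⟨u, hu.1⟩, rfl⟩
  · rw [Submodule.span_singleton_le_iff_mem, Submodule.mem_span_singleton]
    refine ⟨⟨u⁻¹, hu.2⟩, ?_⟩
    change u⁻¹ * (u * a) = a
    rw [inv_mul_cancel_left₀ h0]

/-- The module of regular forms at a point of a cell (`jacMod_eq`, `deriv_mem_loc`,
`jac_cell`). -/
theorem jacMod_XX {B : Module.Basis (Fin (XX k).dim) (XX k).K (Ω[(XX k).K⁄k])}
    {e : Fin (XX k).dim ≃ CellVar 0 1 0} (hB : IsDB B (cellCoord (XX k).z 0 1 0 ∘ e))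
    {y : Idx → k} (hy : (XX k).IsPt y) {i j : Fin 10} {m : Fin 4} (hc : y (cellIdx i j m) ≠ 0) :
    jacMod B y = Submodule.span ((XX k).loc y)
      {((XX k).z (cellIdx i j m) / (XX k).z (cellIdx 0 1 0)) ^ (-4 : ℤ)} := by
  have hij : i ≠ j := ne_of_cell (rel_of_isPt hy) hc
  have hcard : Fintype.card (Fin (XX k).dim) = Fintype.card (CellVar i j m) := by
    rw [Fintype.card_fin, dim_XX, card_cellVar hij m]
  let e' : Fin (XX k).dim ≃ CellVar i j m := Fintype.equivOfCardEq hcard
  obtain ⟨B', hB'⟩ := isDB_cell hij e'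
  rw [jacMod_eq B hB' (fun s => cellCoord_mem_loc hc (e' s)) fun δ h a ha =>
    deriv_mem_loc hy hc δ (fun s => by simpa using h (e'.symm s)) ha]
  have h1 := jac_of_jacRel (jac_cell (k := k) isGenX_XX hij m) B e e'
  rw [jac_self hB, mul_one] at h1
  rcases h1 with h1 | h1
  · rw [h1]
  · rw [h1]
    exact Can_span_neg _

/-- A divisor with the local equations `hyperplane^(-4)` up to units is canonical: use
`isCanonical_of_jacMod` with `s = (z_(i0) / z_(c0))^(-4)`, where `z_(i0)` is the coordinate used in the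
definition of `hyperplane`. -/
theorem isCanonical_XX {D : (XX k).CaDiv} (hD : ∀ y : Idx → k, (XX k).IsPt y →
    (XX k).UnitAt y (D.eq y / ((XX k).hyperplane.eq y) ^ (-4 : ℤ))) : D.IsCanonical := by
  have hcard : Fintype.card (Fin (XX k).dim) = Fintype.card (CellVar 0 1 0) := by
    rw [Fintype.card_fin, dim_XX, card_cellVar (by decide) 0]
  let e : Fin (XX k).dim ≃ CellVar 0 1 0 := Fintype.equivOfCardEq hcard
  obtain ⟨B, hB⟩ := isDB_cell (k := k) (i := 0) (j := 1) (m := 0) (by decide) e
  have hz0 : (XX k).z (cellIdx 0 1 0) ≠ 0 := by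
    rw [show (XX k).z (cellIdx 0 1 0) = 1 from xz_ne k]
    exact one_ne_zero
  have hi0 : (XX k).z (Classical.epsilon fun i => (XX k).z i ≠ 0) ≠ 0 :=
    Classical.epsilon_spec (XX k).exists_ne_zero
  refine isCanonical_of_jacMod B (s := ((XX k).z (Classical.epsilon fun i => (XX k).z i ≠ 0) /
    (XX k).z (cellIdx 0 1 0)) ^ (-4 : ℤ)) (zpow_ne_zero _ (div_ne_zero hi0 hz0)) ?_
  intro y hy
  obtain ⟨i, j, m, hij, hc⟩ := exists_cell_pt hy
  have hj : y (Classical.epsilon fun j => y j ≠ 0) ≠ 0 := Classical.epsilon_spec hy.1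
  have hzj : (XX k).z (Classical.epsilon fun j => y j ≠ 0) ≠ 0 := z_ne_zero hy hj
  have hzc : (XX k).z (cellIdx i j m) ≠ 0 := z_ne_zero hy hc
  have hh : (XX k).hyperplane.eq y = (XX k).z (Classical.epsilon fun i => (XX k).z i ≠ 0) /
      (XX k).z (Classical.epsilon fun j => y j ≠ 0) := rfl
  have hD' := hD y hy
  have hD0 := D.eq_ne_zero y hy
  rw [hh] at hD'
  rw [jacMod_XX hB hy hc]
  have hu1 : (XX k).UnitAt y ((XX k).z (cellIdx i j m) /
      (XX k).z (Classical.epsilon fun j => y j ≠ 0)) :=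
    ⟨coord_div_mem _ hj, by rw [inv_div]; exact coord_div_mem _ hc⟩
  have hu2 : (XX k).UnitAt y (((XX k).z (cellIdx i j m) /
      (XX k).z (Classical.epsilon fun j => y j ≠ 0)) ^ (-4 : ℤ)) := by
    refine ⟨?_, ?_⟩
    · rw [zpow_neg, ← inv_zpow]
      exact pow_mem hu1.2 4
    · rw [zpow_neg, inv_inv]
      exact pow_mem hu1.1 4
  have hu0 := mul_ne_zero (zpow_ne_zero (-4) (div_ne_zero hzc hzj)) (div_ne_zero hD0
    (zpow_ne_zero (-4) (div_ne_zero hi0 hzj)))
  refine Eq.trans ?_ (Can_span_unit (hu2.mul hD') hu0 _)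
  congr 2
  generalize (XX k).z (Classical.epsilon fun j => y j ≠ 0) = a at *
  generalize (XX k).z (Classical.epsilon fun i => (XX k).z i ≠ 0) = b at *
  generalize (XX k).z (cellIdx i j m) = c at *
  generalize (XX k).z (cellIdx 0 1 0) = d at *
  simp only [div_zpow, zpow_neg]
  field_simp

theorem isCanonical_hyp : ((XX k).hyperplane.zsmul (-4)).IsCanonical :=
  isCanonical_XX fun y hy => by
    have h0 := (XX k).hyperplane.eq_ne_zero y hy
    change (XX k).UnitAt y (((XX k).hyperplane.eq y) ^ (-4 : ℤ) / _)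
    rw [div_self (zpow_ne_zero _ h0)]
    exact unitAt_one

/-- Every canonical divisor of `X` is linearly equivalent to `-4` times a hyperplane section. -/
theorem canonical_XX {KX : (XX k).CaDiv} (h : KX.IsCanonical) : ∃ φ : (XX k).K, φ ≠ 0 ∧
    ∀ y : Idx → k, (XX k).IsPt y →
      (XX k).UnitAt y (KX.eq y / (φ * ((XX k).hyperplane.eq y) ^ (-4 : ℤ))) :=
  IsCanonical_unique h isCanonical_hyp

end MP9a7843
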