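import Pool.Agent.Lib.MP_9a7843_ag_X.Cls
import Pool.Agent.Lib.MP_9a7843_ag_X.Can

/-!
# MP_9a7843_ag, block X, module WF: `X` is smooth and (weak) Fano, `1 ≤ a(X, -K_X)`
-/

noncomputable section

open MvPolynomial

open Pool.Agent.MP9a7843 Pool.Agent.MP9a7843.ProjVar

namespace MP9a7843

universe u

variable {k : Type u} [Field k] [IsAlgClosed k] [CharZero k]

theorem expSmooth : ExpSmooth k := smooth_XX

/-- The class of every canonical divisor of `X` is `-4` times the hyperplane class (`canonical_XX`,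
`deg_linEquiv`, `deg_zsmul`). -/
theorem cls_canonical {KX : (XX k).CaDiv} (h : KX.IsCanonical) (C : (XX k).Curve) :
    KX.cls C = -4 * ((XX k).deg C.c (XX k).hyperplane : ℝ) := by
  obtain ⟨φ, hφ, h1⟩ := canonical_XX h
  have h2 : (XX k).deg C.c KX = (XX k).deg C.c ((XX k).hyperplane.zsmul (-4)) := by
    refine deg_linEquiv C.isCurveField C.isPt hφ fun y hy => ?_
    have h3 := h1 y hy
    rw [mul_comm] at h3
    exact h3
  rw [deg_zsmul C.isCurveField C.isPt] at h2
  change ((XX k).deg C.c KX : ℝ) = _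
  rw [h2]
  push_cast
  ring

/-- `-K_X = 4 (hyperplane)` is big and nef (`big_of_pos`, `nef_of_pos`). -/
theorem expWeakFano : ExpWeakFano k := by
  have h : ∀ C : (XX k).Curve, (-((XX k).hyperplane.zsmul (-4)).cls) C =
      4 * ((XX k).deg C.c (XX k).hyperplane : ℝ) := by
    intro C
    rw [Pi.neg_apply, cls_canonical isCanonical_hyp]
    ring
  exact ⟨_, isCanonical_hyp, nef_of_pos (by norm_num) h, big_of_pos (by norm_num) h⟩

/-- `one_le_aInv` for a curve of bidegree `(1, 0)`, which is nef and has `K_X`-degree `-4`. -/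
theorem one_le_aInv_XX {KX : (XX k).CaDiv} (h : KX.IsCanonical) :
    1 ≤ (XX k).aInv KX.cls (-KX.cls) := by
  obtain ⟨C, -, h1, h2⟩ := exists_curve10 (k := k) 0 1 (isHomogeneous_one _ _)
    (fun h0 => one_ne_zero ((map_one (aeval (R := k) (XX k).z)).symm.trans h0))
  refine one_le_aInv C ?_ ?_
  · have h3 : (fun D => ((XX k).deg C.c D : ℝ)) = cl k 1 0 := by
      funext D
      rw [deg_eq_cl C.isCurveField C.isPt D, h1, h2]
      norm_num
    rw [h3, mem_Nef1_iff]
    norm_num
  · have h3 := cls_canonical h C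
    rw [deg_hyp C.isCurveField C.isPt, h1, h2] at h3
    have h4 : ((XX k).deg C.c KX : ℝ) < 0 := by
      change KX.cls C < 0
      rw [h3]
      norm_num
    exact_mod_cast h4

end MP9a7843
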