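import Pool.Agent.Lib.MP_9a7843_ag_X.Cells

/-!
# MP_9a7843_ag, block X, module Jac: Jacobian relations between systems of coordinates
-/

noncomputable section

open MvPolynomial

open scoped KaehlerDifferential

namespace MP9a7843

/-- The determinant of a matrix which is triangular with respect to a rank function `ht`:
for a permutation `p ≠ 1` with all `M (p a) a ≠ 0` one has `ht a ≤ ht (p a)` for all `a`, with strict
inequality for some `a`, but both sides have the same sum. -/
theorem det_of_ht {σ : Type*} [Fintype σ] [DecidableEq σ] {R : Type*} [CommRing R]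
    (M : Matrix σ σ R) (ht : σ → ℕ) (h : ∀ a b, M a b ≠ 0 → a = b ∨ ht b < ht a) :
    M.det = ∏ a, M a a := by
  rw [Matrix.det_apply', Finset.sum_eq_single (1 : Equiv.Perm σ)]
  · simp
  · intro p _ hp
    have h1 : ∃ a, M (p a) a = 0 := by
      by_contra hcon
      push Not at hcon
      have h2 : ∀ a, p a = a ∨ ht a < ht (p a) := fun a => h (p a) a (hcon a)
      obtain ⟨a, ha⟩ : ∃ a, p a ≠ a := by
        by_contra hc
        push Not at hc
        exact hp (Equiv.ext hc)
      have h3 : ∑ a, ht a < ∑ a, ht (p a) := by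
        refine Finset.sum_lt_sum (fun b _ => ?_) ⟨a, Finset.mem_univ a, ?_⟩
        · rcases h2 b with h4 | h4
          · rw [h4]
          · exact h4.le
        · rcases h2 a with h4 | h4
          · exact absurd h4 ha
          · exact h4
      rw [Equiv.sum_comp p ht] at h3
      exact lt_irrefl _ h3
    obtain ⟨a, ha⟩ := h1
    have h5 : ∏ i, M (p i) i = 0 :=
      Finset.prod_eq_zero (f := fun i => M (p i) i) (Finset.mem_univ a) ha
    rw [h5, mul_zero]
  · intro h1
    exact absurd (Finset.mem_univ _) h1

section JacRel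

variable (k : Type*) [Field k] {K : Type*} [Field K] [Algebra k K]

/-- `y` is a second system of coordinates with `dy_1 ∧ … ∧ dy_n = ± r dx_1 ∧ … ∧ dx_n`. -/
def JacRel {σ τ : Type} [Fintype σ] [DecidableEq σ] (x : σ → K) (y : τ → K) (r : K) : Prop :=
  ∃ (e : σ ≃ τ) (M : Matrix σ σ K), (∀ a, KaehlerDifferential.D k K (y (e a)) =
    ∑ b, M a b • KaehlerDifferential.D k K (x b)) ∧ (M.det = r ∨ M.det = -r)

variable {k}

theorem JacRel.refl {σ : Type} [Fintype σ] [DecidableEq σ] (x : σ → K) : JacRel k x x 1 := by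
  refine ⟨Equiv.refl _, 1, fun a => ?_, Or.inl Matrix.det_one⟩
  simp [Matrix.one_apply]

/-- Product of the matrices. -/
theorem JacRel.trans {σ τ ρ : Type} [Fintype σ] [DecidableEq σ] [Fintype τ] [DecidableEq τ]
    {x : σ → K} {y : τ → K} {w : ρ → K} {r s : K} (h : JacRel k x y r) (h' : JacRel k y w s) :
    JacRel k x w (r * s) := by
  obtain ⟨e, M, hM, hdet⟩ := h
  obtain ⟨e', M', hM', hdet'⟩ := h'
  refine ⟨e.trans e', M'.submatrix e e * M, fun a => ?_, ?_⟩
  · rw [Equiv.trans_apply, hM' (e a), ← Equiv.sum_comp e]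
    have h1 : ∀ a' : σ, M' (e a) (e a') • KaehlerDifferential.D k K (y (e a')) =
        ∑ b, (M'.submatrix e e a a' * M a' b) • KaehlerDifferential.D k K (x b) := by
      intro a'
      rw [hM a', Finset.smul_sum]
      refine Finset.sum_congr rfl fun b _ => ?_
      rw [smul_smul]
      rfl
    rw [Finset.sum_congr rfl fun a' _ => h1 a', Finset.sum_comm]
    refine Finset.sum_congr rfl fun b _ => ?_
    rw [← Finset.sum_smul, Matrix.mul_apply]
  · rw [Matrix.det_mul, Matrix.det_submatrix_equiv_self]
    rcases hdet with h1 | h1 <;> rcases hdet' with h2 | h2 <;> rw [h1, h2]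
    · exact Or.inl (mul_comm _ _)
    · exact Or.inr (by ring)
    · exact Or.inr (by ring)
    · exact Or.inl (by ring)

end JacRel

end MP9a7843
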