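import Pool.Agent.Lib.MP_9a7843_ag_X.Jac

/-!
# MP_9a7843_ag, block X, module JacS: exchange of the basis vectors, change of the normalisation
-/

noncomputable section

open MvPolynomial

open scoped KaehlerDifferential

namespace MP9a7843

variable {k : Type*} [Field k] {K : Type*} [Field K] [Algebra k K] {z : Idx → K}

omit [Field k] [Algebra k K] in
private theorem rev_cub (h : Rel z) (i j : Fin 10) (m : Fin 4) (P : Fin 10 × Fin 10) :
    z (cubIdx j i m.rev, P) = z (cubIdx i j m, P) := by
  fin_cases m
  · rfl
  · change z ((j, i, i), P) = z ((i, i, j), P)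
    rw [h.sym1, h.sym2]
  · change z ((j, j, i), P) = z ((i, j, j), P)
    rw [h.sym2, h.sym1]
  · rfl

omit [Field k] [Algebra k K] in
private theorem swap_E (h : Rel z) {i j : Fin 10} {m : Fin 4} (l : Fin 10) :
    cellE z j i m.rev l = cellE' z i j m l := by
  unfold cellE cellE'
  rw [rev_cub h, h.alt, cell_swap h, neg_div_neg_eq]

omit [Field k] [Algebra k K] in
private theorem swap_E' (h : Rel z) {i j : Fin 10} {m : Fin 4} (l : Fin 10) :
    cellE' z j i m.rev l = cellE z i j m l := by
  unfold cellE cellE'
  rw [rev_cub h, h.alt, cell_swap h, neg_div_neg_eq]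

omit [Field k] [Algebra k K] in
private theorem swap_G (h : Rel z) {i j : Fin 10} {m : Fin 4} (m' : Fin 4) :
    cellG z j i m.rev m'.rev = cellG z i j m m' := by
  unfold cellG
  rw [rev_cub h, h.alt, cell_swap h, neg_div_neg_eq]

/-- The exchange of the names. -/
private def swapE (i j : Fin 10) (m : Fin 4) : CellVar i j m ≃ CellVar j i m.rev where
  toFun := Sum.elim (fun l => Sum.inr (Sum.inl ⟨l.1, l.2.symm⟩))
    (Sum.elim (fun l => Sum.inl ⟨l.1, l.2.symm⟩)
      (fun m' => Sum.inr (Sum.inr ⟨m'.1.rev, fun h => m'.2 (Fin.rev_injective h)⟩)))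
  invFun := Sum.elim (fun l => Sum.inr (Sum.inl ⟨l.1, l.2.symm⟩))
    (Sum.elim (fun l => Sum.inl ⟨l.1, l.2.symm⟩)
      (fun m' => Sum.inr (Sum.inr ⟨m'.1.rev,
        fun h => m'.2 ((Fin.rev_rev m'.1).symm.trans (congrArg Fin.rev h))⟩)))
  left_inv := by
    rintro (x | x | x)
    · rfl
    · rfl
    · simp
  right_inv := by
    rintro (x | x | x)
    · rfl
    · rfl
    · simp

/-- Exchange of the basis vectors: the coordinates are the same up to order (`E` and `E'` are
exchanged, `γ_m'` becomes `γ_(3-m')`), `z` only changes its sign (`cell_swap`). -/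
theorem jac_swap (h : Rel z) {i j : Fin 10} {m : Fin 4} (hc : z (cellIdx i j m) ≠ 0) :
    JacRel k (cellCoord z i j m) (cellCoord z j i m.rev) 1 := by
  refine ⟨swapE i j m, 1, fun a => ?_, Or.inl Matrix.det_one⟩
  have h1 : cellCoord z j i m.rev (swapE i j m a) = cellCoord z i j m a := by
    rcases a with x | x | x
    · exact swap_E' h x.1
    · exact swap_E h x.1
    · exact swap_G h x.1
  rw [h1]
  simp [Matrix.one_apply]

/-- Renaming of the coefficients. -/
private def gamE (i j : Fin 10) {m m' : Fin 4} : CellVar i j m ≃ CellVar i j m' :=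
  Equiv.sumCongr (Equiv.refl _) (Equiv.sumCongr (Equiv.refl _)
    ((Equiv.swap m m').subtypeEquiv fun a => by
      rw [not_iff_not]
      constructor
      · rintro rfl
        exact Equiv.swap_apply_left _ _
      · intro h
        exact (Equiv.swap m m').injective (h.trans (Equiv.swap_apply_left m m').symm)))

/-- Change of the normalised coefficient from `m` to `m' ≠ m`: `E`, `E'` do not change (Segre
relations), `γ~_m'' = γ_m'' / γ_m'` for `m'' ≠ m, m'`, `γ~_m = 1 / γ_m'`. With
`ht (γ_m') = 0` and `ht = 1` for the other coordinates, the matrix is triangular with diagonal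
`1, …, 1`, `γ_m'^(-1)` (twice) and `-γ_m'^(-2)`; here `γ_m' = z_c' / z_c`. -/
theorem jac_gamma (h : Rel z) {i j : Fin 10} {m m' : Fin 4} (hc : z (cellIdx i j m) ≠ 0)
    (hc' : z (cellIdx i j m') ≠ 0) (hm : m' ≠ m) :
    JacRel k (cellCoord z i j m) (cellCoord z i j m')
      ((z (cellIdx i j m') / z (cellIdx i j m)) ^ (-4 : ℤ)) := by
  classical
  set g : K := z (cellIdx i j m') / z (cellIdx i j m) with hg
  have hg0 : g ≠ 0 := div_ne_zero hc' hc
  have hE : ∀ l, cellE z i j m' l = cellE z i j m l := by
    intro l
    unfold cellE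
    rw [div_eq_div_iff hc' hc]
    exact (h.segre _ _ _ _).trans (mul_comm _ _)
  have hE' : ∀ l, cellE' z i j m' l = cellE' z i j m l := by
    intro l
    unfold cellE'
    rw [div_eq_div_iff hc' hc]
    exact (h.segre _ _ _ _).trans (mul_comm _ _)
  have hG : ∀ m'', cellG z i j m' m'' = cellG z i j m m'' / g := by
    intro m''
    unfold cellG
    rw [hg, div_div_div_cancel_right₀ hc]
  have hGm : cellG z i j m' m = 1 / g := by
    rw [hG, cellG_self hc]
  have hGm' : cellG z i j m m' = g := rfl
  let a' : CellVar i j m := Sum.inr (Sum.inr ⟨m', hm⟩)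
  let dg : CellVar i j m → K := Sum.elim (fun _ => 1) (Sum.elim (fun _ => 1)
    (fun x => if x.1 = m' then -(g⁻¹ ^ 2) else g⁻¹))
  let of : CellVar i j m → K := Sum.elim (fun _ => 0) (Sum.elim (fun _ => 0)
    (fun x => -(g⁻¹ ^ 2 * cellG z i j m x.1)))
  let M : Matrix (CellVar i j m) (CellVar i j m) K :=
    fun a b => if a = b then dg a else if b = a' then of a else 0
  have hsum : ∀ (a : CellVar i j m), a ≠ a' → ∑ b, M a b • KaehlerDifferential.D k K
      (cellCoord z i j m b) = dg a • KaehlerDifferential.D k K (cellCoord z i j m a) +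
        of a • KaehlerDifferential.D k K (cellCoord z i j m a') := by
    intro a ha
    rw [Finset.sum_eq_add a a' ha]
    · simp only [M, if_pos, if_neg ha]
    · rintro b - ⟨hb, hb'⟩
      simp only [M, if_neg hb.symm, if_neg hb', zero_smul]
    · exact fun h => absurd (Finset.mem_univ _) h
    · exact fun h => absurd (Finset.mem_univ _) h
  have hsum' : ∑ b, M a' b • KaehlerDifferential.D k K (cellCoord z i j m b) =
      dg a' • KaehlerDifferential.D k K (cellCoord z i j m a') := by
    rw [Finset.sum_eq_single a']
    · simp only [M, if_pos]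
    · rintro b - hb
      simp only [M, if_neg hb.symm, if_neg hb, zero_smul]
    · exact fun h => absurd (Finset.mem_univ _) h
  refine ⟨gamE i j, M, fun a => ?_, Or.inr ?_⟩
  · rcases a with x | x | x
    · rw [hsum _ (by simp [a'])]
      simp only [dg, of, Sum.elim_inl, one_smul, zero_smul, add_zero]
      exact congrArg _ (hE x.1)
    · rw [hsum _ (by simp [a'])]
      simp only [dg, of, Sum.elim_inl, Sum.elim_inr, one_smul, zero_smul, add_zero]
      exact congrArg _ (hE' x.1)
    · by_cases hx : x.1 = m'
      · have hxa : (Sum.inr (Sum.inr x) : CellVar i j m) = a' := by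
          obtain ⟨x, hx'⟩ := x
          simp only at hx
          subst hx
          rfl
        rw [hxa, hsum']
        have h1 : cellCoord z i j m' (gamE i j a') = 1 / g := by
          rw [← hGm]
          change cellG z i j m' (Equiv.swap m m' m') = _
          rw [Equiv.swap_apply_right]
        have h2 : cellCoord z i j m a' = g := rfl
        rw [h1, h2, one_div, Derivation.leibniz_inv]
        simp [dg, a']
      · have hxa : (Sum.inr (Sum.inr x) : CellVar i j m) ≠ a' := by
          intro h1
          exact hx (congrArg Subtype.val (Sum.inr_injective (Sum.inr_injective h1)))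
        rw [hsum _ hxa]
        have h1 : cellCoord z i j m' (gamE i j (Sum.inr (Sum.inr x))) =
            cellG z i j m x.1 / g := by
          rw [← hG]
          change cellG z i j m' (Equiv.swap m m' x.1) = _
          rw [Equiv.swap_apply_of_ne_of_ne x.2 hx]
        have h2 : cellCoord z i j m a' = g := rfl
        have h3 : cellCoord z i j m (Sum.inr (Sum.inr x)) = cellG z i j m x.1 := rfl
        rw [h1, h2, h3, Derivation.leibniz_div, smul_sub, smul_smul, smul_smul, sub_eq_add_neg,
          ← neg_smul]
        simp only [dg, of, Sum.elim_inr, if_neg hx]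
        congr 2
        field_simp
  · rw [det_of_ht M (fun a => if a = a' then 0 else 1) (fun a b hab => ?_)]
    · have h1 : ∀ a, M a a = dg a := fun a => by simp only [M, if_pos]
      rw [Finset.prod_congr rfl fun a _ => h1 a, Fintype.prod_sum_type, Fintype.prod_sum_type]
      simp only [dg, Sum.elim_inl, Sum.elim_inr, Finset.prod_const_one, one_mul]
      have h2 : ∏ x : {m'' : Fin 4 // m'' ≠ m}, (if x.1 = m' then -(g⁻¹ ^ 2) else g⁻¹) =
          ∏ x ∈ Finset.univ.erase m, (if x = m' then -(g⁻¹ ^ 2) else g⁻¹) := by
        rw [Finset.prod_subtype (Finset.univ.erase m) (p := fun x => x ≠ m) (fun x => by simp)]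
      rw [h2, ← Finset.mul_prod_erase _ _ (Finset.mem_erase.2 ⟨hm, Finset.mem_univ _⟩),
        if_pos rfl, Finset.prod_congr rfl (g := fun _ => g⁻¹) (fun x hx => by
          rw [if_neg (Finset.mem_erase.1 hx).1]), Finset.prod_const,
        Finset.card_erase_of_mem (Finset.mem_erase.2 ⟨hm, Finset.mem_univ _⟩),
        Finset.card_erase_of_mem (Finset.mem_univ _), Finset.card_univ, Fintype.card_fin]
      rw [zpow_neg, ← inv_zpow]
      norm_num
      ring
    · by_cases h1 : a = b
      · exact Or.inl h1
      · refine Or.inr ?_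
        simp only [M, if_neg h1] at hab
        by_cases h2 : b = a'
        · rw [if_pos h2, if_neg fun h3 => h1 (h3.trans h2.symm)]
          exact one_pos
        · rw [if_neg h2] at hab
          exact absurd rfl hab

end MP9a7843
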