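import Pool.Agent.Lib.MP_9a7843_ag_B.Base

/-!
# MP_9a7843_ag, block X, module Rel: the quadrics of `X` and the cell formula

`Rel z` is a list of quadratic (and linear) relations which hold for all `zfun u v c`. Conversely a
nonzero vector over a field which satisfies them has a nonzero cell coordinate `z_c`, and then
`z = z_c * zfun (cellE, cellE', cellG)` (cell formula).
-/

namespace MP9a7843

section ring

variable {R S : Type*} [CommRing R] [CommRing S]

/-- The equations of `X`: symmetry, skew symmetry, Segre relations, incidence `F ∈ S^3 Π`, and the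
Pluecker relations. -/
structure Rel (z : Idx → R) : Prop where
  sym1 : ∀ (a b d : Fin 10) (P : Fin 10 × Fin 10), z ((a, b, d), P) = z ((b, a, d), P)
  sym2 : ∀ (a b d : Fin 10) (P : Fin 10 × Fin 10), z ((a, b, d), P) = z ((a, d, b), P)
  alt : ∀ (A : Fin 10 × Fin 10 × Fin 10) (d e : Fin 10), z (A, (d, e)) = -z (A, (e, d))
  alt0 : ∀ (A : Fin 10 × Fin 10 × Fin 10) (d : Fin 10), z (A, (d, d)) = 0
  segre : ∀ (A A' : Fin 10 × Fin 10 × Fin 10) (P P' : Fin 10 × Fin 10),
    z (A, P) * z (A', P') = z (A, P') * z (A', P)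
  inc : ∀ (a b d i j : Fin 10) (A : Fin 10 × Fin 10 × Fin 10),
    z ((a, b, d), (i, j)) * z (A, (i, j)) =
      z ((i, b, d), (i, j)) * z (A, (a, j)) + z ((j, b, d), (i, j)) * z (A, (i, a))
  plu : ∀ (A A' : Fin 10 × Fin 10 × Fin 10) (a b i j : Fin 10),
    z (A, (a, b)) * z (A', (i, j)) =
      z (A, (a, j)) * z (A', (i, b)) - z (A, (b, j)) * z (A', (i, a))

theorem map_cub (f : R →+* S) (u v : Fin 10 → R) (c : Fin 4 → R) (a b d : Fin 10) :
    f (cub u v c a b d) = cub (fun i => f (u i)) (fun i => f (v i)) (fun i => f (c i)) a b d := by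
  simp [cub]

theorem map_plu (f : R →+* S) (u v : Fin 10 → R) (d e : Fin 10) :
    f (plu u v d e) = plu (fun i => f (u i)) (fun i => f (v i)) d e := by
  simp [plu]

theorem map_zfun (f : R →+* S) (u v : Fin 10 → R) (c : Fin 4 → R) (I : Idx) :
    f (zfun u v c I) = zfun (fun i => f (u i)) (fun i => f (v i)) (fun i => f (c i)) I := by
  simp [zfun, map_cub, map_plu]

theorem rel_zfun (u v : Fin 10 → R) (c : Fin 4 → R) : Rel (zfun u v c) where
  sym1 a b d P := by simp only [zfun, cub]; ring
  sym2 a b d P := by simp only [zfun, cub]; ring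
  alt A d e := by simp only [zfun, MP9a7843.plu]; ring
  alt0 A d := by simp only [zfun, MP9a7843.plu]; ring
  segre A A' P P' := by simp only [zfun]; ring
  inc a b d i j A := by simp only [zfun, cub, MP9a7843.plu]; ring
  plu A A' a b i j := by simp only [zfun, MP9a7843.plu]; ring

theorem Rel.smul {z : Idx → R} (h : Rel z) (r : R) : Rel (r • z) where
  sym1 a b d P := by simp only [Pi.smul_apply, h.sym1 a b d P]
  sym2 a b d P := by simp only [Pi.smul_apply, h.sym2 a b d P]
  alt A d e := by simp only [Pi.smul_apply, smul_eq_mul, h.alt A d e]; ring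
  alt0 A d := by simp only [Pi.smul_apply, smul_eq_mul, h.alt0 A d]; ring
  segre A A' P P' := by
    simp only [Pi.smul_apply, smul_eq_mul]; linear_combination r ^ 2 * h.segre A A' P P'
  inc a b d i j A := by
    simp only [Pi.smul_apply, smul_eq_mul]; linear_combination r ^ 2 * h.inc a b d i j A
  plu A A' a b i j := by
    simp only [Pi.smul_apply, smul_eq_mul]; linear_combination r ^ 2 * h.plu A A' a b i j

theorem Rel.map {z : Idx → R} (h : Rel z) (f : R →+* S) : Rel (fun I => f (z I)) where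
  sym1 a b d P := congrArg f (h.sym1 a b d P)
  sym2 a b d P := congrArg f (h.sym2 a b d P)
  alt A d e := by rw [h.alt A d e, map_neg]
  alt0 A d := by rw [h.alt0 A d, map_zero]
  segre A A' P P' := by rw [← map_mul, h.segre A A' P P', map_mul]
  inc a b d i j A := by rw [← map_mul, h.inc a b d i j A, map_add, map_mul, map_mul]
  plu A A' a b i j := by rw [← map_mul, h.plu A A' a b i j, map_sub, map_mul, map_mul]

end ring

section field

variable {K : Type*} [Field K] {z : Idx → K}

theorem ne_of_cell (h : Rel z) {i j : Fin 10} {m : Fin 4} (hc : z (cellIdx i j m) ≠ 0) : i ≠ j := by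
  rintro rfl
  exact hc (h.alt0 _ _)

/-- The normalisations `E_i = 1, E_j = 0, E'_i = 0, E'_j = 1, γ_m = 1`. -/
theorem cellE_left {i j : Fin 10} {m : Fin 4} (hc : z (cellIdx i j m) ≠ 0) :
    cellE z i j m i = 1 := div_self hc

theorem cellE_right (h : Rel z) {i j : Fin 10} {m : Fin 4} : cellE z i j m j = 0 := by
  simp [cellE, h.alt0]

theorem cellE'_left (h : Rel z) {i j : Fin 10} {m : Fin 4} : cellE' z i j m i = 0 := by
  simp [cellE', h.alt0]

theorem cellE'_right {i j : Fin 10} {m : Fin 4} (hc : z (cellIdx i j m) ≠ 0) :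
    cellE' z i j m j = 1 := div_self hc

theorem cellG_self {i j : Fin 10} {m : Fin 4} (hc : z (cellIdx i j m) ≠ 0) :
    cellG z i j m m = 1 := div_self hc

/-- The Pluecker part of the cell formula. -/
theorem cell_plu (h : Rel z) {i j : Fin 10} {m : Fin 4} (hc : z (cellIdx i j m) ≠ 0)
    (d e : Fin 10) : z (cubIdx i j m, (d, e)) = z (cellIdx i j m) *
      plu (cellE z i j m) (cellE' z i j m) d e := by
  have h1 := h.plu (cubIdx i j m) (cubIdx i j m) d e i j
  simp only [plu, cellE, cellE']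
  change z (cubIdx i j m, (i, j)) ≠ 0 at hc
  change z (cubIdx i j m, (d, e)) = z (cubIdx i j m, (i, j)) * (_ / z (cubIdx i j m, (i, j)) *
    (_ / z (cubIdx i j m, (i, j))) - _ / z (cubIdx i j m, (i, j)) *
    (_ / z (cubIdx i j m, (i, j))))
  field_simp
  linear_combination h1

/-- One index of the cubic part. -/
theorem cell_inc (h : Rel z) {i j : Fin 10} {m : Fin 4} (hc : z (cellIdx i j m) ≠ 0)
    (a b d : Fin 10) : z ((a, b, d), (i, j)) =
      cellE z i j m a * z ((i, b, d), (i, j)) + cellE' z i j m a * z ((j, b, d), (i, j)) := by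
  have h1 := h.inc a b d i j (cubIdx i j m)
  simp only [cellE, cellE']
  change z (cubIdx i j m, (i, j)) ≠ 0 at hc
  change _ = _ / z (cubIdx i j m, (i, j)) * _ + _ / z (cubIdx i j m, (i, j)) * _
  field_simp
  linear_combination h1

/-- The cubic part of the cell formula. -/
theorem cell_cub (h : Rel z) {i j : Fin 10} {m : Fin 4} (hc : z (cellIdx i j m) ≠ 0)
    (a b d : Fin 10) : z ((a, b, d), (i, j)) = z (cellIdx i j m) *
      cub (cellE z i j m) (cellE' z i j m) (cellG z i j m) a b d := by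
  have e0 : z (cellIdx i j m) * cellG z i j m 0 = z ((i, i, i), (i, j)) := by
    simp only [cellG]; rw [mul_div_cancel₀ _ hc]; rfl
  have e1 : z (cellIdx i j m) * cellG z i j m 1 = z ((i, i, j), (i, j)) := by
    simp only [cellG]; rw [mul_div_cancel₀ _ hc]; rfl
  have e2 : z (cellIdx i j m) * cellG z i j m 2 = z ((i, j, j), (i, j)) := by
    simp only [cellG]; rw [mul_div_cancel₀ _ hc]; rfl
  have e3 : z (cellIdx i j m) * cellG z i j m 3 = z ((j, j, j), (i, j)) := by
    simp only [cellG]; rw [mul_div_cancel₀ _ hc]; rfl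
  have f1 : z ((i, j, i), (i, j)) = z ((i, i, j), (i, j)) := h.sym2 _ _ _ _
  have f2 : z ((j, i, i), (i, j)) = z ((i, i, j), (i, j)) := (h.sym1 _ _ _ _).trans f1
  have f3 : z ((j, i, j), (i, j)) = z ((i, j, j), (i, j)) := h.sym1 _ _ _ _
  have f4 : z ((j, j, i), (i, j)) = z ((i, j, j), (i, j)) := (h.sym2 _ _ _ _).trans f3
  have g : ∀ x y : Fin 10, z ((x, y, d), (i, j)) = cellE z i j m d * z ((i, x, y), (i, j)) +
      cellE' z i j m d * z ((j, x, y), (i, j)) := by
    intro x y
    have : z ((x, y, d), (i, j)) = z ((d, x, y), (i, j)) := (h.sym2 _ _ _ _).trans (h.sym1 _ _ _ _)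
    rw [this]
    exact cell_inc h hc d x y
  rw [cell_inc h hc a b d, h.sym1 i b d, h.sym1 j b d, cell_inc h hc b i d, cell_inc h hc b j d,
    g i i, g i j, g j i, g j j, f1, f2, f3, f4]
  simp only [cub]
  linear_combination (-(cellE z i j m a * cellE z i j m b * cellE z i j m d)) * e0
    - (cellE z i j m a * cellE z i j m b * cellE' z i j m d
      + cellE z i j m a * cellE' z i j m b * cellE z i j m d
      + cellE' z i j m a * cellE z i j m b * cellE z i j m d) * e1
    - (cellE z i j m a * cellE' z i j m b * cellE' z i j m d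
      + cellE' z i j m a * cellE z i j m b * cellE' z i j m d
      + cellE' z i j m a * cellE' z i j m b * cellE z i j m d) * e2
    - (cellE' z i j m a * cellE' z i j m b * cellE' z i j m d) * e3

/-- **Cell formula.** -/
theorem cell_formula (h : Rel z) {i j : Fin 10} {m : Fin 4} (hc : z (cellIdx i j m) ≠ 0)
    (I : Idx) : z I = z (cellIdx i j m) *
      zfun (cellE z i j m) (cellE' z i j m) (cellG z i j m) I := by
  obtain ⟨⟨a, b, d⟩, ⟨x, y⟩⟩ := I
  have h1 := h.segre (a, b, d) (cubIdx i j m) (x, y) (i, j)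
  have h2 := cell_cub h hc a b d
  have h3 := cell_plu h hc x y
  refine mul_right_cancel₀ hc ?_
  change z ((a, b, d), (x, y)) * z (cubIdx i j m, (i, j)) = _
  rw [h1, h2, h3]
  simp only [zfun]
  ring

/-- If `F ≠ 0` and `P_ij ≠ 0` then one of the four coefficients of `F` for the pair `(i, j)` is not
zero. -/
theorem exists_m (h : Rel z) {A : Fin 10 × Fin 10 × Fin 10} {i j : Fin 10} (h0 : z (A, (i, j)) ≠ 0) :
    ∃ m : Fin 4, z (cellIdx i j m) ≠ 0 := by
  by_contra hcon
  push Not at hcon
  obtain ⟨a, b, d⟩ := A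
  have c0 : z ((i, i, i), (i, j)) = 0 := hcon 0
  have c1 : z ((i, i, j), (i, j)) = 0 := hcon 1
  have c2 : z ((i, j, j), (i, j)) = 0 := hcon 2
  have c3 : z ((j, j, j), (i, j)) = 0 := hcon 3
  have f1 : z ((i, j, i), (i, j)) = 0 := (h.sym2 _ _ _ _).trans c1
  have f2 : z ((j, i, i), (i, j)) = 0 := (h.sym1 _ _ _ _).trans f1
  have f3 : z ((j, i, j), (i, j)) = 0 := (h.sym1 _ _ _ _).trans c2
  have key : ∀ a b d : Fin 10, z ((i, b, d), (i, j)) = 0 → z ((j, b, d), (i, j)) = 0 →
      z ((a, b, d), (i, j)) = 0 := by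
    intro a' b' d' h1 h2
    have := h.inc a' b' d' i j (a, b, d)
    rw [h1, h2, zero_mul, zero_mul, add_zero] at this
    exact (mul_eq_zero.mp this).resolve_right h0
  have g1 : ∀ d, z ((i, i, d), (i, j)) = 0 := fun d => by
    have := key d i i c0 f2
    rw [h.sym1, h.sym2] at this
    exact this
  have g2 : ∀ d, z ((i, j, d), (i, j)) = 0 := fun d => by
    have := key d i j c1 f3
    rw [h.sym1, h.sym2] at this
    exact this
  have g3 : ∀ d, z ((j, j, d), (i, j)) = 0 := fun d => by
    have := key d j j c2 c3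
    rw [h.sym1, h.sym2] at this
    exact this
  have g4 : ∀ b d, z ((i, b, d), (i, j)) = 0 := fun b d => by
    rw [h.sym1]
    exact key b i d (g1 d) ((h.sym1 _ _ _ _).trans (g2 d))
  have g5 : ∀ b d, z ((j, b, d), (i, j)) = 0 := fun b d => by
    rw [h.sym1]
    exact key b j d (g2 d) (g3 d)
  exact h0 (key a b d (g4 b d) (g5 b d))

/-- Every nonzero solution of the relations has a cell. -/
theorem exists_cell (h : Rel z) (hz : z ≠ 0) : ∃ (i j : Fin 10) (m : Fin 4),
    z (cellIdx i j m) ≠ 0 := by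
  obtain ⟨⟨A, i, j⟩, hI⟩ := Function.ne_iff.mp hz
  obtain ⟨m, hm⟩ := exists_m h (A := A) (i := i) (j := j) hI
  exact ⟨i, j, m, hm⟩

/-- Exchange of the two basis vectors. -/
theorem cell_swap (h : Rel z) (i j : Fin 10) (m : Fin 4) :
    z (cellIdx j i m.rev) = -z (cellIdx i j m) := by
  fin_cases m
  · exact h.alt _ _ _
  · change z ((j, i, i), (j, i)) = -z ((i, i, j), (i, j))
    rw [h.sym1, h.sym2]
    exact h.alt _ _ _
  · change z ((j, j, i), (j, i)) = -z ((i, j, j), (i, j))
    rw [h.sym2, h.sym1]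
    exact h.alt _ _ _
  · exact h.alt _ _ _

theorem onX_iff_rel : OnX z ↔ z ≠ 0 ∧ Rel z := by
  constructor
  · rintro ⟨h0, u, v, c, rfl⟩
    exact ⟨h0, rel_zfun u v c⟩
  · rintro ⟨h0, h⟩
    obtain ⟨i, j, m, hc⟩ := exists_cell h h0
    refine ⟨h0, cellE z i j m, cellE' z i j m, z (cellIdx i j m) • cellG z i j m, ?_⟩
    funext I
    rw [cell_formula h hc I]
    simp only [zfun, cub, Pi.smul_apply, smul_eq_mul]
    ring

end field

end MP9a7843
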